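import Mathlib

/-! Definitions for the project reciprocal Mersenne subseries (MP_7d9581_nt). -/

namespace Pool.Agent.H335R2.EM

/-- the sum of `1/(2^n-1)` over `n ∈ A` (the term `n = 0` is `0`). -/
noncomputable def S (A : Set ℕ) : ℝ := ∑' n : A, (1 : ℝ) / (2 ^ n.1 - 1)

open Classical in
/-- number of divisors of `n` that lie in `A` (`0` for `n = 0`). -/
noncomputable def dA (A : Set ℕ) (n : ℕ) : ℕ := (n.divisors.filter (fun a => a ∈ A)).card

/-- membership in `A` does not change under multiplication by a product `q * q'` of two different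
elements of `Q` not dividing the integer. -/
def Inv (Q A : Set ℕ) : Prop :=
  ∀ q ∈ Q, ∀ q' ∈ Q, q ≠ q' → ∀ m, 0 < m → ¬ q ∣ m → ¬ q' ∣ m → (q * q' * m ∈ A ↔ m ∈ A)

end Pool.Agent.H335R2.EM
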