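import Mathlib
import Pool.Agent.H335R2.EM.Defs

/-! Definitions for the final theorem on reciprocal Mersenne subseries (MP_7d9581_nt). -/

namespace Pool.Agent.H335R2.EM

/-- a set of primes with a positive exponent of convergence: for some `δ > 0` the sum of
`q ^ (-δ)` over `q ∈ Q` diverges. -/
def Rich (Q : Set ℕ) : Prop :=
  (∀ q ∈ Q, q.Prime) ∧ ∃ δ : ℝ, 0 < δ ∧ ¬ Summable (fun q : Q => (q.1 : ℝ) ^ (-δ))

/-- membership in `A` does not change under multiplication of `m` by a product of `2 ^ b`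
different elements of `Q` not dividing `m`. -/
def InvD (b : ℕ) (Q A : Set ℕ) : Prop :=
  ∀ s : Finset ℕ, (∀ q ∈ s, q ∈ Q) → s.card = 2 ^ b → ∀ m, 0 < m → (∀ q ∈ s, ¬ q ∣ m) →
    ((∏ q ∈ s, q) * m ∈ A ↔ m ∈ A)

/-- membership in `A` does not change under multiplication of `m` by a product of `L` elements of
`Q`, repetitions allowed. -/
def InvC (L : ℕ) (Q A : Set ℕ) : Prop :=
  ∀ s : Multiset ℕ, (∀ q ∈ s, q ∈ Q) → Multiset.card s = L → ∀ m, 0 < m →
    (s.prod * m ∈ A ↔ m ∈ A)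

end Pool.Agent.H335R2.EM
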