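import Mathlib
import Pool.Agent.H335R2.EM.Defs

/-! E1: invariance of the classes of `Ω` and `ω`. -/

namespace Pool.Agent.H335R2.EM

open Finset

theorem E1_prod (s : Finset ℕ) (hs : ∀ q ∈ s, q.Prime) (m : ℕ) (hm : 0 < m)
    (hd : ∀ q ∈ s, ¬ q ∣ m) :
    0 < (∏ q ∈ s, q) * m ∧
      ArithmeticFunction.cardDistinctFactors ((∏ q ∈ s, q) * m) =
        s.card + ArithmeticFunction.cardDistinctFactors m := by
  induction s using Finset.induction_on with
  | empty => simpa using hm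
  | insert p s hp ih =>
    obtain ⟨h0, h1⟩ := ih (fun q hq => hs q (mem_insert_of_mem hq))
      (fun q hq => hd q (mem_insert_of_mem hq))
    have hpp := hs p (mem_insert_self p s)
    have hpm := hd p (mem_insert_self p s)
    have hndvd : ¬ p ∣ (∏ q ∈ s, q) * m := by
      intro h
      rcases (Nat.Prime.dvd_mul hpp).1 h with h | h
      · obtain ⟨q, hq, hpq⟩ := (Prime.dvd_finsetProd_iff hpp.prime _).1 h
        have := (Nat.prime_dvd_prime_iff_eq hpp (hs q (mem_insert_of_mem hq))).1 hpq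
        rw [this] at hp
        exact hp hq
      · exact hpm h
    have hcop : Nat.Coprime p ((∏ q ∈ s, q) * m) := (Nat.Prime.coprime_iff_not_dvd hpp).2 hndvd
    rw [prod_insert hp, mul_assoc]
    refine ⟨Nat.mul_pos hpp.pos h0, ?_⟩
    rw [ArithmeticFunction.cardDistinctFactors_mul hcop,
      ArithmeticFunction.cardDistinctFactors_apply_prime hpp, h1, card_insert_of_notMem hp]
    ring

theorem E1 : (∀ L a : ℕ, 0 < L →
      (∀ q ∈ {q : ℕ | q.Prime}, ∀ q' ∈ {q : ℕ | q.Prime}, ∀ m, 0 < m →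
        (q * m ∈ {n : ℕ | 0 < n ∧ ArithmeticFunction.cardFactors n % L = a % L} ↔
          q' * m ∈ {n : ℕ | 0 < n ∧ ArithmeticFunction.cardFactors n % L = a % L})) ∧
      (∀ q ∈ {q : ℕ | q.Prime}, ∀ m, 0 < m →
        (q ^ L * m ∈ {n : ℕ | 0 < n ∧ ArithmeticFunction.cardFactors n % L = a % L} ↔
          m ∈ {n : ℕ | 0 < n ∧ ArithmeticFunction.cardFactors n % L = a % L}))) ∧
    (∀ b a : ℕ, ∀ s : Finset ℕ, (∀ q ∈ s, q ∈ {q : ℕ | q.Prime}) → s.card = 2 ^ b → ∀ m, 0 < m →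
      (∀ q ∈ s, ¬ q ∣ m) →
      ((∏ q ∈ s, q) * m ∈ {n : ℕ | 0 < n ∧ ArithmeticFunction.cardDistinctFactors n % 2 ^ b = a % 2 ^ b} ↔
        m ∈ {n : ℕ | 0 < n ∧ ArithmeticFunction.cardDistinctFactors n % 2 ^ b = a % 2 ^ b})) := by
  refine ⟨fun L a hL => ⟨?_, ?_⟩, ?_⟩
  · intro q hq q' hq' m hm
    have h1 : q.Prime := hq
    have h2 : q'.Prime := hq'
    have a1 : 0 < q * m := Nat.mul_pos h1.pos hm
    have a2 : 0 < q' * m := Nat.mul_pos h2.pos hm
    have b1 : ArithmeticFunction.cardFactors (q * m) = 1 + ArithmeticFunction.cardFactors m := by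
      rw [ArithmeticFunction.cardFactors_mul h1.ne_zero hm.ne',
        ArithmeticFunction.cardFactors_apply_prime h1]
    have b2 : ArithmeticFunction.cardFactors (q' * m) = 1 + ArithmeticFunction.cardFactors m := by
      rw [ArithmeticFunction.cardFactors_mul h2.ne_zero hm.ne',
        ArithmeticFunction.cardFactors_apply_prime h2]
    show (0 < q * m ∧ ArithmeticFunction.cardFactors (q * m) % L = a % L) ↔
      (0 < q' * m ∧ ArithmeticFunction.cardFactors (q' * m) % L = a % L)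
    rw [b1, b2]
    exact ⟨fun h => ⟨a2, h.2⟩, fun h => ⟨a1, h.2⟩⟩
  · intro q hq m hm
    have h1 : q.Prime := hq
    have a1 : 0 < q ^ L * m := Nat.mul_pos (pow_pos h1.pos L) hm
    have b1 : ArithmeticFunction.cardFactors (q ^ L * m) =
        L + ArithmeticFunction.cardFactors m := by
      rw [ArithmeticFunction.cardFactors_mul (pow_ne_zero _ h1.ne_zero) hm.ne',
        ArithmeticFunction.cardFactors_apply_prime_pow h1]
    show (0 < q ^ L * m ∧ ArithmeticFunction.cardFactors (q ^ L * m) % L = a % L) ↔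
      (0 < m ∧ ArithmeticFunction.cardFactors m % L = a % L)
    rw [b1, Nat.add_mod_left]
    exact ⟨fun h => ⟨hm, h.2⟩, fun h => ⟨a1, h.2⟩⟩
  · intro b a s hs hc m hm hd
    obtain ⟨h0, h1⟩ := E1_prod s hs m hm hd
    show (0 < (∏ q ∈ s, q) * m ∧
      ArithmeticFunction.cardDistinctFactors ((∏ q ∈ s, q) * m) % 2 ^ b = a % 2 ^ b) ↔
      (0 < m ∧ ArithmeticFunction.cardDistinctFactors m % 2 ^ b = a % 2 ^ b)
    rw [h1, hc, Nat.add_mod_left]
    exact ⟨fun h => ⟨hm, h.2⟩, fun h => ⟨h0, h.2⟩⟩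

end Pool.Agent.H335R2.EM
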