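import Mathlib
import Pool.Agent.H335R2.EM.Defs

/-! Task G4 (helper323): Chinese remainder theorem, general exponents (adapted from T4). -/

namespace Pool.Agent.H335R2.EM

open Finset

theorem G4 (K h k : ℕ) (hh : 0 < h) (F : Finset ℕ) (hF : F.card = k * (K * (k + 1)))
    (hp : ∀ q ∈ F, q.Prime ∧ 2 ^ k < q) :
    ∃ r : ℕ, r < ((∏ q ∈ F, q) ^ h) ^ 2 ∧ ∀ t : ℕ,
      (∀ j, 1 ≤ j → j ≤ k → ∃ s : Finset ℕ, s ⊆ F ∧ s.card = K * (k + 1) ∧
        ∀ q ∈ s, q ^ (2 * h - 1) ∣ r + ((∏ q ∈ F, q) ^ h) ^ 2 * t + j ∧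
          ¬ q ^ (2 * h) ∣ r + ((∏ q ∈ F, q) ^ h) ^ 2 * t + j) ∧
      (∀ j, k < j → j ≤ 2 ^ k →
        Nat.Coprime (r + ((∏ q ∈ F, q) ^ h) ^ 2 * t + j) ((∏ q ∈ F, q) ^ h)) := by
  classical
  -- the index of an element of `F`
  have hcard : Fintype.card F = Fintype.card (Fin k × Fin (K * (k + 1))) := by
    rw [Fintype.card_coe, hF, Fintype.card_prod, Fintype.card_fin, Fintype.card_fin]
  have hm : ((∏ q ∈ F, q) ^ h) ^ 2 = ∏ q ∈ F, q ^ (2 * h) := by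
    rw [Finset.prod_pow, ← pow_mul, mul_comm]
  obtain ⟨m, hmdef⟩ : ∃ m : ℕ, m = ((∏ q ∈ F, q) ^ h) ^ 2 := ⟨_, rfl⟩
  rw [← hmdef]
  rw [← hmdef] at hm
  have e : F ≃ Fin k × Fin (K * (k + 1)) := Fintype.equivOfCardEq hcard
  let a : ℕ → ℕ := fun q => if h' : q ∈ F then
    q ^ (2 * h - 1) + q ^ (2 * h) * k - (((e ⟨q, h'⟩).1 : ℕ) + 1) else 0
  have hne : ∀ q ∈ F, q ^ (2 * h) ≠ 0 := fun q hq => pow_ne_zero _ (hp q hq).1.ne_zero
  have hpp : Set.Pairwise (F : Set ℕ) (Function.onFun Nat.Coprime (fun q => q ^ (2 * h))) := by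
    intro q hq q' hq' hqq
    exact Nat.Coprime.pow _ _ ((Nat.coprime_primes (hp q hq).1 (hp q' hq').1).mpr hqq)
  let R := Nat.chineseRemainderOfFinset a (fun q => q ^ (2 * h)) F hne hpp
  have hR : ∀ q ∈ F, (R : ℕ) ≡ a q [MOD q ^ (2 * h)] := R.2
  have hRlt : (R : ℕ) < m := by
    rw [hm]
    exact Nat.chineseRemainderOfFinset_lt_prod a (fun q => q ^ (2 * h)) hne hpp
  -- the key congruence
  have key : ∀ (t : ℕ) (q : ℕ) (h' : q ∈ F),
      (R : ℕ) + m * t + (((e ⟨q, h'⟩).1 : ℕ) + 1) ≡ q ^ (2 * h - 1) [MOD q ^ (2 * h)] := by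
    intro t q h'
    have hqp := (hp q h').1
    set i := ((e ⟨q, h'⟩).1 : ℕ) + 1 with hi
    have hik : i ≤ k := (e ⟨q, h'⟩).1.2
    have hbig : i ≤ q ^ (2 * h - 1) + q ^ (2 * h) * k := by
      have h1 : 1 ≤ q ^ (2 * h) := Nat.one_le_pow _ _ hqp.pos
      have h1' : 1 * k ≤ q ^ (2 * h) * k := Nat.mul_le_mul_right k h1
      rw [one_mul] at h1'
      exact (hik.trans h1').trans (Nat.le_add_left _ _)
    have haq : a q = q ^ (2 * h - 1) + q ^ (2 * h) * k - i := by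
      show (if h' : q ∈ F then
        q ^ (2 * h - 1) + q ^ (2 * h) * k - (((e ⟨q, h'⟩).1 : ℕ) + 1) else 0) = _
      rw [dif_pos h']
    have hdvd : q ^ (2 * h) ∣ m * t := by
      rw [hm]
      exact Dvd.dvd.mul_right (Finset.dvd_prod_of_mem (fun q => q ^ (2 * h)) h') t
    have h2 : m * t ≡ 0 [MOD q ^ (2 * h)] := (Nat.modEq_zero_iff_dvd).mpr hdvd
    calc (R : ℕ) + m * t + i ≡ a q + 0 + i [MOD q ^ (2 * h)] :=
          ((hR q h').add h2).add_right i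
      _ = q ^ (2 * h - 1) + q ^ (2 * h) * k := by rw [haq]; omega
      _ ≡ q ^ (2 * h - 1) + 0 [MOD q ^ (2 * h)] :=
          Nat.ModEq.add_left _ ((Nat.modEq_zero_iff_dvd).mpr (Dvd.intro _ rfl))
      _ = q ^ (2 * h - 1) := by rw [add_zero]
  have hlt : 2 * h - 1 < 2 * h := by omega
  have hge : 2 * h - 1 ≠ 0 := by omega
  refine ⟨R, hRlt, fun t => ⟨?_, ?_⟩⟩
  · intro j hj1 hjk
    have hjlt : j - 1 < k := by omega
    let g : Fin (K * (k + 1)) → ℕ := fun x => ((e.symm (⟨j - 1, hjlt⟩, x) : F) : ℕ)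
    have hg : Function.Injective g := by
      intro x y hxy
      have h1 : e.symm (⟨j - 1, hjlt⟩, x) = e.symm (⟨j - 1, hjlt⟩, y) := Subtype.ext hxy
      have h2 := e.symm.injective h1
      exact (Prod.mk.inj h2).2
    refine ⟨Finset.univ.image g, ?_, ?_, ?_⟩
    · intro q hq
      obtain ⟨x, -, rfl⟩ := Finset.mem_image.mp hq
      exact (e.symm (⟨j - 1, hjlt⟩, x)).2
    · rw [Finset.card_image_of_injective _ hg, Finset.card_univ, Fintype.card_fin]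
    · intro q hq
      obtain ⟨x, -, rfl⟩ := Finset.mem_image.mp hq
      have hmem : g x ∈ F := (e.symm (⟨j - 1, hjlt⟩, x)).2
      have hidx : (((e ⟨g x, hmem⟩).1 : ℕ) + 1) = j := by
        have h1 : (⟨g x, hmem⟩ : F) = e.symm (⟨j - 1, hjlt⟩, x) := rfl
        rw [h1, Equiv.apply_symm_apply]
        show j - 1 + 1 = j
        omega
      have hk := key t (g x) hmem
      rw [hidx] at hk
      have hqp := (hp (g x) hmem).1
      generalize g x = q at hk hqp ⊢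
      constructor
      · have h3 : (R : ℕ) + m * t + j ≡ q ^ (2 * h - 1) [MOD q ^ (2 * h - 1)] :=
          hk.of_dvd (pow_dvd_pow q hlt.le)
        have h4 : q ^ (2 * h - 1) ≡ 0 [MOD q ^ (2 * h - 1)] :=
          (Nat.modEq_zero_iff_dvd).mpr dvd_rfl
        exact (Nat.modEq_zero_iff_dvd).mp (h3.trans h4)
      · intro hdv
        have h3 : q ^ (2 * h) ∣ q ^ (2 * h - 1) := (hk.dvd_iff dvd_rfl).mp hdv
        have h4 := Nat.le_of_dvd (pow_pos hqp.pos _) h3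
        have h5 : q ^ (2 * h - 1) < q ^ (2 * h) := Nat.pow_lt_pow_right hqp.one_lt hlt
        omega
  · intro j hkj hj2
    refine Nat.Coprime.pow_right h (Nat.Coprime.prod_right fun q hq => ?_)
    have hqp := (hp q hq).1
    rw [Nat.coprime_comm, Nat.Prime.coprime_iff_not_dvd hqp]
    intro hdv
    have hk := key t q hq
    set i := ((e ⟨q, hq⟩).1 : ℕ) + 1 with hi
    have hik : i ≤ k := (e ⟨q, hq⟩).1.2
    have h3 : (R : ℕ) + m * t + i ≡ q ^ (2 * h - 1) [MOD q] :=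
      hk.of_dvd (dvd_pow_self q (by omega))
    have h4 : q ^ (2 * h - 1) ≡ 0 [MOD q] :=
      (Nat.modEq_zero_iff_dvd).mpr (dvd_pow_self q hge)
    have h5 : q ∣ (R : ℕ) + m * t + i := (Nat.modEq_zero_iff_dvd).mp (h3.trans h4)
    have h6 : q ∣ ((R : ℕ) + m * t + j) - ((R : ℕ) + m * t + i) :=
      Nat.dvd_sub hdv h5
    have h7 : ((R : ℕ) + m * t + j) - ((R : ℕ) + m * t + i) = j - i := by omega
    rw [h7] at h6
    have h8 := Nat.le_of_dvd (by omega) h6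
    have h9 := (hp q hq).2
    omega

end Pool.Agent.H335R2.EM
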