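import Mathlib
import Pool.Agent.H335R2.EM.Defs

namespace Pool.Agent.H335R2.EM

open Finset

private lemma G7_size (C c : ℕ) : ∃ k0, ∀ k, k0 ≤ k → c ≤ k ∧
    2 * ((C + 1) * (k + 1) ^ 3) + 2 ≤ 2 ^ (k - c) := by
  have h := tendsto_pow_const_div_const_pow_of_one_lt 3 (r := (2 : ℝ)) (by norm_num)
  have h2 : ∀ᶠ n : ℕ in Filter.atTop, (n : ℝ) ^ 3 / 2 ^ n < 1 / ((32 * (C + 1)) * 2 ^ c) :=
    h.eventually_lt_const (by positivity)
  obtain ⟨k1, hk1⟩ := Filter.eventually_atTop.1 h2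
  refine ⟨max k1 (max c 1), fun k hk => ?_⟩
  have hkc : c ≤ k := (le_max_left _ _).trans ((le_max_right _ _).trans hk)
  have hk0 : 1 ≤ k := (le_max_right _ _).trans ((le_max_right _ _).trans hk)
  refine ⟨hkc, ?_⟩
  have h3 := hk1 k ((le_max_left _ _).trans hk)
  rw [div_lt_div_iff₀ (by positivity) (by positivity), one_mul] at h3
  have h4 : (2 : ℝ) ^ k = 2 ^ (k - c) * 2 ^ c := by
    rw [← pow_add, Nat.sub_add_cancel hkc]
  rw [h4] at h3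
  have h5 : (k : ℝ) ^ 3 * (32 * (C + 1)) < 2 ^ (k - c) := by
    have h6 : (k : ℝ) ^ 3 * (32 * (C + 1)) * 2 ^ c < 2 ^ (k - c) * 2 ^ c := by linarith
    exact lt_of_mul_lt_mul_right h6 (by positivity)
  have h7 : k ^ 3 * (32 * (C + 1)) < 2 ^ (k - c) := by exact_mod_cast h5
  have h8 : 2 * ((C + 1) * (k + 1) ^ 3) + 2 ≤ k ^ 3 * (32 * (C + 1)) := by
    have e1 : (k + 1) ^ 3 ≤ 8 * k ^ 3 := by
      calc (k + 1) ^ 3 ≤ (2 * k) ^ 3 := Nat.pow_le_pow_left (by omega) 3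
        _ = 8 * k ^ 3 := by ring
    have e2 : 1 ≤ k ^ 3 := Nat.one_le_pow _ _ hk0
    have e3 : (C + 1) * (k + 1) ^ 3 ≤ (C + 1) * (8 * k ^ 3) := Nat.mul_le_mul_left _ e1
    have e4 : 1 ≤ (C + 1) * k ^ 3 := Nat.mul_pos (by omega) (by omega)
    calc 2 * ((C + 1) * (k + 1) ^ 3) + 2 ≤ 2 * ((C + 1) * (8 * k ^ 3)) + 2 * ((C + 1) * k ^ 3) := by
          omega
      _ = 18 * ((C + 1) * k ^ 3) := by ring
      _ ≤ 32 * ((C + 1) * k ^ 3) := Nat.mul_le_mul_right _ (by norm_num)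
      _ = k ^ 3 * (32 * (C + 1)) := by ring
  omega

/-- G7. size of the parameters: `C`, `c` fixed, `k` large, `T = 2^(2^(k-c))`,
`M ≤ 2^(C (k+1)^3)`. -/
theorem G7 (C c : ℕ) (hc : 3 ≤ c) : ∃ k0, ∀ k, k0 ≤ k → c ≤ k ∧ ∀ M r : ℕ,
    M ≤ 2 ^ (C * (k + 1) ^ 3) → r < M ^ 2 →
      r + M ^ 2 * (2 ^ (2 ^ (k - c))) + 2 ^ k ≤ (2 ^ (2 ^ (k - c))) ^ 2 ∧
      (2 * (2 + Real.log ((2 ^ (2 ^ (k - c)) : ℕ) : ℝ)) / 2 ^ k ≤ 4 / 2 ^ c) ∧
      ((((2 ^ (2 ^ (k - c)) : ℕ) : ℝ) ^ 2 + 2 ^ k + 2) / 2 ^ (2 ^ k) ≤ 1 / 2 ^ c) := by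
  obtain ⟨k0, hk0⟩ := G7_size C c
  refine ⟨max k0 3, fun k hk => ?_⟩
  obtain ⟨hck, hE⟩ := hk0 k ((le_max_left _ _).trans hk)
  have hk3 : 3 ≤ k := (le_max_right _ _).trans hk
  refine ⟨hck, fun M r hM0 hr => ?_⟩
  set E := (C + 1) * (k + 1) ^ 3 with hEdef
  have hM : M ≤ 2 ^ E := by
    refine hM0.trans (Nat.pow_le_pow_right (by norm_num) ?_)
    rw [hEdef]
    exact Nat.mul_le_mul_right _ (by omega)
  set X := 2 ^ (k - c) with hX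
  have hkE : k ≤ E := by
    rw [hEdef]
    calc k ≤ 1 * (k + 1) := by omega
      _ ≤ (C + 1) * (k + 1) ^ 3 :=
        Nat.mul_le_mul (by omega) (Nat.le_self_pow (by norm_num) _)
  have hX2 : 2 ≤ X := by omega
  have hkX : k ≤ X := by omega
  have h2k : 2 ^ k = X * 2 ^ c := by rw [hX, ← pow_add, Nat.sub_add_cancel hck]
  refine ⟨?_, ?_, ?_⟩
  · have h1 : M ^ 2 ≤ 2 ^ (2 * E) := by
      calc M ^ 2 ≤ (2 ^ E) ^ 2 := Nat.pow_le_pow_left hM 2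
        _ = 2 ^ (2 * E) := by rw [← pow_mul, mul_comm]
    have h2 : 4 * 2 ^ (2 * E) ≤ 2 ^ X := by
      calc 4 * 2 ^ (2 * E) = 2 ^ (2 * E + 2) := by rw [pow_add]; ring
        _ ≤ 2 ^ X := Nat.pow_le_pow_right (by norm_num) hE
    have h3 : 2 ^ k ≤ 2 ^ (2 * E) := Nat.pow_le_pow_right (by norm_num) (by omega)
    have h4 : M ^ 2 * 2 ^ X ≤ 2 ^ (2 * E) * 2 ^ X := Nat.mul_le_mul_right _ h1
    have h5 : 1 ≤ 2 ^ X := Nat.one_le_two_pow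
    nlinarith
  · have hl2 : Real.log 2 < 0.6931471808 := Real.log_two_lt_d9
    have hcast : ((2 ^ X : ℕ) : ℝ) = (2 : ℝ) ^ X := by push_cast; rfl
    rw [hcast, Real.log_pow]
    have h2kR : (2 : ℝ) ^ k = X * 2 ^ c := by exact_mod_cast h2k
    have hXR : (2 : ℝ) ≤ X := by exact_mod_cast hX2
    rw [h2kR, div_le_div_iff₀ (by positivity) (by positivity)]
    have h6 : 2 * (2 + (X : ℝ) * Real.log 2) ≤ 4 * X := by nlinarith
    have h7 : (0 : ℝ) < 2 ^ c := by positivity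
    nlinarith
  · have h1 : 2 ^ c * ((2 ^ X) ^ 2 + 2 ^ k + 2) ≤ 2 ^ (2 ^ k) := by
      have e1 : 2 ^ c ≤ 2 ^ X := Nat.pow_le_pow_right (by norm_num) (by omega)
      have e2 : 2 ^ k ≤ 2 ^ X := Nat.pow_le_pow_right (by norm_num) hkX
      have e3 : 4 ≤ 2 ^ X := by
        calc 4 = 2 ^ 2 := by norm_num
          _ ≤ 2 ^ X := Nat.pow_le_pow_right (by norm_num) hX2
      have e4 : (2 ^ X) ^ 2 + 2 ^ k + 2 ≤ 2 * (2 ^ X) ^ 2 := by nlinarith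
      calc 2 ^ c * ((2 ^ X) ^ 2 + 2 ^ k + 2) ≤ 2 ^ X * (2 * (2 ^ X) ^ 2) :=
            Nat.mul_le_mul e1 e4
        _ = 2 ^ (3 * X + 1) := by
            rw [show 3 * X + 1 = X + X + X + 1 by ring, pow_add, pow_add, pow_add, pow_one]
            ring
        _ ≤ 2 ^ (2 ^ k) := by
            refine Nat.pow_le_pow_right (by norm_num) ?_
            rw [h2k]
            have : 8 ≤ 2 ^ c := by
              calc 8 = 2 ^ 3 := by norm_num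
                _ ≤ 2 ^ c := Nat.pow_le_pow_right (by norm_num) hc
            nlinarith
    have h1R : (2 : ℝ) ^ c * ((((2 ^ X : ℕ) : ℝ)) ^ 2 + 2 ^ k + 2) ≤ 2 ^ (2 ^ k) := by
      exact_mod_cast h1
    rw [div_le_div_iff₀ (by positivity) (by positivity), one_mul]
    linarith

end Pool.Agent.H335R2.EM
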