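import Mathlib
import Pool.Agent.H335R2.EM.Defs

namespace Pool.Agent.H335R2.EM

open Finset

open Classical in
/-- the double series of T1 -/
noncomputable def T1_F (A : Set ℕ) (p : ℕ × ℕ) : ℝ :=
  if p.1 ∈ A ∧ p.1 ∣ p.2 ∧ p.2 ≠ 0 then 1 / 2 ^ p.2 else 0

theorem T1_F_nonneg (A : Set ℕ) : 0 ≤ T1_F A := by
  intro p
  show 0 ≤ T1_F A p
  unfold T1_F
  split_ifs
  · positivity
  · exact le_rfl

theorem T1_row (A : Set ℕ) (a : ℕ) :
    HasSum (fun n => T1_F A (a, n)) (A.indicator (fun a : ℕ => (1 : ℝ) / (2 ^ a - 1)) a) := by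
  classical
  by_cases ha : a ∈ A ∧ a ≠ 0
  · obtain ⟨haA, ha0⟩ := ha
    rw [Set.indicator_of_mem haA]
    have hinj : Function.Injective (fun i : ℕ => a * (i + 1)) := by
      intro i j h
      have h1 : a * (i + 1) = a * (j + 1) := h
      have h2 := Nat.eq_of_mul_eq_mul_left (Nat.pos_of_ne_zero ha0) h1
      omega
    rw [← hinj.hasSum_iff]
    · have h1 : ((fun n => T1_F A (a, n)) ∘ fun i : ℕ => a * (i + 1)) =
          fun i : ℕ => (1 / 2 ^ a : ℝ) * (1 / 2 ^ a) ^ i := by
        funext i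
        show T1_F A (a, a * (i + 1)) = _
        unfold T1_F
        rw [if_pos ⟨haA, Dvd.intro _ rfl, Nat.mul_ne_zero ha0 (Nat.succ_ne_zero i)⟩]
        rw [← pow_succ', one_div_pow, ← pow_mul]
      rw [h1]
      have h2 : (1 : ℝ) / 2 ^ a < 1 := by
        rw [div_lt_one (by positivity)]
        exact one_lt_pow₀ (by norm_num) ha0
      have h3 := (hasSum_geometric_of_lt_one (by positivity) h2).mul_left (1 / 2 ^ a : ℝ)
      have h4 : (1 / 2 ^ a : ℝ) * (1 - 1 / 2 ^ a)⁻¹ = 1 / (2 ^ a - 1) := by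
        have h5 : (2 : ℝ) ^ a - 1 ≠ 0 := by
          have : (1 : ℝ) < 2 ^ a := one_lt_pow₀ (by norm_num) ha0
          linarith
        have h6 : (2 : ℝ) ^ a ≠ 0 := by positivity
        field_simp
      rw [h4] at h3
      exact h3
    · intro n hn
      unfold T1_F
      rw [if_neg]
      rintro ⟨_, ⟨k, hk⟩, h0⟩
      apply hn
      have hk' : n = a * k := hk
      have hk0 : k ≠ 0 := by
        rintro rfl
        exact h0 (by simpa using hk')
      exact ⟨k - 1, by
        show a * (k - 1 + 1) = n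
        rw [Nat.sub_add_cancel (Nat.one_le_iff_ne_zero.mpr hk0), hk']⟩
  · have h1 : (fun n => T1_F A (a, n)) = fun _ => 0 := by
      funext n
      unfold T1_F
      rw [if_neg]
      rintro ⟨h2, h3, h4⟩
      apply ha
      refine ⟨h2, ?_⟩
      rintro rfl
      exact h4 (Nat.eq_zero_of_zero_dvd h3)
    have h2 : A.indicator (fun a : ℕ => (1 : ℝ) / (2 ^ a - 1)) a = 0 := by
      by_cases h3 : a ∈ A
      · rw [Set.indicator_of_mem h3]
        have h4 : a = 0 := by
          by_contra h5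
          exact ha ⟨h3, h5⟩
        rw [h4]
        norm_num
      · exact Set.indicator_of_notMem h3 _
    rw [h1, h2]
    exact hasSum_zero

theorem T1_ind (A : Set ℕ) : Summable (A.indicator (fun a : ℕ => (1 : ℝ) / (2 ^ a - 1))) := by
  have h1 : Summable (fun a : ℕ => 2 * (1 / 2 : ℝ) ^ a) :=
    (summable_geometric_of_lt_one (by norm_num) (by norm_num)).mul_left 2
  apply Summable.of_nonneg_of_le _ _ h1
  · intro a
    apply Set.indicator_nonneg
    intro b _
    apply div_nonneg zero_le_one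
    have : (1 : ℝ) ≤ 2 ^ b := one_le_pow₀ (by norm_num)
    linarith
  · intro a
    apply Set.indicator_le' (f := fun a : ℕ => (1 : ℝ) / (2 ^ a - 1))
      (g := fun a : ℕ => 2 * (1 / 2 : ℝ) ^ a)
    · intro b _
      rcases Nat.eq_zero_or_pos b with h0 | h0
      · rw [h0]
        norm_num
      · have h2 : (2 : ℝ) ≤ 2 ^ b := by
          calc (2 : ℝ) = 2 ^ 1 := by norm_num
            _ ≤ 2 ^ b := pow_le_pow_right₀ (by norm_num) h0
        rw [div_le_iff₀ (by linarith), one_div_pow]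
        have h3 : 2 * (1 / 2 ^ b) * ((2 : ℝ) ^ b - 1) = 2 - 2 / 2 ^ b := by
          have : (2 : ℝ) ^ b ≠ 0 := by positivity
          field_simp
        rw [h3]
        have h4 : (2 : ℝ) / 2 ^ b ≤ 1 := by
          rw [div_le_one (by positivity)]
          exact h2
        linarith
    · intro b _
      positivity

/-- T1. Lambert series: `1/(2^a-1) = ∑_{i≥1} 2^(-a i)` and regroup by `n = a i`. -/
theorem T1 (A : Set ℕ) : HasSum (fun n : ℕ => (dA A n : ℝ) / 2 ^ n) (S A) := by
  classical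
  have hsum : Summable (T1_F A) := by
    rw [summable_prod_of_nonneg (T1_F_nonneg A)]
    refine ⟨fun a => (T1_row A a).summable, ?_⟩
    have h1 : (fun a => ∑' n, T1_F A (a, n)) = A.indicator (fun a : ℕ => (1 : ℝ) / (2 ^ a - 1)) :=
      funext fun a => (T1_row A a).tsum_eq
    rw [h1]
    exact T1_ind A
  have h1 : HasSum (T1_F A) (S A) := by
    have h2 := hsum.hasSum.prod_fiberwise (T1_row A)
    have h3 : S A = ∑' p, T1_F A p := by
      unfold S
      rw [← h2.tsum_eq]
      exact tsum_subtype A (fun a : ℕ => (1 : ℝ) / (2 ^ a - 1))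
    rw [h3]
    exact hsum.hasSum
  have h2 : HasSum (fun p : ℕ × ℕ => T1_F A (p.2, p.1)) (S A) :=
    (Equiv.prodComm ℕ ℕ).hasSum_iff.mpr h1
  apply h2.prod_fiberwise
  intro n
  have h3 : ∑ a ∈ n.divisors.filter (fun a => a ∈ A), T1_F A (a, n) = (dA A n : ℝ) / 2 ^ n := by
    have h4 : ∀ a ∈ n.divisors.filter (fun a => a ∈ A), T1_F A (a, n) = 1 / 2 ^ n := by
      intro a ha
      rw [Finset.mem_filter, Nat.mem_divisors] at ha
      unfold T1_F
      rw [if_pos ⟨ha.2, ha.1.1, ha.1.2⟩]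
    rw [Finset.sum_congr rfl h4, Finset.sum_const, nsmul_eq_mul, mul_one_div]
    unfold dA
    congr!
  rw [← h3]
  apply hasSum_sum_of_ne_finset_zero
  intro a ha
  show T1_F A (a, n) = 0
  unfold T1_F
  rw [if_neg]
  rintro ⟨h4, h5, h6⟩
  apply ha
  rw [Finset.mem_filter, Nat.mem_divisors]
  exact ⟨⟨h5, h6⟩, h4⟩

end Pool.Agent.H335R2.EM
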