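import Mathlib
import Pool.Agent.H335R2.EM.Defs

/-! T5: average of the divisor function along a progression. -/

namespace Pool.Agent.H335R2.EM

open Finset

theorem T5_card (n T : ℕ) (hn : n ≤ T ^ 2) :
    n.divisors.card ≤ 2 * ((Icc 1 T).filter (fun a => a ∣ n)).card := by
  classical
  have hsplit : n.divisors = n.divisors.filter (fun a => a ≤ T) ∪
      n.divisors.filter (fun a => ¬ a ≤ T) := (filter_union_filter_not_eq _ _).symm
  have h1 : (n.divisors.filter (fun a => a ≤ T)).card ≤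
      ((Icc 1 T).filter (fun a => a ∣ n)).card := by
    apply card_le_card
    intro a ha
    simp only [mem_filter, Nat.mem_divisors, mem_Icc] at ha ⊢
    exact ⟨⟨Nat.pos_of_dvd_of_pos ha.1.1 (Nat.pos_of_ne_zero ha.1.2), ha.2⟩, ha.1.1⟩
  have h2 : (n.divisors.filter (fun a => ¬ a ≤ T)).card ≤
      ((Icc 1 T).filter (fun a => a ∣ n)).card := by
    apply card_le_card_of_injOn (fun a => n / a)
    · intro a ha
      simp only [coe_filter, Nat.mem_divisors, Set.mem_setOf_eq, not_le] at ha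
      simp only [coe_filter, mem_Icc, Set.mem_setOf_eq]
      obtain ⟨⟨hd, h0⟩, hT⟩ := ha
      have hpos : 0 < a := by omega
      refine ⟨⟨?_, ?_⟩, Nat.div_dvd_of_dvd hd⟩
      · exact Nat.div_pos (Nat.le_of_dvd (Nat.pos_of_ne_zero h0) hd) hpos
      · by_contra hcon
        push Not at hcon
        have h3 : a * (n / a) = n := Nat.mul_div_cancel' hd
        have h4 : (T + 1) * (T + 1) ≤ a * (n / a) := Nat.mul_le_mul (by omega) (by omega)
        nlinarith
    · intro a ha b hb hab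
      simp only [coe_filter, Nat.mem_divisors, Set.mem_setOf_eq, not_le] at ha hb
      simp only at hab
      have h3 : a * (n / a) = n := Nat.mul_div_cancel' ha.1.1
      have h4 : b * (n / b) = n := Nat.mul_div_cancel' hb.1.1
      rw [hab] at h3
      have h5 : n / b ≠ 0 := by
        intro h
        rw [h, mul_zero] at h4
        exact hb.1.2 h4.symm
      exact Nat.eq_of_mul_eq_mul_right (Nat.pos_of_ne_zero h5) (h3.trans h4.symm)
  calc n.divisors.card ≤ (n.divisors.filter (fun a => a ≤ T)).card +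
      (n.divisors.filter (fun a => ¬ a ≤ T)).card := by
        conv_lhs => rw [hsplit]
        exact card_union_le _ _
    _ ≤ _ := by omega

theorem T5_count (M r j T a : ℕ) (ha : 1 ≤ a)
    (hc : ∀ t, Nat.Coprime (r + M ^ 2 * t + j) M) :
    (((range T).filter (fun t => a ∣ r + M ^ 2 * t + j)).card : ℝ) ≤ (T : ℝ) / a + 1 := by
  classical
  rcases ((range T).filter (fun t => a ∣ r + M ^ 2 * t + j)).eq_empty_or_nonempty with h | h
  · rw [h]
    simp only [card_empty, Nat.cast_zero]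
    positivity
  · obtain ⟨t0, ht0⟩ := h
    simp only [mem_filter, mem_range] at ht0
    have hcop : Nat.Coprime a (M ^ 2) :=
      Nat.Coprime.pow_right 2 (Nat.Coprime.coprime_dvd_left ht0.2 (hc t0))
    have hmod : ∀ t ∈ (range T).filter (fun t => a ∣ r + M ^ 2 * t + j), t ≡ t0 [MOD a] := by
      intro t ht
      simp only [mem_filter, mem_range] at ht
      have h1 : r + M ^ 2 * t + j ≡ r + M ^ 2 * t0 + j [MOD a] :=
        ((Nat.modEq_zero_iff_dvd).2 ht.2).trans ((Nat.modEq_zero_iff_dvd).2 ht0.2).symm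
      have h2 : r + M ^ 2 * t ≡ r + M ^ 2 * t0 [MOD a] := Nat.ModEq.add_right_cancel' j h1
      have h3 : M ^ 2 * t ≡ M ^ 2 * t0 [MOD a] := Nat.ModEq.add_left_cancel' r h2
      exact Nat.ModEq.cancel_left_of_coprime hcop h3
    have hcard : ((range T).filter (fun t => a ∣ r + M ^ 2 * t + j)).card ≤ T / a + 1 := by
      have : ((range T).filter (fun t => a ∣ r + M ^ 2 * t + j)).card ≤ (range (T / a + 1)).card := by
        apply card_le_card_of_injOn (fun t => t / a)
        · intro t ht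
          simp only [coe_filter, mem_range, Set.mem_setOf_eq] at ht
          simp only [coe_range, Set.mem_Iio]
          exact Nat.lt_succ_of_le (Nat.div_le_div_right ht.1.le)
        · intro s hs t ht hst
          have h1 := hmod s (by exact_mod_cast hs)
          have h2 := hmod t (by exact_mod_cast ht)
          have h3 : s % a = t % a := h1.trans h2.symm
          simp only at hst
          rw [← Nat.div_add_mod s a, ← Nat.div_add_mod t a, hst, h3]
      rwa [card_range] at this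
    calc (((range T).filter (fun t => a ∣ r + M ^ 2 * t + j)).card : ℝ)
        ≤ ((T / a + 1 : ℕ) : ℝ) := by exact_mod_cast hcard
      _ = ((T / a : ℕ) : ℝ) + 1 := by push_cast; ring
      _ ≤ _ := by
        have : ((T / a : ℕ) : ℝ) ≤ (T : ℝ) / a := Nat.cast_div_le
        linarith

theorem T5 (M r j T : ℕ) (hM : 0 < M) (hT : 1 ≤ T)
    (hc : ∀ t, Nat.Coprime (r + M ^ 2 * t + j) M)
    (hb : r + M ^ 2 * T + j ≤ T ^ 2) :
    ∑ t ∈ range T, ((r + M ^ 2 * t + j).divisors.card : ℝ) ≤ 2 * T * (2 + Real.log T) := by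
  classical
  have h1 : ∀ t ∈ range T, ((r + M ^ 2 * t + j).divisors.card : ℝ) ≤
      2 * ∑ a ∈ Icc 1 T, (if a ∣ r + M ^ 2 * t + j then (1 : ℝ) else 0) := by
    intro t ht
    have h2 : r + M ^ 2 * t + j ≤ T ^ 2 := by
      have h3 : M ^ 2 * t ≤ M ^ 2 * T := Nat.mul_le_mul_left _ (mem_range.1 ht).le
      omega
    have h3 := T5_card _ T h2
    have h4 : (((Icc 1 T).filter (fun a => a ∣ r + M ^ 2 * t + j)).card : ℝ) =
        ∑ a ∈ Icc 1 T, (if a ∣ r + M ^ 2 * t + j then (1 : ℝ) else 0) := by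
      rw [card_filter]
      push_cast
      rfl
    rw [← h4]
    exact_mod_cast h3
  have h2 : ∑ t ∈ range T, ((r + M ^ 2 * t + j).divisors.card : ℝ) ≤
      2 * ∑ a ∈ Icc 1 T, ∑ t ∈ range T, (if a ∣ r + M ^ 2 * t + j then (1 : ℝ) else 0) := by
    calc ∑ t ∈ range T, ((r + M ^ 2 * t + j).divisors.card : ℝ)
        ≤ ∑ t ∈ range T, 2 * ∑ a ∈ Icc 1 T, (if a ∣ r + M ^ 2 * t + j then (1 : ℝ) else 0) :=
          sum_le_sum h1
      _ = 2 * ∑ t ∈ range T, ∑ a ∈ Icc 1 T, (if a ∣ r + M ^ 2 * t + j then (1 : ℝ) else 0) := by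
          rw [mul_sum]
      _ = _ := by rw [sum_comm]
  have h3 : ∀ a ∈ Icc 1 T, ∑ t ∈ range T, (if a ∣ r + M ^ 2 * t + j then (1 : ℝ) else 0) ≤
      (T : ℝ) * (a : ℝ)⁻¹ + 1 := by
    intro a ha
    have h4 := T5_count M r j T a (mem_Icc.1 ha).1 hc
    rw [card_filter] at h4
    push_cast at h4
    rw [div_eq_mul_inv] at h4
    exact h4
  have h4 : ∑ a ∈ Icc 1 T, ∑ t ∈ range T, (if a ∣ r + M ^ 2 * t + j then (1 : ℝ) else 0) ≤
      (T : ℝ) * (2 + Real.log T) := by
    calc ∑ a ∈ Icc 1 T, ∑ t ∈ range T, (if a ∣ r + M ^ 2 * t + j then (1 : ℝ) else 0)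
        ≤ ∑ a ∈ Icc 1 T, ((T : ℝ) * (a : ℝ)⁻¹ + 1) := sum_le_sum h3
      _ = (T : ℝ) * ∑ a ∈ Icc 1 T, (a : ℝ)⁻¹ + T := by
        rw [sum_add_distrib, mul_sum]
        simp
      _ ≤ (T : ℝ) * (1 + Real.log T) + T := by
        have h5 : ∑ a ∈ Icc 1 T, (a : ℝ)⁻¹ ≤ 1 + Real.log T := by
          have h6 := harmonic_le_one_add_log T
          rw [harmonic_eq_sum_Icc] at h6
          push_cast at h6
          exact h6
        have h7 : (0 : ℝ) ≤ T := Nat.cast_nonneg _
        nlinarith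
      _ = _ := by ring
  calc _ ≤ _ := h2
    _ ≤ 2 * ((T : ℝ) * (2 + Real.log T)) := by linarith
    _ = _ := by ring

end Pool.Agent.H335R2.EM
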