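import Mathlib
import Pool.Agent.H335R2.EM.Defs
import Pool.Agent.H335R2.EM.T5

namespace Pool.Agent.H335R2.EM

open Finset

theorem T6_geom (k K : ℕ) (h : k ≤ K) :
    ∑ j ∈ Ioc k K, (1 : ℝ) / 2 ^ j = 1 / 2 ^ k - 1 / 2 ^ K := by
  induction K, h using Nat.le_induction with
  | base => simp
  | succ K hK ih =>
    rw [Finset.sum_Ioc_succ_top hK, ih, pow_succ]
    field_simp
    ring

/-- T6. choice of `t` (uses T5). -/
theorem T6 (M r k T : ℕ) (hM : 0 < M) (hT : 1 ≤ T)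
    (hc : ∀ j, k < j → j ≤ 2 ^ k → ∀ t, Nat.Coprime (r + M ^ 2 * t + j) M)
    (hb : r + M ^ 2 * T + 2 ^ k ≤ T ^ 2) :
    ∃ t < T, ∑ j ∈ Ioc k (2 ^ k), ((r + M ^ 2 * t + j).divisors.card : ℝ) / 2 ^ j ≤
      2 * (2 + Real.log T) / 2 ^ k := by
  have hk : k ≤ 2 ^ k := le_of_lt Nat.lt_two_pow_self
  have hT' : (1 : ℝ) ≤ T := by exact_mod_cast hT
  have hlog : 0 ≤ Real.log T := Real.log_nonneg hT'
  have h1 : ∑ t ∈ range T, ∑ j ∈ Ioc k (2 ^ k), ((r + M ^ 2 * t + j).divisors.card : ℝ) / 2 ^ j ≤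
      ∑ t ∈ range T, 2 * (2 + Real.log T) / 2 ^ k := by
    rw [Finset.sum_comm]
    have h2 : ∀ j ∈ Ioc k (2 ^ k),
        ∑ t ∈ range T, ((r + M ^ 2 * t + j).divisors.card : ℝ) / 2 ^ j ≤
          2 * T * (2 + Real.log T) * (1 / 2 ^ j) := by
      intro j hj
      rw [Finset.mem_Ioc] at hj
      have h3 := T5 M r j T hM hT (hc j hj.1 hj.2) (by omega)
      rw [← Finset.sum_div, div_eq_mul_one_div]
      exact mul_le_mul_of_nonneg_right h3 (by positivity)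
    refine (Finset.sum_le_sum h2).trans ?_
    rw [← Finset.mul_sum, T6_geom k (2 ^ k) hk, Finset.sum_const, Finset.card_range, nsmul_eq_mul]
    have h4 : (1 : ℝ) / 2 ^ k - 1 / 2 ^ (2 ^ k) ≤ 1 / 2 ^ k := by
      have : (0 : ℝ) ≤ 1 / 2 ^ (2 ^ k) := by positivity
      linarith
    calc 2 * (T : ℝ) * (2 + Real.log T) * (1 / 2 ^ k - 1 / 2 ^ (2 ^ k))
        ≤ 2 * (T : ℝ) * (2 + Real.log T) * (1 / 2 ^ k) :=
          mul_le_mul_of_nonneg_left h4 (by positivity)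
      _ = (T : ℝ) * (2 * (2 + Real.log T) / 2 ^ k) := by ring
  obtain ⟨t, ht, h5⟩ := Finset.exists_le_of_sum_le
    (Finset.nonempty_range_iff.2 (by omega)) h1
  exact ⟨t, Finset.mem_range.1 ht, h5⟩

end Pool.Agent.H335R2.EM
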