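import Pool.Agent.H335R2.EM.Defs

/-! T8 (helper357): the tail. -/

namespace Pool.Agent.H335R2.EM

lemma T8_dA_le (A : Set ℕ) (n : ℕ) : dA A n ≤ n := by
  classical
  unfold dA
  exact (Finset.card_filter_le _ _).trans (Nat.card_divisors_le_self n)

/-- T8. the tail. -/
theorem T8 (A : Set ℕ) (N J : ℕ) :
    Summable (fun j : ℕ => (dA A (N + (J + 1 + j)) : ℝ) / 2 ^ (J + 1 + j)) ∧
    ∑' j : ℕ, (dA A (N + (J + 1 + j)) : ℝ) / 2 ^ (J + 1 + j) ≤ ((N : ℝ) + J + 2) / 2 ^ J := by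
  have h1 : HasSum (fun j : ℕ => ((1 : ℝ) / 2) ^ j) 2 := hasSum_geometric_two
  have h2 : HasSum (fun j : ℕ => (j : ℝ) * (1 / 2) ^ j) ((1 / 2) / (1 - 1 / 2) ^ 2) :=
    hasSum_coe_mul_geometric_of_norm_lt_one (by rw [Real.norm_eq_abs, abs_of_pos] <;> norm_num)
  have h3 : HasSum (fun j : ℕ => ((N : ℝ) + (J + 1 + j)) / 2 ^ (J + 1 + j)) (((N : ℝ) + J + 2) / 2 ^ J) := by
    have h4 := (h1.mul_left (((N : ℝ) + J + 1) / 2 ^ (J + 1))).add (h2.mul_left (1 / 2 ^ (J + 1)))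
    have he : (fun j : ℕ => ((N : ℝ) + (J + 1 + j)) / 2 ^ (J + 1 + j)) =
        fun j : ℕ => ((N : ℝ) + J + 1) / 2 ^ (J + 1) * (1 / 2) ^ j + 1 / 2 ^ (J + 1) * ((j : ℝ) * (1 / 2) ^ j) := by
      funext j
      rw [pow_add (2 : ℝ) (J + 1) j, one_div_pow]
      field_simp
      ring
    have hv : ((N : ℝ) + J + 2) / 2 ^ J =
        ((N : ℝ) + J + 1) / 2 ^ (J + 1) * 2 + 1 / 2 ^ (J + 1) * (1 / 2 / (1 - 1 / 2) ^ 2) := by
      rw [pow_succ]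
      field_simp
      ring
    rw [he, hv]
    exact h4
  have h5 : ∀ j : ℕ, (dA A (N + (J + 1 + j)) : ℝ) / 2 ^ (J + 1 + j) ≤
      ((N : ℝ) + (J + 1 + j)) / 2 ^ (J + 1 + j) := by
    intro j
    have h6 : (dA A (N + (J + 1 + j)) : ℝ) ≤ ((N + (J + 1 + j) : ℕ) : ℝ) := by
      exact_mod_cast T8_dA_le A _
    push_cast at h6
    gcongr
  have hs : Summable (fun j : ℕ => (dA A (N + (J + 1 + j)) : ℝ) / 2 ^ (J + 1 + j)) :=
    Summable.of_nonneg_of_le (fun j => by positivity) h5 h3.summable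
  refine ⟨hs, ?_⟩
  rw [← h3.tsum_eq]
  exact hs.tsum_le_tsum h5 h3.summable

end Pool.Agent.H335R2.EM
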