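import Mathlib
import Pool.Agent.H335R2.EM.Defs
import Pool.Agent.H335R2.EM.T1
import Pool.Agent.H335R2.EM.T6
import Pool.Agent.H335R2.EM.T8
import Pool.Agent.H335R2.EM.G3
import Pool.Agent.H335R2.EM.G4
import Pool.Agent.H335R2.EM.G7

/-! Irrationality of `S A` when exact powers of primes of a rich set force powers of two in `dA A`. -/

namespace Pool.Agent.H335R2.EM

open Finset

theorem G13 (Q A : Set ℕ) (hQ : ∀ q ∈ Q, q.Prime) (δ : ℝ) (hδ : 0 < δ)
    (hsum : ¬ Summable (fun q : Q => ((q.1 : ℝ)) ^ (-δ))) (K h : ℕ) (hh : 0 < h)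
    (hdivs : ∀ (w n : ℕ) (s : Finset ℕ), 0 < n → s.card = K * (w + 1) →
      (∀ q ∈ s, q ∈ Q ∧ q ^ (2 * h - 1) ∣ n ∧ ¬ q ^ (2 * h) ∣ n) → 2 ^ w ∣ dA A n)
    (hne : ∃ a ∈ A, 0 < a) : Irrational (S A) := by
  classical
  intro hrat
  obtain ⟨x, hx⟩ := hrat
  obtain ⟨a, haA, ha⟩ := hne
  have hD : 0 < x.den := x.den_pos
  have hDS : (x.den : ℝ) * S A = (x.num : ℝ) := by
    rw [← hx]
    have h1 : (x.den : ℚ) * x = x.num := by
      rw [mul_comm]; exact Rat.mul_den_eq_num x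
    exact_mod_cast h1
  obtain ⟨D, hDdef⟩ : ∃ D : ℕ, D = x.den := ⟨_, rfl⟩
  rw [← hDdef] at hD hDS
  obtain ⟨c, hc⟩ : ∃ c : ℕ, c = 5 * D := ⟨_, rfl⟩
  have hc3 : 3 ≤ c := by omega
  have hc5 : (5 * D : ℝ) < 2 ^ c := by
    have h1 : c < 2 ^ c := Nat.lt_two_pow_self
    have h2 : 5 * D < 2 ^ c := by omega
    exact_mod_cast h2
  obtain ⟨k0, hk0⟩ := G7 (h * K) c hc3
  obtain ⟨k, hk, F, hF, hFq⟩ := G3 Q δ hδ hsum K k0
  obtain ⟨hck, h7⟩ := hk0 k hk
  obtain ⟨r, hr, h4⟩ := G4 K h k hh F hF (fun q hq => ⟨hQ q (hFq q hq).1, (hFq q hq).2.1⟩)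
  have hMle : (∏ q ∈ F, q) ^ h ≤ 2 ^ ((h * K) * (k + 1) ^ 3) := by
    calc (∏ q ∈ F, q) ^ h ≤ ((2 ^ (k + 1)) ^ F.card) ^ h :=
          Nat.pow_le_pow_left (Finset.prod_le_pow_card _ _ _ (fun q hq => (hFq q hq).2.2)) h
      _ = 2 ^ ((k + 1) * (k * (K * (k + 1))) * h) := by
          rw [hF, ← pow_mul, ← pow_mul]; congr 1; ring
      _ ≤ 2 ^ ((h * K) * (k + 1) ^ 3) := by
          apply Nat.pow_le_pow_right (by norm_num)
          calc (k + 1) * (k * (K * (k + 1))) * h = (h * K) * ((k + 1) * k * (k + 1)) := by ring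
            _ ≤ (h * K) * ((k + 1) * (k + 1) * (k + 1)) := by gcongr; omega
            _ = (h * K) * (k + 1) ^ 3 := by ring
  have hMpos : 0 < (∏ q ∈ F, q) ^ h :=
    pow_pos (Finset.prod_pos (fun q hq => (hQ q (hFq q hq).1).pos)) h
  generalize hM : (∏ q ∈ F, q) ^ h = M at hr h4 hMle hMpos
  obtain ⟨h7a, h7b, h7c⟩ := h7 M r hMle hr
  generalize hT : 2 ^ (2 ^ (k - c)) = T at h7a h7b h7c
  have hT1 : 1 ≤ T := by rw [← hT]; exact Nat.one_le_two_pow
  obtain ⟨t, htT, h6⟩ := T6 M r k T hMpos hT1 (fun j h1 h2 t => (h4 t).2 j h1 h2) h7a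
  obtain ⟨h4a, -⟩ := h4 t
  have hNT : r + M ^ 2 * t ≤ T ^ 2 := by
    have h1 : M ^ 2 * t ≤ M ^ 2 * T := Nat.mul_le_mul_left _ htT.le
    calc r + M ^ 2 * t ≤ r + M ^ 2 * T := by omega
      _ ≤ r + M ^ 2 * T + 2 ^ k := Nat.le_add_right _ _
      _ ≤ T ^ 2 := h7a
  generalize hN : r + M ^ 2 * t = N at h6 h4a hNT
  -- divisibility
  have hdiv : ∀ j, 1 ≤ j → j ≤ k → 2 ^ k ∣ dA A (N + j) := by
    intro j hj1 hjk
    obtain ⟨s, hsF, hsc, hs⟩ := h4a j hj1 hjk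
    exact hdivs k (N + j) s (by omega) hsc
      (fun q hq => ⟨(hFq q (hsF hq)).1, (hs q hq).1, (hs q hq).2⟩)
  -- the series
  have hS := T1 A
  have hsumf : Summable (fun n : ℕ => (dA A n : ℝ) / 2 ^ n) := hS.summable
  have hsplit := hsumf.sum_add_tsum_nat_add (N + k + 1)
  rw [hS.tsum_eq] at hsplit
  -- the integral part
  have hint : ∃ K : ℕ, (2 : ℝ) ^ N * ∑ i ∈ range (N + k + 1), (dA A i : ℝ) / 2 ^ i = K := by
    have h1 : ∀ i ∈ range (N + k + 1), ∃ z : ℕ, (2 : ℝ) ^ N * ((dA A i : ℝ) / 2 ^ i) = z := by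
      intro i hi
      rw [mem_range] at hi
      by_cases hiN : i ≤ N
      · refine ⟨2 ^ (N - i) * dA A i, ?_⟩
        have : (2 : ℝ) ^ N = 2 ^ (N - i) * 2 ^ i := by rw [← pow_add]; congr 1; omega
        rw [this]; push_cast; field_simp
      · obtain ⟨j, rfl⟩ : ∃ j, i = N + j := ⟨i - N, by omega⟩
        obtain ⟨w, hw⟩ := hdiv j (by omega) (by omega)
        refine ⟨2 ^ (k - j) * w, ?_⟩
        rw [hw]
        have : (2 : ℝ) ^ k = 2 ^ (k - j) * 2 ^ j := by rw [← pow_add]; congr 1; omega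
        push_cast
        rw [this, pow_add]; field_simp
    choose! z hz using h1
    refine ⟨∑ i ∈ range (N + k + 1), z i, ?_⟩
    rw [Finset.mul_sum, Finset.sum_congr rfl hz]; push_cast; rfl
  obtain ⟨K, hK⟩ := hint
  -- the remainder
  have hg : Summable (fun i : ℕ => (dA A (i + (N + k + 1)) : ℝ) / 2 ^ (i + (N + k + 1))) :=
    (summable_nat_add_iff (f := fun n : ℕ => (dA A n : ℝ) / 2 ^ n) (N + k + 1)).2 hsumf
  have hRpos : 0 < ∑' i : ℕ, (dA A (i + (N + k + 1)) : ℝ) / 2 ^ (i + (N + k + 1)) := by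
    -- a multiple of `a`
    obtain ⟨i, hi⟩ : ∃ i, a ∣ i + (N + k + 1) := by
      refine ⟨a * (N + k + 1) - (N + k + 1), ?_⟩
      have : (N + k + 1) ≤ a * (N + k + 1) := Nat.le_mul_of_pos_left _ ha
      rw [Nat.sub_add_cancel this]
      exact dvd_mul_right _ _
    refine hg.tsum_pos (fun i => by positivity) i ?_
    have : 0 < dA A (i + (N + k + 1)) := by
      unfold dA
      refine Finset.card_pos.2 ⟨a, ?_⟩
      rw [mem_filter, Nat.mem_divisors]
      exact ⟨⟨hi, by omega⟩, haA⟩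
    positivity
  have hle : ∀ n, dA A n ≤ n.divisors.card := fun n => by
    unfold dA
    exact Finset.card_filter_le _ _
  have hRle : (2 : ℝ) ^ N * ∑' i : ℕ, (dA A (i + (N + k + 1)) : ℝ) / 2 ^ (i + (N + k + 1)) ≤
      5 / 2 ^ c := by
    have hk2k : k < 2 ^ k := Nat.lt_two_pow_self
    have h1 := hg.sum_add_tsum_nat_add (2 ^ k - k)
    rw [← h1, mul_add]
    have h2 : (2 : ℝ) ^ N * ∑ i ∈ range (2 ^ k - k),
        (dA A (i + (N + k + 1)) : ℝ) / 2 ^ (i + (N + k + 1)) ≤ 2 * (2 + Real.log T) / 2 ^ k := by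
      refine le_trans ?_ h6
      rw [Finset.mul_sum]
      have h3 : Ioc k (2 ^ k) = (range (2 ^ k - k)).image (fun i => i + (k + 1)) := by
        ext j
        simp only [mem_Ioc, mem_image, mem_range]
        constructor
        · rintro ⟨h1, h2⟩
          exact ⟨j - (k + 1), by omega, by omega⟩
        · rintro ⟨i, h1, rfl⟩
          omega
      rw [h3, Finset.sum_image (by intro x _ y _ h; simpa using h)]
      apply Finset.sum_le_sum
      intro i _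
      have h5 : N + (i + (k + 1)) = i + (N + k + 1) := by omega
      rw [h5]
      have h6' : (2 : ℝ) ^ (i + (N + k + 1)) = 2 ^ N * 2 ^ (i + (k + 1)) := by
        rw [← pow_add]; congr 1; omega
      rw [h6']
      have h7' : (2 : ℝ) ^ N * ((dA A (i + (N + k + 1)) : ℝ) / (2 ^ N * 2 ^ (i + (k + 1)))) =
          (dA A (i + (N + k + 1)) : ℝ) / 2 ^ (i + (k + 1)) := by
        field_simp
      rw [h7']
      gcongr
      exact hle _
    have h3 : (2 : ℝ) ^ N * ∑' i : ℕ,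
        (dA A (i + (2 ^ k - k) + (N + k + 1)) : ℝ) / 2 ^ (i + (2 ^ k - k) + (N + k + 1)) ≤
        ((N : ℝ) + (2 ^ k : ℕ) + 2) / 2 ^ (2 ^ k) := by
      refine le_trans (le_of_eq ?_) (T8 A N (2 ^ k)).2
      rw [← tsum_mul_left]
      apply tsum_congr
      intro i
      have h5 : i + (2 ^ k - k) + (N + k + 1) = N + (2 ^ k + 1 + i) := by omega
      rw [h5, pow_add 2 N (2 ^ k + 1 + i)]
      field_simp
    have h4 : ((N : ℝ) + (2 ^ k : ℕ) + 2) / 2 ^ (2 ^ k) ≤ 1 / 2 ^ c := by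
      refine le_trans ?_ h7c
      gcongr
      · exact_mod_cast hNT
      · push_cast; exact le_rfl
    have h5 : (5 : ℝ) / 2 ^ c = 4 / 2 ^ c + 1 / 2 ^ c := by ring
    rw [h5]
    exact add_le_add (le_trans h2 h7b) (le_trans h3 h4)
  -- contradiction
  set R : ℝ := (2 : ℝ) ^ N * ∑' i : ℕ, (dA A (i + (N + k + 1)) : ℝ) / 2 ^ (i + (N + k + 1)) with hR
  have hR0 : 0 < R := by positivity
  have hfin : (D : ℝ) * R = ((2 ^ N * x.num - D * K : ℤ) : ℝ) := by
    have h1 : (2 : ℝ) ^ N * S A = K + R := by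
      rw [← hsplit, mul_add, hK]
    push_cast
    rw [← hDS]
    linear_combination (D : ℝ) * h1.symm
  have hDpos : (0 : ℝ) < D := by exact_mod_cast hD
  have h0 : (0 : ℝ) < (D : ℝ) * R := by positivity
  have h1 : (D : ℝ) * R < 1 := by
    calc (D : ℝ) * R ≤ D * (5 / 2 ^ c) := by gcongr
      _ = (5 * D) / 2 ^ c := by ring
      _ < 1 := by rw [div_lt_one (by positivity)]; exact hc5
  rw [hfin] at h0 h1
  have h0' : (0 : ℤ) < 2 ^ N * x.num - D * K := by exact_mod_cast h0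
  have h1' : (2 ^ N * x.num - D * K : ℤ) < 1 := by exact_mod_cast h1
  omega

end Pool.Agent.H335R2.EM
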