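import Mathlib
import Pool.Agent.H335R2.EM.Defs

/-! Task G2a: divisibility of the restricted divisor function by powers of two. -/

namespace Pool.Agent.H335R2.EM

open Finset

lemma G2a_inj (q : ℕ) (hq : q.Prime) (i j a b : ℕ) (ha : ¬ q ∣ a) (hb : ¬ q ∣ b)
    (h : q ^ i * a = q ^ j * b) : i = j ∧ a = b := by
  have aux : ∀ i j a b : ℕ, ¬ q ∣ a → q ^ i * a = q ^ j * b → ¬ i < j := by
    intro i j a b ha h hij
    obtain ⟨c, rfl⟩ := Nat.exists_eq_add_of_lt hij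
    have e : q ^ (i + c + 1) * b = q ^ i * (q ^ (c + 1) * b) := by rw [add_assoc, pow_add]; ring
    rw [e] at h
    have h2 := Nat.eq_of_mul_eq_mul_left (pow_pos hq.pos i) h
    exact ha ⟨q ^ c * b, by rw [h2, pow_succ]; ring⟩
  have hij : i = j := by
    rcases lt_trichotomy i j with h3 | h3 | h3
    · exact absurd h3 (aux i j a b ha h)
    · exact h3
    · exact absurd h3 (aux j i b a hb h.symm)
  subst hij
  exact ⟨rfl, Nat.eq_of_mul_eq_mul_left (pow_pos hq.pos i) h⟩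

lemma G2a_split (u : ℕ → ℤ) (q k m : ℕ) (hq : q.Prime) (hm : 0 < m) (h : ¬ q ∣ m) :
    ∑ a ∈ (q ^ k * m).divisors, u a = ∑ a ∈ m.divisors, ∑ i ∈ range (k + 1), u (q ^ i * a) := by
  have hE : (q ^ k * m).divisors =
      (m.divisors ×ˢ range (k + 1)).image (fun x : ℕ × ℕ => q ^ x.2 * x.1) := by
    ext a
    simp only [Nat.mem_divisors, mem_image, mem_product, mem_range, Prod.exists]
    constructor
    · rintro ⟨h1, -⟩
      obtain ⟨k1, k2, h2, h3, rfl⟩ := (Nat.dvd_mul).1 h1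
      obtain ⟨i, hi, rfl⟩ := (Nat.dvd_prime_pow hq).1 h2
      exact ⟨k2, i, ⟨⟨h3, hm.ne'⟩, by omega⟩, rfl⟩
    · rintro ⟨b, i, ⟨⟨h1, -⟩, h2⟩, rfl⟩
      exact ⟨mul_dvd_mul (pow_dvd_pow q (by omega)) h1,
        (Nat.mul_pos (pow_pos hq.pos k) hm).ne'⟩
  rw [hE, sum_image, sum_product]
  rintro ⟨a, i⟩ ha ⟨b, j⟩ hb hab
  simp only [coe_product, Set.mem_prod, mem_coe, Nat.mem_divisors, mem_range] at ha hb
  obtain ⟨h1, h2⟩ := G2a_inj q hq i j a b (fun h' => h (h'.trans ha.1.1))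
    (fun h' => h (h'.trans hb.1.1)) hab
  rw [h1, h2]

lemma G2a_core (Q : Set ℕ) (L : ℕ) (hL : 0 < L) (s : Finset ℕ) : ∀ (u : ℕ → ℤ),
    (∀ q ∈ Q, ∀ q' ∈ Q, ∀ m, 0 < m → u (q * m) = u (q' * m)) →
    (∀ q ∈ Q, ∀ m, 0 < m → u (q ^ L * m) = u m) → ∀ n : ℕ, 0 < n →
    (∀ q ∈ s, q.Prime ∧ q ∈ Q ∧ q ^ (2 * L - 1) ∣ n ∧ ¬ q ^ (2 * L) ∣ n) →
    (2 : ℤ) ^ s.card ∣ ∑ a ∈ n.divisors, u a := by
  classical
  induction s using Finset.induction_on with
  | empty => intro u _ _ n _ _; simp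
  | insert q s hqs ih =>
    intro u hu1 hu2 n hn h1
    obtain ⟨hq, hqQ, ⟨m, rfl⟩, hq2⟩ := h1 q (mem_insert_self q s)
    have hm : 0 < m := Nat.pos_of_ne_zero (by rintro rfl; simp at hn)
    have hqm : ¬ q ∣ m := by
      rintro ⟨c, rfl⟩
      refine hq2 ⟨c, ?_⟩
      have : 2 * L = (2 * L - 1) + 1 := by omega
      rw [this, pow_succ]
      simp only [Nat.add_sub_cancel]
      ring
    rw [G2a_split u q _ m hq hm hqm, card_insert_of_notMem hqs, pow_succ, mul_comm]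
    have e : ∑ a ∈ m.divisors, ∑ i ∈ range (2 * L - 1 + 1), u (q ^ i * a) =
        2 * ∑ a ∈ m.divisors, ∑ i ∈ range L, u (q ^ i * a) := by
      rw [mul_sum]
      refine sum_congr rfl fun a ha => ?_
      have ha0 : 0 < a := Nat.pos_of_mem_divisors ha
      have h2L : 2 * L - 1 + 1 = L + L := by omega
      rw [h2L, sum_range_add, two_mul]
      congr 1
      refine sum_congr rfl fun i _ => ?_
      rw [pow_add, mul_assoc]
      exact hu2 q hqQ _ (Nat.mul_pos (pow_pos hq.pos _) ha0)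
    rw [e]
    apply mul_dvd_mul_left
    refine ih (fun a => ∑ i ∈ range L, u (q ^ i * a)) ?_ ?_ m hm ?_
    · intro q1 hq1 q' hq' x hx
      refine sum_congr rfl fun i _ => ?_
      rw [mul_left_comm, mul_left_comm (q ^ i)]
      exact hu1 q1 hq1 q' hq' _ (Nat.mul_pos (pow_pos hq.pos _) hx)
    · intro q1 hq1 x hx
      refine sum_congr rfl fun i _ => ?_
      rw [mul_left_comm]
      exact hu2 q1 hq1 _ (Nat.mul_pos (pow_pos hq.pos _) hx)
    · intro q' hq'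
      obtain ⟨hp, hQ', hd, hd2⟩ := h1 q' (mem_insert_of_mem hq')
      refine ⟨hp, hQ', ?_, fun h => hd2 (h.mul_left _)⟩
      have hne : q' ≠ q := fun h => hqs (h ▸ hq')
      have hc : Nat.Coprime (q' ^ (2 * L - 1)) (q ^ (2 * L - 1)) :=
        Nat.Coprime.pow _ _ ((Nat.coprime_primes hp hq).2 hne)
      exact hc.dvd_of_dvd_mul_left hd

theorem G2a (Q A : Set ℕ) (L : ℕ) (hL : 0 < L)
    (h1 : ∀ q ∈ Q, ∀ q' ∈ Q, ∀ m, 0 < m → (q * m ∈ A ↔ q' * m ∈ A))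
    (h2 : ∀ q ∈ Q, ∀ m, 0 < m → (q ^ L * m ∈ A ↔ m ∈ A))
    (n : ℕ) (hn : 0 < n) (s : Finset ℕ)
    (hs : ∀ q ∈ s, q.Prime ∧ q ∈ Q ∧ q ^ (2 * L - 1) ∣ n ∧ ¬ q ^ (2 * L) ∣ n) :
    2 ^ s.card ∣ dA A n := by
  classical
  have hD : ((dA A n : ℕ) : ℤ) = ∑ a ∈ n.divisors, (if a ∈ A then (1 : ℤ) else 0) := by
    unfold dA
    rw [card_filter]
    push_cast
    exact sum_congr rfl fun a _ => by congr
  have key := G2a_core Q L hL s (fun a => if a ∈ A then (1 : ℤ) else 0)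
    (fun q hq q' hq' m hm => by simp only [h1 q hq q' hq' m hm])
    (fun q hq m hm => by simp only [h2 q hq m hm]) n hn hs
  rw [← hD] at key
  exact_mod_cast key

end Pool.Agent.H335R2.EM
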