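import Mathlib
import Pool.Agent.H335R2.EM.Defs

/-! Task G2b: divisibility of the restricted divisor function by powers of two, blocks of
`2 ^ b` primes. -/

namespace Pool.Agent.H335R2.EM

open Finset

namespace G2baux

/-- sum of `u` over the divisors of `n` -/
def D (u : ℕ → ℤ) (n : ℕ) : ℤ := ∑ a ∈ n.divisors, u a

lemma G2b_D_prime_mul (u : ℕ → ℤ) (q m : ℕ) (hq : q.Prime) (hm : 0 < m) (h : ¬ q ∣ m) :
    D u (q * m) = ∑ a ∈ m.divisors, (u a + u (q * a)) := by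
  have hE : (q * m).divisors = m.divisors ∪ m.divisors.image (fun a => q * a) := by
    ext a
    simp only [Nat.mem_divisors, mem_union, mem_image]
    constructor
    · rintro ⟨h1, -⟩
      by_cases hqa : q ∣ a
      · obtain ⟨b, rfl⟩ := hqa
        right
        exact ⟨b, ⟨Nat.dvd_of_mul_dvd_mul_left hq.pos h1, hm.ne'⟩, rfl⟩
      · left
        exact ⟨Nat.Coprime.dvd_of_dvd_mul_left ((Nat.Prime.coprime_iff_not_dvd hq).2 hqa).symm h1,
          hm.ne'⟩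
    · rintro (⟨h1, -⟩ | ⟨b, ⟨h1, -⟩, rfl⟩)
      · exact ⟨h1.mul_left q, (Nat.mul_pos hq.pos hm).ne'⟩
      · exact ⟨Nat.mul_dvd_mul_left q h1, (Nat.mul_pos hq.pos hm).ne'⟩
  have hdis : Disjoint m.divisors (m.divisors.image (fun a => q * a)) := by
    rw [Finset.disjoint_left]
    intro a ha hb
    rw [mem_image] at hb
    obtain ⟨b, hb, rfl⟩ := hb
    exact h ((Dvd.intro b rfl).trans (Nat.dvd_of_mem_divisors ha))
  unfold D
  rw [hE, sum_union hdis, sum_image, ← sum_add_distrib]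
  intro a _ b _ hab
  exact Nat.eq_of_mul_eq_mul_left hq.pos hab

lemma G2b_nd (I : Finset ℕ) (hI : ∀ p ∈ I, p.Prime) (q : ℕ) (hq : q.Prime) (hqI : q ∉ I) (a : ℕ)
    (ha : ¬ q ∣ a) : ¬ q ∣ (∏ p ∈ I, p) * a := by
  intro h
  rcases (Nat.Prime.dvd_mul hq).1 h with h | h
  · rw [Prime.dvd_finset_prod_iff hq.prime] at h
    obtain ⟨p, hp, hd⟩ := h
    exact hqI ((Nat.prime_dvd_prime_iff_eq hq (hI p hp)).1 hd ▸ hp)
  · exact ha h

lemma G2b_ndq (p q a : ℕ) (hp : p.Prime) (hq : q.Prime) (hpq : p ≠ q) (ha : ¬ p ∣ a) :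
    ¬ p ∣ q * a := by
  intro h
  rcases (Nat.Prime.dvd_mul hp).1 h with h | h
  · exact hpq ((Nat.prime_dvd_prime_iff_eq hp hq).1 h)
  · exact ha h

lemma G2b_pos (I : Finset ℕ) (hI : ∀ p ∈ I, p.Prime) : 0 < ∏ p ∈ I, p :=
  Finset.prod_pos fun p hp => (hI p hp).pos

lemma G2b_card (u : ℕ → ℤ) (s : Finset ℕ) (hs : ∀ q ∈ s, q.Prime)
    (h1 : ∀ q ∈ s, ∀ q' ∈ s, ∀ m, 0 < m → ¬ q ∣ m → ¬ q' ∣ m → u (q * m) = u (q' * m)) :
    ∀ (k : ℕ) (I J : Finset ℕ), I ⊆ s → J ⊆ s → I.card = k → J.card = k → ∀ a, 0 < a →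
      (∀ q ∈ I, ¬ q ∣ a) → (∀ q ∈ J, ¬ q ∣ a) →
      u ((∏ q ∈ I, q) * a) = u ((∏ q ∈ J, q) * a) := by
  intro k
  induction k with
  | zero =>
    intro I J _ _ hI hJ a _ _ _
    rw [card_eq_zero.1 hI, card_eq_zero.1 hJ]
  | succ k ih =>
    intro I J hIs hJs hI hJ a ha hIa hJa
    obtain ⟨q, hq⟩ : I.Nonempty := card_pos.1 (by omega)
    have hqp := hs q (hIs hq)
    have hqa := hIa q hq
    obtain ⟨q', hq', hcase⟩ : ∃ q' ∈ J, q' = q ∨ q ∉ J := by
      by_cases h : q ∈ J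
      · exact ⟨q, h, Or.inl rfl⟩
      · obtain ⟨q', hq'⟩ : J.Nonempty := card_pos.1 (by omega)
        exact ⟨q', hq', Or.inr h⟩
    have hqp' := hs q' (hJs hq')
    have e1 : (∏ p ∈ I, p) * a = (∏ p ∈ I.erase q, p) * (q * a) := by
      rw [← Finset.mul_prod_erase I _ hq]
      ring
    have e2 : (∏ p ∈ J, p) * a = q' * ((∏ p ∈ J.erase q', p) * a) := by
      rw [← Finset.mul_prod_erase J _ hq']
      ring
    have hqJ : q ∉ J.erase q' := by
      rcases hcase with rfl | h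
      · exact notMem_erase _ _
      · exact fun h' => h (mem_of_mem_erase h')
    have ndI : ∀ p ∈ I.erase q, ¬ p ∣ q * a := fun p hp =>
      G2b_ndq p q a (hs p (hIs (mem_of_mem_erase hp))) hqp (ne_of_mem_erase hp)
        (hIa p (mem_of_mem_erase hp))
    have ndJ : ∀ p ∈ J.erase q', ¬ p ∣ q * a := fun p hp =>
      G2b_ndq p q a (hs p (hJs (mem_of_mem_erase hp))) hqp (fun h => hqJ (h ▸ hp))
        (hJa p (mem_of_mem_erase hp))
    rw [e1, ih (I.erase q) (J.erase q') ((erase_subset _ _).trans hIs)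
      ((erase_subset _ _).trans hJs) (by rw [card_erase_of_mem hq]; omega)
      (by rw [card_erase_of_mem hq']; omega) (q * a) (Nat.mul_pos hqp.pos ha) ndI ndJ, e2]
    have e3 : (∏ p ∈ J.erase q', p) * (q * a) = q * ((∏ p ∈ J.erase q', p) * a) := by ring
    rw [e3]
    have hJp : ∀ p ∈ J.erase q', p.Prime := fun p hp => hs p (hJs (mem_of_mem_erase hp))
    exact h1 q (hIs hq) q' (hJs hq') _ (Nat.mul_pos (G2b_pos _ hJp) ha)
      (G2b_nd _ hJp q hqp hqJ a hqa) (G2b_nd _ hJp q' hqp' (notMem_erase _ _) a (hJa q' hq'))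

lemma G2b_pow (t : Finset ℕ) : (∀ q ∈ t, q.Prime) → ∀ (u : ℕ → ℤ) (n' : ℕ), 0 < n' →
    (∀ q ∈ t, ¬ q ∣ n') →
    D u ((∏ q ∈ t, q) * n') = ∑ I ∈ t.powerset, D (fun a => u ((∏ q ∈ I, q) * a)) n' := by
  induction t using Finset.induction_on with
  | empty =>
    intro _ u n' _ _
    simp
  | insert q t hqt ih =>
    intro ht u n' hn' h
    have htp : ∀ p ∈ t, p.Prime := fun p hp => ht p (mem_insert_of_mem hp)
    have hqp := ht q (mem_insert_self q t)
    rw [prod_insert hqt, mul_assoc, G2b_D_prime_mul u q _ hqp (Nat.mul_pos (G2b_pos t htp) hn')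
      (G2b_nd t htp q hqp hqt n' (h q (mem_insert_self q t))), sum_add_distrib]
    have e1 := ih htp u n' hn' (fun p hp => h p (mem_insert_of_mem hp))
    have e2 := ih htp (fun a => u (q * a)) n' hn' (fun p hp => h p (mem_insert_of_mem hp))
    have e3 : ∑ a ∈ ((∏ q ∈ t, q) * n').divisors, u a = D u ((∏ q ∈ t, q) * n') := rfl
    have e4 : ∑ a ∈ ((∏ q ∈ t, q) * n').divisors, u (q * a) =
      D (fun a => u (q * a)) ((∏ q ∈ t, q) * n') := rfl
    rw [e3, e4, e1, e2, sum_powerset_insert hqt]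
    congr 1
    apply sum_congr rfl
    intro I hI
    have hqI : q ∉ I := fun h => hqt (mem_powerset.1 hI h)
    unfold D
    apply sum_congr rfl
    intro a _
    show u (q * ((∏ p ∈ I, p) * a)) = u ((∏ p ∈ insert q I, p) * a)
    rw [prod_insert hqI, mul_assoc]

lemma G2b_main (b : ℕ) : ∀ (w : ℕ) (u : ℕ → ℤ) (s : Finset ℕ) (n : ℕ), 0 < n →
    (∀ q ∈ s, q.Prime ∧ q ∣ n ∧ ¬ q ^ 2 ∣ n) → 2 ^ b * w ≤ s.card →
    (∀ q ∈ s, ∀ q' ∈ s, ∀ m, 0 < m → ¬ q ∣ m → ¬ q' ∣ m → u (q * m) = u (q' * m)) →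
    (∀ t ⊆ s, t.card = 2 ^ b → ∀ m, 0 < m → (∀ q ∈ t, ¬ q ∣ m) →
      u ((∏ q ∈ t, q) * m) = u m) →
    (2 : ℤ) ^ w ∣ D u n := by
  intro w
  induction w with
  | zero =>
    intro u s n _ _ _ _ _
    simp
  | succ w ih =>
    intro u s n hn hs hc h1 h2
    have hsp : ∀ q ∈ s, q.Prime := fun q hq => (hs q hq).1
    have hLs : 2 ^ b ≤ s.card := le_trans (Nat.le_mul_of_pos_right _ (Nat.succ_pos w)) hc
    obtain ⟨t, hts, htc⟩ := Finset.exists_subset_card_eq hLs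
    have htp : ∀ q ∈ t, q.Prime := fun q hq => hsp q (hts hq)
    have hdvd : (∏ q ∈ t, q) ∣ n := Finset.prod_primes_dvd n
      (fun q hq => (htp q hq).prime) (fun q hq => (hs q (hts hq)).2.1)
    obtain ⟨n', rfl⟩ := hdvd
    have hn' : 0 < n' := Nat.pos_of_ne_zero (by rintro rfl; simp at hn)
    have hnd : ∀ q ∈ t, ¬ q ∣ n' := by
      rintro q hq ⟨c, rfl⟩
      apply (hs q (hts hq)).2.2
      rw [← Finset.mul_prod_erase t _ hq]
      exact ⟨(∏ p ∈ t.erase q, p) * c, by ring⟩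
    have hIex : ∀ j, ∃ I : Finset ℕ, j ≤ 2 ^ b → (I ⊆ t ∧ I.card = j) := by
      intro j
      by_cases hj : j ≤ 2 ^ b
      · obtain ⟨I, h, h'⟩ := Finset.exists_subset_card_eq (s := t) (n := j) (by omega)
        exact ⟨I, fun _ => ⟨h, h'⟩⟩
      · exact ⟨∅, fun h => absurd h hj⟩
    choose I hI using hIex
    let c : ℕ → ℤ := fun j => (((2 ^ b).choose j / 2 : ℕ) : ℤ)
    let W : ℕ → ℤ := fun a => u a + ∑ j ∈ Ico 1 (2 ^ b), c j * u ((∏ q ∈ I j, q) * a)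
    have hIp : ∀ j ∈ Ico 1 (2 ^ b), ∀ p ∈ I j, p.Prime := fun j hj p hp =>
      htp p ((hI j (mem_Ico.1 hj).2.le).1 hp)
    have hLpos : 0 < 2 ^ b := by positivity
    have hsum : D u ((∏ q ∈ t, q) * n') = 2 * D W n' := by
      rw [G2b_pow t htp u n' hn' hnd]
      unfold D
      rw [sum_comm, mul_sum]
      apply sum_congr rfl
      intro a ha
      have han := Nat.dvd_of_mem_divisors ha
      have hapos : 0 < a := Nat.pos_of_dvd_of_pos han hn'
      have hta : ∀ q ∈ t, ¬ q ∣ a := fun q hq h => hnd q hq (h.trans han)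
      have e1 : ∑ J ∈ t.powerset, u ((∏ q ∈ J, q) * a) =
          ∑ J ∈ t.powerset, (fun j => u ((∏ q ∈ I j, q) * a)) J.card := by
        apply sum_congr rfl
        intro J hJ
        have hJt := mem_powerset.1 hJ
        have hJc : J.card ≤ 2 ^ b := htc ▸ card_le_card hJt
        obtain ⟨h3, h4⟩ := hI J.card hJc
        exact G2b_card u s hsp h1 J.card J (I J.card) (hJt.trans hts) (h3.trans hts) rfl h4 a
          hapos (fun q hq => hta q (hJt hq)) (fun q hq => hta q (h3 hq))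
      rw [e1, sum_powerset_apply_card (fun j => u ((∏ q ∈ I j, q) * a)), htc, sum_range_succ,
        range_eq_Ico, sum_eq_sum_Ico_succ_bot hLpos]
      have e2 : I 0 = ∅ := card_eq_zero.1 (hI 0 hLpos.le).2
      have e3 : u ((∏ q ∈ I (2 ^ b), q) * a) = u a :=
        h2 (I (2 ^ b)) ((hI _ le_rfl).1.trans hts) (hI _ le_rfl).2 a hapos
          (fun q hq => hta q ((hI _ le_rfl).1 hq))
      have e4 : ∑ j ∈ Ico (0 + 1) (2 ^ b), (2 ^ b).choose j • u ((∏ q ∈ I j, q) * a) =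
          2 * ∑ j ∈ Ico 1 (2 ^ b), c j * u ((∏ q ∈ I j, q) * a) := by
        rw [mul_sum]
        apply sum_congr rfl
        intro j hj
        have hj' := mem_Ico.1 hj
        have h5 : 2 ∣ (2 ^ b).choose j :=
          Nat.prime_two.dvd_choose_pow (by omega) (by omega)
        have h6 : ((2 ^ b).choose j : ℤ) = 2 * c j := by
          show ((2 ^ b).choose j : ℤ) = 2 * (((2 ^ b).choose j / 2 : ℕ) : ℤ)
          have := Nat.mul_div_cancel' h5
          exact_mod_cast this.symm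
        rw [nsmul_eq_mul, h6]
        ring
      rw [e2, e3, e4, Nat.choose_zero_right, Nat.choose_self]
      simp only [prod_empty, one_mul, one_smul, W]
      ring
    rw [hsum, pow_succ, mul_comm]
    apply mul_dvd_mul_left
    apply ih W (s \ t) n' hn'
    · intro q hq
      obtain ⟨hqs, hqt⟩ := mem_sdiff.1 hq
      obtain ⟨hp, hd, hd2⟩ := hs q hqs
      refine ⟨hp, ?_, fun h => hd2 (h.mul_left _)⟩
      by_contra h
      exact G2b_nd t htp q hp hqt n' h hd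
    · have h3 := Finset.card_sdiff_add_card_eq_card hts
      rw [htc] at h3
      have h4 : 2 ^ b * (w + 1) = 2 ^ b * w + 2 ^ b := by ring
      omega
    · intro q hq q' hq' m hm hqm hqm'
      obtain ⟨hqs, hqt⟩ := mem_sdiff.1 hq
      obtain ⟨hqs', hqt'⟩ := mem_sdiff.1 hq'
      show u (q * m) + ∑ j ∈ Ico 1 (2 ^ b), c j * u ((∏ q ∈ I j, q) * (q * m)) =
        u (q' * m) + ∑ j ∈ Ico 1 (2 ^ b), c j * u ((∏ q ∈ I j, q) * (q' * m))
      rw [h1 q hqs q' hqs' m hm hqm hqm']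
      congr 1
      apply sum_congr rfl
      intro j hj
      have hIt := (hI j (mem_Ico.1 hj).2.le).1
      have e1 : (∏ q ∈ I j, q) * (q * m) = q * ((∏ q ∈ I j, q) * m) := by ring
      have e2 : (∏ q ∈ I j, q) * (q' * m) = q' * ((∏ q ∈ I j, q) * m) := by ring
      rw [e1, e2, h1 q hqs q' hqs' _ (Nat.mul_pos (G2b_pos _ (hIp j hj)) hm)
        (G2b_nd _ (hIp j hj) q (hsp q hqs) (fun h => hqt (hIt h)) m hqm)
        (G2b_nd _ (hIp j hj) q' (hsp q' hqs') (fun h => hqt' (hIt h)) m hqm')]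
    · intro t' ht' htc' m hm hm'
      have hts' : t' ⊆ s := ht'.trans sdiff_subset
      show u ((∏ q ∈ t', q) * m) + ∑ j ∈ Ico 1 (2 ^ b), c j * u ((∏ q ∈ I j, q) *
        ((∏ q ∈ t', q) * m)) = u m + ∑ j ∈ Ico 1 (2 ^ b), c j * u ((∏ q ∈ I j, q) * m)
      rw [h2 t' hts' htc' m hm hm']
      congr 1
      apply sum_congr rfl
      intro j hj
      have hIt := (hI j (mem_Ico.1 hj).2.le).1
      have e1 : (∏ q ∈ I j, q) * ((∏ q ∈ t', q) * m) = (∏ q ∈ t', q) * ((∏ q ∈ I j, q) * m) := by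
        ring
      rw [e1, h2 t' hts' htc' _ (Nat.mul_pos (G2b_pos _ (hIp j hj)) hm)]
      intro q hq
      exact G2b_nd _ (hIp j hj) q (hsp q (hts' hq))
        (fun h => (mem_sdiff.1 (ht' hq)).2 (hIt h)) m (hm' q hq)

end G2baux

open G2baux

/-- G2b. divisibility by powers of two. -/
theorem G2b (Q A : Set ℕ) (b : ℕ) (hQ : ∀ q ∈ Q, q.Prime)
    (h1 : ∀ q ∈ Q, ∀ q' ∈ Q, ∀ m, 0 < m → ¬ q ∣ m → ¬ q' ∣ m → (q * m ∈ A ↔ q' * m ∈ A))
    (h2 : ∀ s : Finset ℕ, (∀ q ∈ s, q ∈ Q) → s.card = 2 ^ b → ∀ m, 0 < m → (∀ q ∈ s, ¬ q ∣ m) →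
      ((∏ q ∈ s, q) * m ∈ A ↔ m ∈ A))
    (w n : ℕ) (hn : 0 < n) (s : Finset ℕ) (hc : 2 ^ b * w ≤ s.card)
    (hs : ∀ q ∈ s, q ∈ Q ∧ q ∣ n ∧ ¬ q ^ 2 ∣ n) :
    2 ^ w ∣ dA A n := by
  classical
  set u : ℕ → ℤ := fun a => if a ∈ A then 1 else 0 with hu
  have hD : ((dA A n : ℕ) : ℤ) = D u n := by
    unfold dA D
    rw [card_filter]
    push_cast
    exact sum_congr rfl fun a _ => by simp only [hu]
  have key := G2b_main b w u s n hn (fun q hq => ⟨hQ q (hs q hq).1, (hs q hq).2⟩) hc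
    (fun q hq q' hq' m hm hqm hqm' => by
      simp only [hu, h1 q (hs q hq).1 q' (hs q' hq').1 m hm hqm hqm'])
    (fun t ht htc m hm hm' => by
      simp only [hu, h2 t (fun q hq => (hs q (ht hq)).1) htc m hm hm'])
  rw [← hD] at key
  exact_mod_cast key

end Pool.Agent.H335R2.EM
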