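import Mathlib
import Pool.Agent.H335R2.EM.Defs

set_option autoImplicit false

open Finset

namespace Pool.Agent.H335R2.EM

theorem G2c_avoid (Q : Set ℕ) (hinf : Q.Infinite) (N : ℕ) (hN : 0 < N) :
    {q | q ∈ Q ∧ ¬ q ∣ N}.Infinite := by
  have hfin : {q : ℕ | q ∣ N}.Finite :=
    (Set.finite_Iic N).subset (fun q hq => Nat.le_of_dvd hN hq)
  refine (hinf.sdiff hfin).mono ?_
  rintro q ⟨h1, h2⟩
  exact ⟨h1, h2⟩

theorem G2c_half (Q A : Set ℕ) (b : ℕ) (hQ : ∀ q ∈ Q, q.Prime) (hinf : Q.Infinite)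
    (h2 : ∀ s : Finset ℕ, (∀ q ∈ s, q ∈ Q) → s.card = 2 ^ b → ∀ m, 0 < m → (∀ q ∈ s, ¬ q ∣ m) →
      ((∏ q ∈ s, q) * m ∈ A ↔ m ∈ A)) (q : ℕ) (hq : q ∈ Q) (p : ℕ) (hp : p ∈ Q) (m : ℕ)
    (hm : 0 < m) (hqm : ¬ q ∣ m) (hpqm : ¬ p ∣ q * m) : q * m ∈ A ↔ p * m ∈ A := by
  have hqp := hQ q hq
  have hpp := hQ p hp
  have hq0 := hqp.pos
  have hp0 := hpp.pos
  have hpq : p ≠ q := by
    rintro rfl
    exact hpqm (dvd_mul_right _ _)
  have hqp' : ¬ q ∣ p := by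
    intro h
    exact hpq ((Nat.prime_dvd_prime_iff_eq hqp hpp).mp h).symm
  have hN : 0 < q * p * m := Nat.mul_pos (Nat.mul_pos hq0 hp0) hm
  obtain ⟨t, htsub, htcard⟩ :=
    (G2c_avoid Q hinf (q * p * m) hN).exists_subset_card_eq (2 ^ b - 1)
  have ht : ∀ r ∈ t, r ∈ Q ∧ ¬ r ∣ q * p * m := fun r hr => htsub (Finset.mem_coe.mpr hr)
  have hpt : p ∉ t := fun h => (ht p h).2 ⟨q * m, by ring⟩
  have hqt : q ∉ t := fun h => (ht q h).2 ⟨p * m, by ring⟩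
  have hL : 1 ≤ 2 ^ b := Nat.one_le_two_pow
  have e1 := h2 (insert p t)
    (by
      intro r hr
      rcases Finset.mem_insert.mp hr with h | h
      · rw [h]; exact hp
      · exact (ht r h).1)
    (by rw [Finset.card_insert_of_notMem hpt, htcard]; omega)
    (q * m) (Nat.mul_pos hq0 hm)
    (by
      intro r hr
      rcases Finset.mem_insert.mp hr with h | h
      · rw [h]; exact hpqm
      · intro h'
        exact (ht r h).2 (h'.trans ⟨p, by ring⟩))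
  have e2 := h2 (insert q t)
    (by
      intro r hr
      rcases Finset.mem_insert.mp hr with h | h
      · rw [h]; exact hq
      · exact (ht r h).1)
    (by rw [Finset.card_insert_of_notMem hqt, htcard]; omega)
    (p * m) (Nat.mul_pos hp0 hm)
    (by
      intro r hr
      rcases Finset.mem_insert.mp hr with h | h
      · rw [h]
        intro h'
        rcases (Nat.Prime.dvd_mul hqp).mp h' with h'' | h''
        · exact hqp' h''
        · exact hqm h''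
      · intro h'
        exact (ht r h).2 (h'.trans ⟨q, by ring⟩))
  rw [Finset.prod_insert hpt] at e1
  rw [Finset.prod_insert hqt] at e2
  have e3 : p * (∏ x ∈ t, x) * (q * m) = q * (∏ x ∈ t, x) * (p * m) := by ring
  rw [e3] at e1
  exact e1.symm.trans e2

theorem G2c (Q A : Set ℕ) (b : ℕ) (hQ : ∀ q ∈ Q, q.Prime) (hinf : Q.Infinite)
    (h2 : ∀ s : Finset ℕ, (∀ q ∈ s, q ∈ Q) → s.card = 2 ^ b → ∀ m, 0 < m → (∀ q ∈ s, ¬ q ∣ m) →
      ((∏ q ∈ s, q) * m ∈ A ↔ m ∈ A)) :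
    ∀ q ∈ Q, ∀ q' ∈ Q, ∀ m, 0 < m → ¬ q ∣ m → ¬ q' ∣ m → (q * m ∈ A ↔ q' * m ∈ A) := by
  intro q hq q' hq' m hm hqm hqm'
  have hN : 0 < q * q' * m := Nat.mul_pos (Nat.mul_pos (hQ q hq).pos (hQ q' hq').pos) hm
  obtain ⟨p, hp, hpN⟩ := (G2c_avoid Q hinf (q * q' * m) hN).nonempty
  have a1 := G2c_half Q A b hQ hinf h2 q hq p hp m hm hqm
    (fun h => hpN (h.trans ⟨q', by ring⟩))
  have a2 := G2c_half Q A b hQ hinf h2 q' hq' p hp m hm hqm'
    (fun h => hpN (h.trans ⟨q, by ring⟩))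
  exact a1.trans a2.symm

end Pool.Agent.H335R2.EM
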