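import Mathlib
import Pool.Agent.H335R2.EM.Defs

/-! Task T11 of the project reciprocal Mersenne subseries: examples. -/

namespace Pool.Agent.H335R2.EM

namespace T11aux

theorem cop {q q' m : ℕ} (hq : q.Prime) (hq' : q'.Prime) (h1 : ¬ q ∣ m) (h2 : ¬ q' ∣ m) :
    Nat.Coprime (q * q') m :=
  Nat.Coprime.mul_left ((Nat.Prime.coprime_iff_not_dvd hq).2 h1)
    ((Nat.Prime.coprime_iff_not_dvd hq').2 h2)

theorem sqf {q q' m : ℕ} (hq : q.Prime) (hq' : q'.Prime) (hne : q ≠ q') (h1 : ¬ q ∣ m) (h2 : ¬ q' ∣ m) :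
    Squarefree (q * q' * m) ↔ Squarefree m := by
  have h3 : Nat.Coprime q q' := (Nat.coprime_primes hq hq').2 hne
  rw [Nat.squarefree_mul (cop hq hq' h1 h2), Nat.squarefree_mul h3]
  constructor
  · exact fun h => h.2
  · exact fun h => ⟨⟨hq.prime.squarefree, hq'.prime.squarefree⟩, h⟩

theorem moe {q q' m : ℕ} (hq : q.Prime) (hq' : q'.Prime) (hne : q ≠ q') (h1 : ¬ q ∣ m) (h2 : ¬ q' ∣ m) :
    ArithmeticFunction.moebius (q * q' * m) = ArithmeticFunction.moebius m := by
  have h3 : Nat.Coprime q q' := (Nat.coprime_primes hq hq').2 hne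
  rw [ArithmeticFunction.isMultiplicative_moebius.map_mul_of_coprime (cop hq hq' h1 h2),
    ArithmeticFunction.isMultiplicative_moebius.map_mul_of_coprime h3,
    ArithmeticFunction.moebius_apply_prime hq, ArithmeticFunction.moebius_apply_prime hq']
  ring

theorem Om {q q' m : ℕ} (hq : q.Prime) (hq' : q'.Prime) (hm : 0 < m) :
    ArithmeticFunction.cardFactors (q * q' * m) = ArithmeticFunction.cardFactors m + 2 := by
  rw [ArithmeticFunction.cardFactors_mul (Nat.mul_ne_zero hq.ne_zero hq'.ne_zero) hm.ne',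
    ArithmeticFunction.cardFactors_mul hq.ne_zero hq'.ne_zero,
    ArithmeticFunction.cardFactors_apply_prime hq, ArithmeticFunction.cardFactors_apply_prime hq']
  ring

theorem om {q q' m : ℕ} (hq : q.Prime) (hq' : q'.Prime) (hne : q ≠ q') (h1 : ¬ q ∣ m) (h2 : ¬ q' ∣ m) :
    ArithmeticFunction.cardDistinctFactors (q * q' * m) =
      ArithmeticFunction.cardDistinctFactors m + 2 := by
  have h3 : Nat.Coprime q q' := (Nat.coprime_primes hq hq').2 hne
  rw [ArithmeticFunction.cardDistinctFactors_mul (cop hq hq' h1 h2),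
    ArithmeticFunction.cardDistinctFactors_mul h3,
    ArithmeticFunction.cardDistinctFactors_apply_prime hq,
    ArithmeticFunction.cardDistinctFactors_apply_prime hq']
  ring

theorem pos {q q' m : ℕ} (hq : q.Prime) (hq' : q'.Prime) (hm : 0 < m) : 0 < q * q' * m :=
  Nat.mul_pos (Nat.mul_pos hq.pos hq'.pos) hm

end T11aux

open T11aux

/-- T11. examples of sets with `Inv (all primes)`. -/
theorem T11 : Inv {q | q.Prime} {n | Squarefree n} ∧
    Inv {q | q.Prime} {n | ArithmeticFunction.moebius n = 1} ∧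
    Inv {q | q.Prime} {n | ArithmeticFunction.moebius n = -1} ∧
    Inv {q | q.Prime} {n | 0 < n ∧ Even (ArithmeticFunction.cardFactors n)} ∧
    Inv {q | q.Prime} {n | 0 < n ∧ Odd (ArithmeticFunction.cardFactors n)} ∧
    Inv {q | q.Prime} {n | 0 < n ∧ Even (ArithmeticFunction.cardDistinctFactors n)} ∧
    Inv {q | q.Prime} {n | 0 < n ∧ Odd (ArithmeticFunction.cardDistinctFactors n)} := by
  refine ⟨?_, ?_, ?_, ?_, ?_, ?_, ?_⟩
  · intro q hq q' hq' hne m hm h1 h2
    exact sqf hq hq' hne h1 h2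
  · intro q hq q' hq' hne m hm h1 h2
    change _ = _ ↔ _ = _
    rw [moe hq hq' hne h1 h2]
  · intro q hq q' hq' hne m hm h1 h2
    change _ = _ ↔ _ = _
    rw [moe hq hq' hne h1 h2]
  · intro q hq q' hq' hne m hm h1 h2
    change (_ ∧ _) ↔ (_ ∧ _)
    rw [Om hq hq' hm]
    simp [pos hq hq' hm, hm, Nat.even_add]
  · intro q hq q' hq' hne m hm h1 h2
    change (_ ∧ _) ↔ (_ ∧ _)
    rw [Om hq hq' hm]
    simp [pos hq hq' hm, hm, Nat.odd_add]
  · intro q hq q' hq' hne m hm h1 h2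
    change (_ ∧ _) ↔ (_ ∧ _)
    rw [om hq hq' hne h1 h2]
    simp [pos hq hq' hm, hm, Nat.even_add]
  · intro q hq q' hq' hne m hm h1 h2
    change (_ ∧ _) ↔ (_ ∧ _)
    rw [om hq hq' hne h1 h2]
    simp [pos hq hq' hm, hm, Nat.odd_add]

end Pool.Agent.H335R2.EM
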