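import Mathlib
import Pool.Agent.H335R2.EM.Defs

namespace Pool.Agent.H335R2.EM

open Finset

/-- T12. residue classes and sums of two squares. -/
theorem T12 : (∀ m a : ℕ, 0 < m → Inv {q | q.Prime ∧ q % m = 1 % m} {n | n % m = a % m}) ∧
    Inv {q | q.Prime ∧ q % 4 = 1 % 4} {n | 0 < n ∧ ∃ x y : ℕ, n = x ^ 2 + y ^ 2} := by
  constructor
  · intro m a _ q hq q' hq' _ n _ _ _
    have h1 : q ≡ 1 [MOD m] := hq.2
    have h2 : q' ≡ 1 [MOD m] := hq'.2
    have h3 : q * q' * n ≡ n [MOD m] := by
      have := (h1.mul h2).mul_right n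
      simpa using this
    have h4 : (q * q' * n) % m = n % m := h3
    show (q * q' * n) % m = a % m ↔ n % m = a % m
    rw [h4]
  · intro q hq q' hq' _ n hn _ _
    have hqp : q.Prime := hq.1
    have hqp' : q'.Prime := hq'.1
    have hq4 : q % 4 = 1 := hq.2
    have hq4' : q' % 4 = 1 := hq'.2
    have hq0 := hqp.pos
    have hq0' := hqp'.pos
    have hpos : 0 < q * q' * n := by positivity
    have key : ∀ p : ℕ, p.Prime → p % 4 = 3 →
        padicValNat p (q * q' * n) = padicValNat p n := by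
      intro p hp h4
      have := Fact.mk hp
      have e1 : padicValNat p q = 0 := padicValNat.eq_zero_of_not_dvd fun h => by
        have := (Nat.prime_dvd_prime_iff_eq hp hqp).1 h
        omega
      have e2 : padicValNat p q' = 0 := padicValNat.eq_zero_of_not_dvd fun h => by
        have := (Nat.prime_dvd_prime_iff_eq hp hqp').1 h
        omega
      rw [padicValNat.mul (mul_ne_zero hq0.ne' hq0'.ne') hn.ne', padicValNat.mul hq0.ne' hq0'.ne',
        e1, e2, zero_add, zero_add]
    have key2 : ∀ p : ℕ, p % 4 = 3 → (p ∈ (q * q' * n).primeFactors ↔ p ∈ n.primeFactors) := by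
      intro p h4
      rw [Nat.mem_primeFactors, Nat.mem_primeFactors]
      constructor
      · rintro ⟨hp, hd, -⟩
        refine ⟨hp, ?_, hn.ne'⟩
        rcases (Nat.Prime.dvd_mul hp).1 hd with h | h
        · rcases (Nat.Prime.dvd_mul hp).1 h with h | h
          · have := (Nat.prime_dvd_prime_iff_eq hp hqp).1 h
            omega
          · have := (Nat.prime_dvd_prime_iff_eq hp hqp').1 h
            omega
        · exact h
      · rintro ⟨hp, hd, -⟩
        exact ⟨hp, Dvd.dvd.mul_left hd _, hpos.ne'⟩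
    show (0 < q * q' * n ∧ ∃ x y : ℕ, q * q' * n = x ^ 2 + y ^ 2) ↔
      (0 < n ∧ ∃ x y : ℕ, n = x ^ 2 + y ^ 2)
    rw [Nat.eq_sq_add_sq_iff, Nat.eq_sq_add_sq_iff]
    constructor
    · rintro ⟨-, h⟩
      refine ⟨hn, fun p hp h4 => ?_⟩
      rw [← key p (Nat.prime_of_mem_primeFactors hp) h4]
      exact h p ((key2 p h4).2 hp) h4
    · rintro ⟨-, h⟩
      refine ⟨hpos, fun p hp h4 => ?_⟩
      rw [key p (Nat.prime_of_mem_primeFactors hp) h4]
      exact h p ((key2 p h4).1 hp) h4

end Pool.Agent.H335R2.EM
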