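import Mathlib
import Pool.Agent.H335R2.EM.Defs

/-! Task T14: enough primes congruent to 1 modulo m. -/

namespace Pool.Agent.H335R2.EM

open ArithmeticFunction ArithmeticFunction.vonMangoldt

/-- T14. enough primes congruent to 1 modulo m
(`ArithmeticFunction.vonMangoldt.not_summable_residueClass_prime_div`). -/
theorem T14 (m : ℕ) (hm : 0 < m) :
    ¬ Summable (fun q : {q : ℕ | q.Prime ∧ q % m = 1 % m} => ((q.1 : ℝ)) ^ (-(1/2 : ℝ))) := by
  have : NeZero m := ⟨hm.ne'⟩
  intro H
  have H2 : Summable (Set.indicator {q : ℕ | q.Prime ∧ q % m = 1 % m}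
      (fun q : ℕ => (q : ℝ) ^ (-(1/2 : ℝ)))) := summable_subtype_iff_indicator.1 H
  apply not_summable_residueClass_prime_div (q := m) (a := 1) isUnit_one
  refine Summable.of_nonneg_of_le ?_ ?_ (H2.mul_left 2)
  · intro n
    refine div_nonneg ?_ (Nat.cast_nonneg n)
    split_ifs
    · exact residueClass_nonneg _ _
    · exact le_rfl
  · intro n
    by_cases hn : n.Prime ∧ n % m = 1 % m
    · have hn0 : (0 : ℝ) < n := by exact_mod_cast hn.1.pos
      have h1 : residueClass (1 : ZMod m) n ≤ Real.log n := by
        unfold residueClass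
        by_cases h : n ∈ {n : ℕ | (n : ZMod m) = 1}
        · rw [Set.indicator_of_mem h]
          exact vonMangoldt_le_log
        · rw [Set.indicator_of_notMem h]
          exact Real.log_natCast_nonneg n
      rw [if_pos hn.1, Set.indicator_of_mem (show n ∈ {q : ℕ | q.Prime ∧ q % m = 1 % m} from hn)]
      have h2 : Real.log n ≤ (n : ℝ) ^ (1/2 : ℝ) / (1/2) :=
        Real.log_le_rpow_div hn0.le (by norm_num)
      rw [div_le_iff₀ hn0]
      calc residueClass (1 : ZMod m) n ≤ Real.log n := h1
        _ ≤ (n : ℝ) ^ (1/2 : ℝ) / (1/2) := h2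
        _ = 2 * (n : ℝ) ^ (1/2 : ℝ) := by ring
        _ = 2 * (n : ℝ) ^ (-(1/2 : ℝ)) * n := by
            rw [mul_assoc]
            congr 1
            have h3 : (n : ℝ) ^ (-(1/2 : ℝ)) * (n : ℝ) ^ (1 : ℝ) = (n : ℝ) ^ (1/2 : ℝ) := by
              rw [← Real.rpow_add hn0]
              norm_num
            rw [Real.rpow_one] at h3
            exact h3.symm
    · rw [Set.indicator_of_notMem (show n ∉ {q : ℕ | q.Prime ∧ q % m = 1 % m} from hn), mul_zero]
      by_cases hp : n.Prime
      · have h1 : n ∉ {n : ℕ | (n : ZMod m) = 1} := by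
          intro h
          apply hn
          refine ⟨hp, ?_⟩
          have h2 : (n : ZMod m) = ((1 : ℕ) : ZMod m) := by
            rw [Nat.cast_one]
            exact h
          exact (ZMod.natCast_eq_natCast_iff' n 1 m).1 h2
        rw [if_pos hp]
        unfold residueClass
        rw [Set.indicator_of_notMem h1, zero_div]
      · rw [if_neg hp, zero_div]

end Pool.Agent.H335R2.EM
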