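import Mathlib
import Pool.Agent.H335R2.EM.Defs

namespace Pool.Agent.H335R2.EM

open Finset

namespace T9x

/-- the terms -/
noncomputable def tt (n : ℕ) : ℝ := (1 : ℝ) / (2 ^ n - 1)

theorem two_pow_ge (n : ℕ) (hn : 1 ≤ n) : (2 : ℝ) ≤ 2 ^ n := by
  calc (2 : ℝ) = 2 ^ 1 := by norm_num
    _ ≤ 2 ^ n := pow_le_pow_right₀ (by norm_num) hn

theorem tt_nonneg (n : ℕ) : 0 ≤ tt n := by
  unfold tt
  have : (1 : ℝ) ≤ 2 ^ n := one_le_pow₀ (by norm_num)
  exact div_nonneg zero_le_one (by linarith)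

theorem tt_pos (n : ℕ) (hn : 1 ≤ n) : 0 < tt n := by
  unfold tt
  have := two_pow_ge n hn
  exact div_pos one_pos (by linarith)

theorem tt_lt (n : ℕ) (hn : 1 ≤ n) (k : ℕ) : tt (k + (n + 1)) < (1 / 2 : ℝ) ^ (k + 1) * tt n := by
  unfold tt
  have h1 := two_pow_ge n hn
  have h2 := two_pow_ge (k + 1) (by omega)
  have h3 : (2 : ℝ) ^ (k + (n + 1)) = 2 ^ (k + 1) * 2 ^ n := by
    rw [← pow_add]; congr 1; omega
  have h4 : (1 / 2 : ℝ) ^ (k + 1) * (1 / (2 ^ n - 1)) = 1 / (2 ^ (k + 1) * (2 ^ n - 1)) := by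
    rw [div_pow, one_pow, div_mul_div_comm, one_mul]
  rw [h4, h3]
  apply one_div_lt_one_div_of_lt
  · apply mul_pos <;> linarith
  · nlinarith

theorem sum_tail (n : ℕ) (hn : 1 ≤ n) :
    Summable (fun k : ℕ => tt (k + (n + 1))) ∧ ∑' k : ℕ, tt (k + (n + 1)) < tt n := by
  have hg : HasSum (fun k : ℕ => (1 / 2 : ℝ) ^ (k + 1) * tt n) (tt n) := by
    have h1 : HasSum (fun k : ℕ => (1 / 2 : ℝ) ^ k) 2 := hasSum_geometric_two
    have h2 := (h1.mul_left (1 / 2 : ℝ)).mul_right (tt n)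
    have h3 : (1 / 2 : ℝ) * 2 * tt n = tt n := by ring
    rw [h3] at h2
    refine h2.congr_fun ?_ |>.trans ?_ <;> simp [pow_succ, mul_comm]
  have hs : Summable (fun k : ℕ => tt (k + (n + 1))) :=
    Summable.of_nonneg_of_le (fun k => tt_nonneg _) (fun k => (tt_lt n hn k).le) hg.summable
  refine ⟨hs, ?_⟩
  calc ∑' k : ℕ, tt (k + (n + 1)) < ∑' k : ℕ, (1 / 2 : ℝ) ^ (k + 1) * tt n :=
        Summable.tsum_lt_tsum (i := 0) (fun k => (tt_lt n hn k).le) (tt_lt n hn 0) hs hg.summable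
    _ = tt n := hg.tsum_eq

theorem summable_tt : Summable tt := by
  rw [← summable_nat_add_iff (1 + 1)]
  exact (sum_tail 1 le_rfl).1

theorem S_eq (A : Set ℕ) : S A = ∑' n, A.indicator tt n := by
  unfold S
  exact tsum_subtype A tt

theorem summable_ind (A : Set ℕ) : Summable (A.indicator tt) := summable_tt.indicator A

theorem aux (A B : Set ℕ) (n : ℕ) (h1 : 1 ≤ n) (hn : n ∈ A) (hn' : n ∉ B)
    (hmin : ∀ m < n, m ∈ A ↔ m ∈ B) : S B < S A := by
  classical
  rw [S_eq, S_eq]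
  set d : ℕ → ℝ := fun m => A.indicator tt m - B.indicator tt m with hd
  have hds : Summable d := (summable_ind A).sub (summable_ind B)
  have e1 : ∑' m, d m = ∑' n, A.indicator tt n - ∑' n, B.indicator tt n :=
    (summable_ind A).tsum_sub (summable_ind B)
  have e2 := hds.sum_add_tsum_nat_add (n + 1)
  have e3 : ∑ i ∈ range (n + 1), d i = tt n := by
    rw [Finset.sum_range_succ, Finset.sum_eq_zero, zero_add]
    · simp only [hd]
      rw [Set.indicator_of_mem hn, Set.indicator_of_notMem hn', sub_zero]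
    · intro m hm
      have := hmin m (Finset.mem_range.1 hm)
      simp only [hd]
      by_cases h : m ∈ A
      · rw [Set.indicator_of_mem h, Set.indicator_of_mem (this.1 h), sub_self]
      · rw [Set.indicator_of_notMem h, Set.indicator_of_notMem (fun h' => h (this.2 h')), sub_self]
  obtain ⟨s1, s2⟩ := sum_tail n h1
  have e4 : - ∑' k : ℕ, tt (k + (n + 1)) ≤ ∑' i : ℕ, d (i + (n + 1)) := by
    rw [← tsum_neg]
    refine Summable.tsum_le_tsum (fun i => ?_) s1.neg ((summable_nat_add_iff (n + 1)).2 hds)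
    simp only [hd]
    have hA0 : 0 ≤ A.indicator tt (i + (n + 1)) := Set.indicator_nonneg (fun _ _ => tt_nonneg _) _
    have hB0 : B.indicator tt (i + (n + 1)) ≤ tt (i + (n + 1)) :=
      Set.indicator_le_self' (fun _ _ => tt_nonneg _) _
    linarith
  rw [e3, e1] at e2
  linarith

end T9x

/-- T9. the sum is an injective function of the set of positive integers. -/
theorem T9 (A B : Set ℕ) (hA : 0 ∉ A) (hB : 0 ∉ B) (h : S A = S B) : A = B := by
  classical
  by_contra hne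
  have hex : ∃ n, ¬ (n ∈ A ↔ n ∈ B) := by
    by_contra hc
    push Not at hc
    exact hne (Set.ext hc)
  set n := Nat.find hex with hn
  have h1 : ¬ (n ∈ A ↔ n ∈ B) := Nat.find_spec hex
  have h2 : ∀ m < n, (m ∈ A ↔ m ∈ B) := fun m hm => not_not.1 (Nat.find_min hex hm)
  have h3 : 1 ≤ n := by
    rcases Nat.eq_zero_or_pos n with h0 | h0
    · rw [h0] at h1
      exact absurd ⟨fun x => absurd x hA, fun x => absurd x hB⟩ h1
    · exact h0
  by_cases h4 : n ∈ A
  · have h5 : n ∉ B := fun h5 => h1 ⟨fun _ => h5, fun _ => h4⟩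
    have := T9x.aux A B n h3 h4 h5 h2
    linarith
  · have h5 : n ∈ B := by
      by_contra h5
      exact h1 ⟨fun x => absurd x h4, fun x => absurd x h5⟩
    have := T9x.aux B A n h3 h5 h4 (fun m hm => (h2 m hm).symm)
    linarith

end Pool.Agent.H335R2.EM
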