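import Mathlib
import Pool.Agent.H335R2.EM.Defs2
import Pool.Agent.H335R2.EM.G2a
import Pool.Agent.H335R2.EM.G2b
import Pool.Agent.H335R2.EM.G2c
import Pool.Agent.H335R2.EM.E1
import Pool.Agent.H335R2.EM.G13
import Pool.Agent.H335R2.EM.T9
import Pool.Agent.H335R2.EM.T11
import Pool.Agent.H335R2.EM.T12
import Pool.Agent.H335R2.EM.T14

namespace Pool.Agent.H335R2.EM

open Finset

theorem Rich.infinite {Q : Set ℕ} (h : Rich Q) : Q.Infinite := by
  obtain ⟨-, δ, -, hs⟩ := h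
  intro hf
  have := hf.to_subtype
  exact hs Summable.of_finite

theorem rich_mod (m : ℕ) (hm : 0 < m) : Rich {q : ℕ | q.Prime ∧ q % m = 1 % m} :=
  ⟨fun _ h => h.1, 1 / 2, by norm_num, T14 m hm⟩

theorem rich_primes : Rich {q : ℕ | q.Prime} := by
  have h : {q : ℕ | q.Prime} = {q : ℕ | q.Prime ∧ q % 1 = 1 % 1} := by
    ext q; simp [Nat.mod_one]
  rw [h]
  exact rich_mod 1 one_pos

/-- the criterion. -/
theorem crit (Q A : Set ℕ) (hQ : Rich Q) (K h : ℕ) (hh : 0 < h)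
    (hdivs : ∀ (w n : ℕ) (s : Finset ℕ), 0 < n → s.card = K * (w + 1) →
      (∀ q ∈ s, q ∈ Q ∧ q ^ (2 * h - 1) ∣ n ∧ ¬ q ^ (2 * h) ∣ n) → 2 ^ w ∣ dA A n)
    (hne : ∃ a ∈ A, 0 < a) : Irrational (S A) := by
  obtain ⟨hp, δ, hδ, hs⟩ := hQ
  exact G13 Q A hp δ hδ hs K h hh hdivs hne

theorem invD_irr (b : ℕ) (Q A : Set ℕ) (hQ : Rich Q) (hA : InvD b Q A) (hne : ∃ a ∈ A, 0 < a) :
    Irrational (S A) := by
  refine crit Q A hQ (2 ^ b) 1 one_pos ?_ hne
  intro w n s hn hc hs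
  have h1 := G2c Q A b hQ.1 hQ.infinite hA
  refine G2b Q A b hQ.1 h1 hA w n hn s ?_ ?_
  · rw [hc]; exact Nat.mul_le_mul_left _ (Nat.le_succ w)
  · intro q hq
    obtain ⟨h1, h2, h3⟩ := hs q hq
    simp only [mul_one] at h2 h3
    exact ⟨h1, by simpa using h2, h3⟩

theorem invC_irr (L : ℕ) (hL : 0 < L) (Q A : Set ℕ) (hQ : Rich Q) (hA : InvC L Q A)
    (hne : ∃ a ∈ A, 0 < a) : Irrational (S A) := by
  refine crit Q A hQ 1 L hL ?_ hne
  have hpw : ∀ q ∈ Q, ∀ m, 0 < m → (q ^ L * m ∈ A ↔ m ∈ A) := by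
    intro q hq m hm
    have := hA (Multiset.replicate L q) (fun x hx => by rw [Multiset.eq_of_mem_replicate hx]; exact hq)
      (Multiset.card_replicate _ _) m hm
    rwa [Multiset.prod_replicate] at this
  have hex : ∀ q ∈ Q, ∀ q' ∈ Q, ∀ m, 0 < m → (q * m ∈ A ↔ q' * m ∈ A) := by
    intro q hq q' hq' m hm
    have hqp := (hQ.1 q hq).pos
    have hqp' := (hQ.1 q' hq').pos
    have e1 := hpw q' hq' (q * m) (by positivity)
    have e2 := hA (q ::ₘ Multiset.replicate (L - 1) q')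
      (fun x hx => by
        rw [Multiset.mem_cons] at hx
        rcases hx with rfl | hx
        · exact hq
        · rw [Multiset.eq_of_mem_replicate hx]; exact hq')
      (by rw [Multiset.card_cons, Multiset.card_replicate]; omega) (q' * m) (by positivity)
    rw [Multiset.prod_cons, Multiset.prod_replicate] at e2
    have e3 : q * q' ^ (L - 1) * (q' * m) = q' ^ L * (q * m) := by
      obtain ⟨l, rfl⟩ : ∃ l, L = l + 1 := ⟨L - 1, by omega⟩
      simp only [Nat.add_sub_cancel]; ring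
    rw [e3] at e2
    exact e1.symm.trans e2
  intro w n s hn hc hs
  have := G2a Q A L hL hex hpw n hn s (fun q hq => ⟨hQ.1 q (hs q hq).1, (hs q hq).1, (hs q hq).2.1, (hs q hq).2.2⟩)
  exact (pow_dvd_pow 2 (by omega)).trans this

theorem inv_invD {Q A : Set ℕ} (hQ : ∀ q ∈ Q, q.Prime) (h : Inv Q A) : InvD 1 Q A := by
  intro s hs hc m hm hd
  obtain ⟨q, q', hne, rfl⟩ := Finset.card_eq_two.1 (by simpa using hc)
  rw [Finset.prod_pair hne]
  exact h q (hs q (by simp)) q' (hs q' (by simp)) hne m hm (hd q (by simp)) (hd q' (by simp))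

theorem S_inj_on : Set.InjOn S {A : Set ℕ | 0 ∉ A} := fun A hA B hB h => T9 A B hA hB h

theorem countable_fibre (C : Set ℝ) (hC : C.Countable) : {A : Set ℕ | 0 ∉ A ∧ S A ∈ C}.Countable := by
  have h : Set.MapsTo S {A : Set ℕ | 0 ∉ A ∧ S A ∈ C} C := fun A hA => hA.2
  exact Set.MapsTo.countable_of_injOn h (S_inj_on.mono (fun A hA => hA.1)) hC

theorem countable_rat : {A : Set ℕ | 0 ∉ A ∧ ¬ Irrational (S A)}.Countable := by
  refine (countable_fibre (Set.range ((↑) : ℚ → ℝ)) (Set.countable_range _)).mono ?_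
  rintro A ⟨h1, h2⟩
  exact ⟨h1, by simpa [Irrational] using h2⟩

/-- twisting by residue classes. -/
theorem invD_mod (b m a : ℕ) (hm : 0 < m) (B : Set ℕ) (hB : InvD b {q : ℕ | q.Prime} B) :
    InvD b {q : ℕ | q.Prime ∧ q % m = 1 % m} {n | n ∈ B ∧ n % m = a % m} := by
  intro s hs hc n hn hd
  have h1 := hB s (fun q hq => (hs q hq).1) hc n hn hd
  have h2 : ∀ t : Finset ℕ, t ⊆ s → (∏ q ∈ t, q) ≡ 1 [MOD m] := by
    intro t
    induction t using Finset.induction_on with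
    | empty => intro _; simpa using Nat.ModEq.refl 1
    | insert q t hqt ih =>
      intro hsub
      rw [Finset.prod_insert hqt]
      have e1 : q ≡ 1 [MOD m] := (hs q (hsub (mem_insert_self _ _))).2
      simpa using e1.mul (ih (fun x hx => hsub (mem_insert_of_mem hx)))
  have h3 : (∏ q ∈ s, q) * n ≡ n [MOD m] := by simpa using (h2 s subset_rfl).mul_right n
  have h4 : ((∏ q ∈ s, q) * n) % m = n % m := h3
  show ((∏ q ∈ s, q) * n ∈ B ∧ ((∏ q ∈ s, q) * n) % m = a % m) ↔ (n ∈ B ∧ n % m = a % m)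
  rw [h1, h4]

theorem invC_mod (L m a : ℕ) (hm : 0 < m) (B : Set ℕ) (hB : InvC L {q : ℕ | q.Prime} B) :
    InvC L {q : ℕ | q.Prime ∧ q % m = 1 % m} {n | n ∈ B ∧ n % m = a % m} := by
  intro s hs hc n hn
  have h1 := hB s (fun q hq => (hs q hq).1) hc n hn
  have h2 : ∀ t : Multiset ℕ, t ≤ s → t.prod ≡ 1 [MOD m] := by
    intro t
    induction t using Multiset.induction_on with
    | empty => intro _; simpa using Nat.ModEq.refl 1
    | cons q t ih =>
      intro hsub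
      rw [Multiset.prod_cons]
      have e1 : q ≡ 1 [MOD m] := (hs q (Multiset.mem_of_le hsub (Multiset.mem_cons_self _ _))).2
      simpa using e1.mul (ih ((Multiset.le_cons_self t q).trans hsub))
  have h3 : s.prod * n ≡ n [MOD m] := by simpa using (h2 s le_rfl).mul_right n
  have h4 : (s.prod * n) % m = n % m := h3
  show (s.prod * n ∈ B ∧ (s.prod * n) % m = a % m) ↔ (n ∈ B ∧ n % m = a % m)
  rw [h1, h4]

/-- multiplicative sets. -/
theorem mult_invD (A : Set ℕ)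
    (hA : ∀ m n, 0 < m → 0 < n → Nat.Coprime m n → (m * n ∈ A ↔ m ∈ A ∧ n ∈ A)) :
    InvD 0 {q : ℕ | q.Prime ∧ q ∈ A} A := by
  intro s hs hc m hm hd
  obtain ⟨q, rfl⟩ := Finset.card_eq_one.1 (by simpa using hc)
  rw [Finset.prod_singleton]
  have hq := hs q (by simp)
  rw [hA q m hq.1.pos hm ((Nat.Prime.coprime_iff_not_dvd hq.1).2 (hd q (by simp)))]
  exact ⟨fun h => h.2, fun h => ⟨hq.2, h⟩⟩

theorem kfree_mult (k : ℕ) (hk : k ≠ 0) : ∀ m n, 0 < m → 0 < n → Nat.Coprime m n →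
    (m * n ∈ {n : ℕ | 0 < n ∧ ∀ p, p.Prime → ¬ p ^ k ∣ n} ↔
      m ∈ {n : ℕ | 0 < n ∧ ∀ p, p.Prime → ¬ p ^ k ∣ n} ∧
      n ∈ {n : ℕ | 0 < n ∧ ∀ p, p.Prime → ¬ p ^ k ∣ n}) := by
  intro m n hm hn hc
  constructor
  · rintro ⟨-, h⟩
    exact ⟨⟨hm, fun p hp hd => h p hp (hd.mul_right n)⟩, ⟨hn, fun p hp hd => h p hp (hd.mul_left m)⟩⟩
  · rintro ⟨⟨-, h1⟩, ⟨-, h2⟩⟩
    refine ⟨by positivity, fun p hp hd => ?_⟩
    rcases (Nat.Coprime.isPrimePow_dvd_mul hc (hp.isPrimePow.pow hk)).1 hd with h | h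
    · exact h1 p hp h
    · exact h2 p hp h

end Pool.Agent.H335R2.EM
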