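import Mathlib
import Pool.Agent.H335R2.EM.Defs

namespace Pool.Agent.H335R2.EM

open Finset

/-- H1. supply of primes, with a power saving. -/
theorem H1 (Q : Set ℕ) (δ η : ℝ) (hη : 0 < η) (hηδ : η < δ)
    (h : ¬ Summable (fun q : Q => ((q.1 : ℝ)) ^ (-δ))) (k0 : ℕ) :
    ∃ k, k0 ≤ k ∧ ∃ P : Finset ℕ, (2 : ℝ) ^ ((δ - η) * k) ≤ P.card ∧
      ∀ q ∈ P, q ∈ Q ∧ 2 ^ k < q ∧ q ≤ 2 ^ (k + 1) := by
  classical
  have hδ : 0 < δ := lt_trans hη hηδ
  by_contra hcon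
  have hcard : ∀ k, k0 ≤ k → ∀ F : Finset ℕ, (∀ q ∈ F, q ∈ Q ∧ 2 ^ k < q ∧ q ≤ 2 ^ (k + 1)) →
      (F.card : ℝ) ≤ (2 : ℝ) ^ ((δ - η) * k) := by
    intro k hk F hF
    by_contra hlt
    exact hcon ⟨k, hk, F, (not_le.1 hlt).le, hF⟩
  apply h
  set g : ℕ → ℝ := Q.indicator (fun q : ℕ => (q : ℝ) ^ (-δ)) with hg
  have hg0 : ∀ q, 0 ≤ g q := fun q =>
    Set.indicator_nonneg (fun x _ => Real.rpow_nonneg (Nat.cast_nonneg x) _) q
  suffices hs : Summable g from summable_subtype_iff_indicator.mpr hs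
  -- the majorant
  set r : ℝ := (2 : ℝ) ^ (-δ) with hr
  have hr0 : 0 < r := Real.rpow_pos_of_pos two_pos _
  have ha : Summable fun k : ℕ => ((2 : ℝ) ^ ((δ - η) * k)) * r ^ k := by
    have hw0 : 0 < (2 : ℝ) ^ (-η) := Real.rpow_pos_of_pos two_pos _
    have hw1 : (2 : ℝ) ^ (-η) < 1 := Real.rpow_lt_one_of_one_lt_of_neg one_lt_two (by linarith)
    refine (summable_geometric_of_lt_one hw0.le hw1).congr fun k => ?_
    rw [hr, ← Real.rpow_natCast, ← Real.rpow_natCast, ← Real.rpow_mul two_pos.le,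
      ← Real.rpow_mul two_pos.le, ← Real.rpow_add two_pos]
    congr 1
    ring
  refine summable_of_sum_le hg0
    (c := ∑ q ∈ Finset.range (2 ^ k0 + 1), g q + ∑' k : ℕ, ((2 : ℝ) ^ ((δ - η) * k)) * r ^ k)
    fun u => ?_
  rw [← Finset.sum_filter_add_sum_filter_not u (fun q => q ≤ 2 ^ k0)]
  refine add_le_add ?_ ?_
  · refine Finset.sum_le_sum_of_subset_of_nonneg (fun q hq => ?_) fun q _ _ => hg0 q
    rw [Finset.mem_filter] at hq
    rw [Finset.mem_range]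
    omega
  · -- the large elements
    set s : Finset ℕ := (u.filter fun q => ¬ q ≤ 2 ^ k0).filter fun q => q ∈ Q with hs
    have h1 : ∑ q ∈ u.filter (fun q => ¬ q ≤ 2 ^ k0), g q = ∑ q ∈ s, (q : ℝ) ^ (-δ) := by
      rw [hs, Finset.sum_filter (fun q => q ∈ Q)]
      refine Finset.sum_congr rfl fun q _ => ?_
      rw [hg, Set.indicator_apply]
    have hlog : ∀ q ∈ s, q ∈ Q ∧ 2 ^ (Nat.log 2 (q - 1)) < q ∧
        q ≤ 2 ^ (Nat.log 2 (q - 1) + 1) ∧ k0 ≤ Nat.log 2 (q - 1) := by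
      intro q hq
      rw [hs, Finset.mem_filter, Finset.mem_filter] at hq
      have hpos : 0 < 2 ^ k0 := by positivity
      have hq1 : q - 1 ≠ 0 := by omega
      have a1 := Nat.pow_log_le_self 2 hq1
      have a2 := Nat.lt_pow_succ_log_self (b := 2) (by norm_num) (q - 1)
      have a3 : k0 ≤ Nat.log 2 (q - 1) := by
        refine Nat.le_log_of_pow_le (by norm_num) ?_
        omega
      exact ⟨hq.2, by omega, by omega, a3⟩
    rw [h1, ← Finset.sum_fiberwise_of_maps_to (s := s)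
      (t := s.image fun q => Nat.log 2 (q - 1)) (g := fun q => Nat.log 2 (q - 1))
      (fun q hq => Finset.mem_image_of_mem _ hq)]
    refine le_trans (Finset.sum_le_sum fun k hk => ?_)
      (ha.sum_le_tsum (s.image fun q => Nat.log 2 (q - 1)) fun k _ => by positivity)
    -- one fibre
    have hmem : ∀ q ∈ s.filter (fun q => Nat.log 2 (q - 1) = k), q ∈ Q ∧ 2 ^ k < q ∧
        q ≤ 2 ^ (k + 1) := by
      intro q hq
      rw [Finset.mem_filter] at hq
      obtain ⟨b1, b2, b3, -⟩ := hlog q hq.1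
      rw [hq.2] at b2 b3
      exact ⟨b1, b2, b3⟩
    have hk0 : k0 ≤ k := by
      rw [Finset.mem_image] at hk
      obtain ⟨q, hq, rfl⟩ := hk
      exact (hlog q hq).2.2.2
    have hc := hcard k hk0 _ hmem
    have hterm : ∀ q ∈ s.filter (fun q => Nat.log 2 (q - 1) = k), (q : ℝ) ^ (-δ) ≤ r ^ k := by
      intro q hq
      obtain ⟨-, b2, -⟩ := hmem q hq
      have b4 : ((2 : ℝ) ^ k) ≤ (q : ℝ) := by exact_mod_cast b2.le
      have b5 : (q : ℝ) ^ (-δ) ≤ ((2 : ℝ) ^ k) ^ (-δ) :=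
        Real.rpow_le_rpow_of_nonpos (by positivity) b4 (by linarith)
      have b6 : ((2 : ℝ) ^ k) ^ (-δ) = r ^ k := by
        rw [hr, ← Real.rpow_natCast, ← Real.rpow_natCast, ← Real.rpow_mul two_pos.le,
          ← Real.rpow_mul two_pos.le, mul_comm]
      rw [b6] at b5
      exact b5
    calc ∑ q ∈ s.filter (fun q => Nat.log 2 (q - 1) = k), (q : ℝ) ^ (-δ)
        ≤ ∑ q ∈ s.filter (fun q => Nat.log 2 (q - 1) = k), r ^ k := Finset.sum_le_sum hterm
      _ = ((s.filter (fun q => Nat.log 2 (q - 1) = k)).card : ℝ) * r ^ k := by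
          rw [Finset.sum_const, nsmul_eq_mul]
      _ ≤ ((2 : ℝ) ^ ((δ - η) * k)) * r ^ k := by
          exact mul_le_mul_of_nonneg_right hc (by positivity)

end Pool.Agent.H335R2.EM
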