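import Mathlib
import Pool.Agent.H335R2.EM.Defs

set_option autoImplicit false

namespace Pool.Agent.H335R2.EM

open Finset

theorem H10 (C : Set ℕ) (hC0 : 0 ∉ C) (θ η : ℝ) (hθ : 0 < θ) (hη : 0 < η)
    (h : Summable (fun c : C => ((c.1 : ℝ)) ^ (-θ))) :
    ∃ σ : ℝ, 0 < σ ∧ ∀ (X Y : ℕ) (s : Finset ℕ), 1 ≤ X → 1 ≤ Y → (∀ c ∈ s, c ∈ C ∧ Y < c ∧ c ≤ X) →
      (s.card : ℝ) ≤ σ * (X : ℝ) ^ θ ∧
      ∑ c ∈ s, (c : ℝ) ^ (-(θ + η)) ≤ σ * (Y : ℝ) ^ (-η) := by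
  classical
  set τ : ℝ := ∑' c : C, ((c.1 : ℝ)) ^ (-θ) with hτ
  have hτ0 : 0 ≤ τ := tsum_nonneg fun c => Real.rpow_nonneg (Nat.cast_nonneg _) _
  refine ⟨τ + 1, by linarith, ?_⟩
  intro X Y s hX hY hs
  have hX0 : (0 : ℝ) < X := by exact_mod_cast hX
  have hY0 : (0 : ℝ) < Y := by exact_mod_cast hY
  have hsum : ∑ c ∈ s, (c : ℝ) ^ (-θ) ≤ τ := by
    have h1 : ∑ c ∈ s, (c : ℝ) ^ (-θ) =
        ∑ c ∈ s.subtype (fun c => c ∈ C), ((c.1 : ℕ) : ℝ) ^ (-θ) := by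
      rw [Finset.sum_subtype_of_mem (fun c : ℕ => (c : ℝ) ^ (-θ)) (fun c hc => (hs c hc).1)]
    rw [h1]
    exact h.sum_le_tsum _ (fun c _ => Real.rpow_nonneg (Nat.cast_nonneg _) _)
  constructor
  · have h1 : (s.card : ℝ) ≤ ∑ c ∈ s, (X : ℝ) ^ θ * (c : ℝ) ^ (-θ) := by
      rw [Finset.card_eq_sum_ones]
      push_cast
      refine Finset.sum_le_sum fun c hc => ?_
      have hcs := hs c hc
      have hc0 : (0 : ℝ) < c := by
        have : 0 < c := by omega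
        exact_mod_cast this
      rw [Real.rpow_neg hc0.le, ← div_eq_mul_inv, one_le_div (Real.rpow_pos_of_pos hc0 _)]
      exact Real.rpow_le_rpow hc0.le (by exact_mod_cast hcs.2.2) hθ.le
    rw [← Finset.mul_sum] at h1
    have h2 : (0 : ℝ) ≤ (X : ℝ) ^ θ := Real.rpow_nonneg hX0.le _
    nlinarith [mul_le_mul_of_nonneg_left hsum h2]
  · have h1 : ∑ c ∈ s, (c : ℝ) ^ (-(θ + η)) ≤ ∑ c ∈ s, (Y : ℝ) ^ (-η) * (c : ℝ) ^ (-θ) := by
      refine Finset.sum_le_sum fun c hc => ?_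
      have hcs := hs c hc
      have hc0 : (0 : ℝ) < c := by
        have : 0 < c := by omega
        exact_mod_cast this
      rw [neg_add, Real.rpow_add hc0, mul_comm]
      refine mul_le_mul_of_nonneg_right ?_ (Real.rpow_nonneg hc0.le _)
      exact Real.rpow_le_rpow_of_nonpos hY0 (by exact_mod_cast hcs.2.1.le) (by linarith)
    rw [← Finset.mul_sum] at h1
    have h2 : (0 : ℝ) ≤ (Y : ℝ) ^ (-η) := Real.rpow_nonneg hY0.le _
    nlinarith [mul_le_mul_of_nonneg_left hsum h2]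

end Pool.Agent.H335R2.EM
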