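import Mathlib
import Pool.Agent.H335R2.EM.Defs
import Pool.Agent.H335R2.EM.T1
import Pool.Agent.H335R2.EM.T8

/-! Perturbation of invariant sets by sparse sets: first lemmas and the final contradiction. -/

namespace Pool.Agent.H335R2.EM

open Finset

theorem dA_le_card (A : Set ℕ) (n : ℕ) : dA A n ≤ n.divisors.card := by
  classical
  unfold dA
  exact Finset.card_filter_le _ _

theorem dA_diff (A B : Set ℕ) (n m : ℕ) (hn : 0 < n) (hm : 0 < m)
    (h : ∀ d, d ∈ symmDiff A B → (d ∣ n ↔ d ∣ m)) :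
    (dA A n : ℤ) - dA B n = (dA A m : ℤ) - dA B m := by
  classical
  have key : ∀ x : ℕ, (dA A x : ℤ) - dA B x =
      ∑ d ∈ x.divisors.filter (fun d => d ∈ symmDiff A B),
        ((if d ∈ A then (1 : ℤ) else 0) - if d ∈ B then 1 else 0) := by
    intro x
    have e1 : ∀ E : Set ℕ, (dA E x : ℤ) = ∑ d ∈ x.divisors, if d ∈ E then (1 : ℤ) else 0 := by
      intro E
      unfold dA
      rw [Finset.card_filter]
      push_cast
      apply Finset.sum_congr rfl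
      intro d _
      congr
    rw [e1, e1, ← Finset.sum_sub_distrib, Finset.sum_filter]
    apply Finset.sum_congr rfl
    intro d _
    by_cases hA : d ∈ A <;> by_cases hB : d ∈ B <;> simp [Set.mem_symmDiff, hA, hB]
  rw [key, key]
  apply Finset.sum_congr _ (fun _ _ => rfl)
  ext d
  simp only [mem_filter, Nat.mem_divisors]
  constructor
  · rintro ⟨⟨h1, h2⟩, h3⟩
    exact ⟨⟨(h d h3).1 h1, hm.ne'⟩, h3⟩
  · rintro ⟨⟨h1, h2⟩, h3⟩
    exact ⟨⟨(h d h3).2 h1, hn.ne'⟩, h3⟩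

theorem dA_mono_shift (A : Set ℕ) (N j Y : ℕ) (hj : 0 < j) (hjY : j ≤ Y) (hN : Y.factorial ∣ N) :
    dA A j ≤ dA A (N + j) := by
  classical
  unfold dA
  apply Finset.card_le_card
  intro d hd
  rw [mem_filter, Nat.mem_divisors] at hd ⊢
  refine ⟨⟨?_, by omega⟩, hd.2⟩
  have hdj : d ≤ j := Nat.le_of_dvd hj hd.1.1
  have hd0 : 0 < d := Nat.pos_of_dvd_of_pos hd.1.1 hj
  exact dvd_add ((Nat.dvd_factorial hd0 (hdj.trans hjY)).trans hN) hd.1.1

/-- the tail of the series. -/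
noncomputable def tl (A : Set ℕ) (N J : ℕ) : ℝ :=
  ∑' j : ℕ, (dA A (N + (J + 1 + j)) : ℝ) / 2 ^ (J + 1 + j)

theorem tl_nonneg (A : Set ℕ) (N J : ℕ) : 0 ≤ tl A N J := tsum_nonneg (fun _ => by positivity)

theorem tl_le (A : Set ℕ) (N J : ℕ) : tl A N J ≤ ((N : ℝ) + J + 2) / 2 ^ J := (T8 A N J).2

theorem tl_split (A : Set ℕ) (N J J' : ℕ) (h : J ≤ J') :
    tl A N J = ∑ j ∈ Ioc J J', (dA A (N + j) : ℝ) / 2 ^ j + tl A N J' := by
  have h1 := (T8 A N J).1.sum_add_tsum_nat_add (J' - J)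
  unfold tl
  rw [← h1]
  congr 1
  · have h3 : Ioc J J' = (range (J' - J)).image (fun i => J + 1 + i) := by
      ext j
      simp only [mem_Ioc, mem_image, mem_range]
      constructor
      · rintro ⟨h1, h2⟩
        exact ⟨j - (J + 1), by omega, by omega⟩
      · rintro ⟨i, h1, rfl⟩
        omega
    rw [h3, Finset.sum_image (by intro x _ y _ h; simpa using h)]
  · apply tsum_congr
    intro i
    have : J + 1 + (i + (J' - J)) = J' + 1 + i := by omega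
    rw [this]

/-- expansion of `2 ^ N * S A`. -/
theorem expand (A : Set ℕ) (N k : ℕ) : ∃ z : ℤ,
    (2 : ℝ) ^ N * S A = z + ∑ j ∈ Ioc 0 k, (dA A (N + j) : ℝ) / 2 ^ j + tl A N k := by
  have hS := T1 A
  have hsplit := hS.summable.sum_add_tsum_nat_add (N + 1)
  rw [hS.tsum_eq] at hsplit
  refine ⟨∑ i ∈ range (N + 1), 2 ^ (N - i) * dA A i, ?_⟩
  have e : tl A N 0 = (2 : ℝ) ^ N * ∑' i : ℕ, (dA A (i + (N + 1)) : ℝ) / 2 ^ (i + (N + 1)) := by
    unfold tl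
    rw [← tsum_mul_left]
    apply tsum_congr
    intro i
    have h5 : i + (N + 1) = N + (0 + 1 + i) := by omega
    rw [h5, pow_add 2 N (0 + 1 + i)]
    field_simp
  rw [add_assoc, ← tl_split A N 0 k (Nat.zero_le _), e, ← hsplit, mul_add]
  congr 1
  push_cast
  rw [Finset.mul_sum]
  apply Finset.sum_congr rfl
  intro i hi
  rw [mem_range] at hi
  have : (2 : ℝ) ^ N = 2 ^ (N - i) * 2 ^ i := by rw [← pow_add]; congr 1; omega
  rw [this]; field_simp

/-- the final contradiction. -/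
theorem H13_final (A B : Set ℕ) (hne : ∃ b ∈ B, 0 < b)
    (key : ∀ (ε : ℝ) (k0 : ℕ), 0 < ε → ∃ k, k0 ≤ k ∧ ∃ N Y : ℕ, k ≤ Y ∧
      ((Y : ℝ) + 2) / 2 ^ Y < 1 / 2 ^ (2 * k) ∧
      (∀ j, 1 ≤ j → j ≤ k → ∃ z : ℤ, (dA A (N + j) : ℤ) = 2 ^ k * z + dA A j - dA B j) ∧
      tl A N k ≤ ε ∧ (∀ j, 0 < j → j ≤ Y → dA A j ≤ dA A (N + j))) : Irrational (S A) := by
  classical
  intro hrat
  obtain ⟨x, hx⟩ := hrat
  obtain ⟨b, hbB, hb⟩ := hne
  have hD : 0 < x.den := x.den_pos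
  have hDS : (x.den : ℝ) * S A = (x.num : ℝ) := by
    rw [← hx]
    have h1 : (x.den : ℚ) * x = x.num := by
      rw [mul_comm]; exact Rat.mul_den_eq_num x
    exact_mod_cast h1
  obtain ⟨D, hDdef⟩ : ∃ D : ℕ, D = x.den := ⟨_, rfl⟩
  rw [← hDdef] at hD hDS
  have hD' : (0 : ℝ) < D := by exact_mod_cast hD
  set s : ℝ := D * (S A - S B) with hs
  have hgap : 0 < (⌊s⌋ : ℝ) + 1 - s := by linarith [Int.lt_floor_add_one s]
  obtain ⟨ε, hε, hε2⟩ : ∃ ε : ℝ, 0 < ε ∧ 2 * D * ε < (⌊s⌋ : ℝ) + 1 - s := by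
    refine ⟨((⌊s⌋ : ℝ) + 1 - s) / (4 * D), by positivity, ?_⟩
    have : 2 * D * (((⌊s⌋ : ℝ) + 1 - s) / (4 * D)) = ((⌊s⌋ : ℝ) + 1 - s) / 2 := by
      field_simp; ring
    rw [this]; linarith
  -- large k
  obtain ⟨k1, hk1⟩ : ∃ k1 : ℕ, ∀ k ≥ k1, ((0 : ℕ) + (k : ℝ) + 2) / 2 ^ k ≤ ε := by
    have h1 : Filter.Tendsto (fun k : ℕ => ((k : ℝ) + 2) / 2 ^ k) Filter.atTop (nhds 0) := by
      have h2 := tendsto_self_mul_const_pow_of_lt_one (r := (1 / 2 : ℝ)) (by norm_num) (by norm_num)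
      have h3 := tendsto_pow_atTop_nhds_zero_of_lt_one (r := (1 / 2 : ℝ)) (by norm_num) (by norm_num)
      have h4 := h2.add (h3.const_mul 2)
      simp only [mul_zero, add_zero] at h4
      refine h4.congr (fun k => ?_)
      rw [one_div, inv_pow]; field_simp
    have h5 := (h1.eventually_le_const hε)
    obtain ⟨k1, hk1⟩ := Filter.eventually_atTop.1 h5
    exact ⟨k1, fun k hk => by simpa using hk1 k hk⟩
  obtain ⟨k, hk, N, Y, hkY, hY, hdiv, htl, hmono⟩ := key ε (max k1 b) hε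
  have hkk1 : k1 ≤ k := le_trans (le_max_left _ _) hk
  have hkb : b ≤ k := le_trans (le_max_right _ _) hk
  obtain ⟨z1, hz1⟩ := expand A N k
  obtain ⟨z2, hz2⟩ := expand A 0 k
  obtain ⟨z3, hz3⟩ := expand B 0 k
  -- the middle sums
  have hmid : ∃ z : ℤ, ∑ j ∈ Ioc 0 k, (dA A (N + j) : ℝ) / 2 ^ j =
      z + ∑ j ∈ Ioc 0 k, (dA A (0 + j) : ℝ) / 2 ^ j - ∑ j ∈ Ioc 0 k, (dA B (0 + j) : ℝ) / 2 ^ j := by
    have h1 : ∀ j ∈ Ioc 0 k, ∃ z : ℤ, (dA A (N + j) : ℝ) / 2 ^ j =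
        z + (dA A (0 + j) : ℝ) / 2 ^ j - (dA B (0 + j) : ℝ) / 2 ^ j := by
      intro j hj
      rw [mem_Ioc] at hj
      obtain ⟨z, hz⟩ := hdiv j (by omega) hj.2
      refine ⟨2 ^ (k - j) * z, ?_⟩
      have hz' : (dA A (N + j) : ℝ) = 2 ^ k * z + dA A j - dA B j := by exact_mod_cast hz
      have : (2 : ℝ) ^ k = 2 ^ (k - j) * 2 ^ j := by rw [← pow_add]; congr 1; omega
      rw [hz', this, Nat.zero_add]
      push_cast
      field_simp
    choose! z hz using h1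
    refine ⟨∑ j ∈ Ioc 0 k, z j, ?_⟩
    rw [Finset.sum_congr rfl hz, Finset.sum_sub_distrib, Finset.sum_add_distrib]
    push_cast; rfl
  obtain ⟨z, hz⟩ := hmid
  -- positivity
  have hpos : 0 < tl A N k - tl A 0 k + tl B 0 k := by
    have h1 : tl A 0 k ≤ tl A N k + ((0 : ℕ) + (Y : ℝ) + 2) / 2 ^ Y := by
      rw [tl_split A 0 k Y hkY, tl_split A N k Y hkY]
      have h2 : ∑ j ∈ Ioc k Y, (dA A (0 + j) : ℝ) / 2 ^ j ≤
          ∑ j ∈ Ioc k Y, (dA A (N + j) : ℝ) / 2 ^ j := by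
        apply Finset.sum_le_sum
        intro j hj
        rw [mem_Ioc] at hj
        rw [Nat.zero_add]
        gcongr
        exact hmono j (by omega) hj.2
      have h3 := tl_le A 0 Y
      have h4 := tl_nonneg A N Y
      linarith
    have h2 : 1 / 2 ^ (2 * k) ≤ tl B 0 k := by
      have hj0 : k < b * (k / b + 1) := by
        have := Nat.div_add_mod k b
        have h3 := Nat.mod_lt k hb
        rw [mul_add, mul_one]; omega
      have hj1 : b * (k / b + 1) ≤ 2 * k := by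
        have := Nat.mul_div_le k b
        rw [mul_add, mul_one]; omega
      obtain ⟨i, hi⟩ : ∃ i, b * (k / b + 1) = k + 1 + i := ⟨b * (k / b + 1) - (k + 1), by omega⟩
      have h3 := (T8 B 0 k).1.le_tsum i (fun j _ => by positivity)
      refine le_trans ?_ h3
      have h4 : 1 ≤ dA B (0 + (k + 1 + i)) := by
        rw [Nat.zero_add]
        unfold dA
        refine Finset.card_pos.2 ⟨b, ?_⟩
        rw [mem_filter, Nat.mem_divisors]
        exact ⟨⟨⟨k / b + 1, hi.symm⟩, by omega⟩, hbB⟩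
      have h5 : (1 : ℝ) ≤ dA B (0 + (k + 1 + i)) := by exact_mod_cast h4
      have h6 : (2 : ℝ) ^ (k + 1 + i) ≤ 2 ^ (2 * k) := pow_le_pow_right₀ (by norm_num) (by omega)
      calc (1 : ℝ) / 2 ^ (2 * k) ≤ 1 / 2 ^ (k + 1 + i) := by gcongr
        _ ≤ _ := by gcongr
    have h3 : ((0 : ℕ) + (Y : ℝ) + 2) / 2 ^ Y = ((Y : ℝ) + 2) / 2 ^ Y := by simp
    rw [h3] at h1
    linarith
  have hsmall : tl A N k - tl A 0 k + tl B 0 k ≤ 2 * ε := by
    have h1 := tl_nonneg A 0 k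
    have h2 := (tl_le B 0 k).trans (hk1 k hkk1)
    linarith
  -- the integer
  have hint : s + D * (tl A N k - tl A 0 k + tl B 0 k) =
      ((2 ^ N * x.num - D * z1 - D * z + D * z2 - D * z3 : ℤ) : ℝ) := by
    push_cast
    rw [pow_zero, one_mul] at hz2 hz3
    rw [hs, ← hDS]
    linear_combination (D : ℝ) * hz1.symm + (D : ℝ) * hz2 - (D : ℝ) * hz3 - (D : ℝ) * hz
  generalize (2 ^ N * x.num - D * z1 - D * z + D * z2 - D * z3 : ℤ) = w at hint
  have h1 : s < w := by rw [← hint]; have := mul_pos hD' hpos; linarith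
  have h2 : (w : ℝ) < (⌊s⌋ : ℝ) + 1 := by
    rw [← hint]
    have : D * (tl A N k - tl A 0 k + tl B 0 k) ≤ D * (2 * ε) := by gcongr
    linarith
  have h3 : w < ⌊s⌋ + 1 := by exact_mod_cast h2
  have h4 : ⌊s⌋ < w := Int.floor_lt.2 h1
  omega

end Pool.Agent.H335R2.EM
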