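import Mathlib
import Pool.Agent.H335R2.EM.Defs

/-! Task H2 (helper954): greedy choice. -/

namespace Pool.Agent.H335R2.EM

open Finset

/-- one term -/
theorem H2_term {c q g B θ : ℝ} (hc : 0 < c) (hq : 0 < q) (hg : 0 < g) (hB : q ^ θ ≤ B) :
    (c / (q * g)) ^ (-θ) ≤ B * (c / g) ^ (-θ) := by
  have h1 : c / (q * g) = (c / g) * q⁻¹ := by field_simp
  have h2 : (0 : ℝ) ≤ c / g := by positivity
  rw [h1, Real.mul_rpow h2 (by positivity), Real.inv_rpow hq.le, Real.rpow_neg hq.le, inv_inv,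
    mul_comm]
  exact mul_le_mul_of_nonneg_right hB (Real.rpow_nonneg h2 _)

/-- effect of one new prime on one term -/
theorem H2_one {F : Finset ℕ} {q c : ℕ} {B θ : ℝ} (hF : ∀ p ∈ F, p.Prime) (hq : q.Prime)
    (hqF : q ∉ F) (hc : 0 < c) (hB : (q : ℝ) ^ θ ≤ B) :
    ((c / Nat.gcd c (∏ p ∈ insert q F, p) : ℕ) : ℝ) ^ (-θ) ≤
      ((c / Nat.gcd c (∏ p ∈ F, p) : ℕ) : ℝ) ^ (-θ) +
        (if q ∣ c then B * ((c / Nat.gcd c (∏ p ∈ F, p) : ℕ) : ℝ) ^ (-θ) else 0) := by
  have hcop : Nat.Coprime q (∏ p ∈ F, p) := by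
    rw [Nat.coprime_prod_right_iff]
    intro p hp
    exact (Nat.coprime_primes hq (hF p hp)).2 (fun h => hqF (h ▸ hp))
  rw [Finset.prod_insert hqF, Nat.Coprime.gcd_mul c hcop]
  set g := Nat.gcd c (∏ p ∈ F, p) with hg
  have hg0 : 0 < g := Nat.gcd_pos_of_pos_left _ hc
  have hgc : g ∣ c := Nat.gcd_dvd_left _ _
  have ht : (0 : ℝ) ≤ ((c / g : ℕ) : ℝ) ^ (-θ) := Real.rpow_nonneg (Nat.cast_nonneg _) _
  by_cases h : q ∣ c
  · rw [if_pos h, Nat.gcd_eq_right h]
    have hqg : q * g ∣ c := by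
      have h1 : Nat.Coprime q g := Nat.Coprime.coprime_dvd_right (Nat.gcd_dvd_right _ _) hcop
      exact Nat.Coprime.mul_dvd_of_dvd_of_dvd h1 h hgc
    have e1 : ((c / (q * g) : ℕ) : ℝ) = (c : ℝ) / ((q : ℝ) * g) := by
      rw [Nat.cast_div hqg (by
        have := hq.pos
        positivity)]
      push_cast
      ring
    have e2 : ((c / g : ℕ) : ℝ) = (c : ℝ) / g := by
      rw [Nat.cast_div hgc (by positivity)]
    rw [e2] at ht
    rw [e1, e2]
    have h3 := H2_term (c := (c : ℝ)) (q := (q : ℝ)) (g := (g : ℝ)) (B := B) (θ := θ)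
      (by exact_mod_cast hc) (by exact_mod_cast hq.pos) (by exact_mod_cast hg0) hB
    linarith
  · rw [if_neg h]
    have h1 : Nat.gcd c q = 1 := Nat.Coprime.symm ((Nat.Prime.coprime_iff_not_dvd hq).2 h)
    rw [h1, one_mul, add_zero]

theorem H2 (P C : Finset ℕ) (m w : ℕ) (B θ : ℝ) (hθ : 0 ≤ θ)
    (hP : ∀ q ∈ P, q.Prime ∧ (q : ℝ) ^ θ ≤ B)
    (hC : ∀ c ∈ C, 0 < c ∧ (P.filter (fun q => q ∣ c)).card ≤ w)
    (hm : 2 * m ≤ P.card) (hB : 4 * m * w * B ≤ P.card) :
    ∃ F, F ⊆ P ∧ F.card = m ∧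
      ∑ c ∈ C, ((c / Nat.gcd c (∏ q ∈ F, q) : ℕ) : ℝ) ^ (-θ) ≤ 2 * ∑ c ∈ C, (c : ℝ) ^ (-θ) := by
  classical
  set Ψ : Finset ℕ → ℝ := fun F => ∑ c ∈ C, ((c / Nat.gcd c (∏ q ∈ F, q) : ℕ) : ℝ) ^ (-θ) with hΨ
  have h0 : Ψ ∅ = ∑ c ∈ C, (c : ℝ) ^ (-θ) := by
    simp only [hΨ, Finset.prod_empty, Nat.gcd_one_right, Nat.div_one]
  have hnn : ∀ F, 0 ≤ Ψ F := fun F => Finset.sum_nonneg fun c _ =>
    Real.rpow_nonneg (Nat.cast_nonneg _) _
  rcases Nat.eq_zero_or_pos m with hm0 | hm0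
  · subst hm0
    refine ⟨∅, Finset.empty_subset _, rfl, ?_⟩
    have h1 := hnn ∅
    rw [← h0]
    change Ψ ∅ ≤ 2 * Ψ ∅
    linarith
  have hPc : (0 : ℝ) < P.card := by
    have : 0 < P.card := by omega
    exact_mod_cast this
  have hB0 : 0 ≤ B := by
    obtain ⟨q, hq⟩ : P.Nonempty := by
      rw [← Finset.card_pos]; omega
    exact (Real.rpow_nonneg (Nat.cast_nonneg _) _).trans (hP q hq).2
  set x : ℝ := 2 * w * B / P.card with hx
  have hx0 : 0 ≤ x := by positivity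
  have hmx : 2 * m * x ≤ 1 := by
    have : 2 * m * x = 4 * m * w * B / P.card := by rw [hx]; ring
    rw [this, div_le_one hPc]
    exact hB
  have key : ∀ i ≤ m, ∃ F, F ⊆ P ∧ F.card = i ∧ Ψ F ≤ (1 + 2 * i * x) * Ψ ∅ := by
    intro i
    induction i with
    | zero =>
      intro _
      exact ⟨∅, Finset.empty_subset _, rfl, by simp⟩
    | succ i ih =>
      intro hi
      obtain ⟨F, hF, hFc, hFΨ⟩ := ih (by omega)
      have hcard : (P \ F).card = P.card - i := by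
        rw [Finset.card_sdiff_of_subset hF, hFc]
      have hn0 : 0 < (P \ F).card := by omega
      have hne : (P \ F).Nonempty := Finset.card_pos.1 hn0
      have hnR : (P.card : ℝ) / 2 ≤ ((P \ F).card : ℝ) := by
        have h1 : P.card ≤ 2 * (P \ F).card := by omega
        have h2 : (P.card : ℝ) ≤ 2 * ((P \ F).card : ℝ) := by exact_mod_cast h1
        linarith
      have hsum : ∑ q ∈ P \ F, Ψ (insert q F) ≤ ∑ _q ∈ P \ F, (1 + x) * Ψ F := by
        have s1 : ∑ q ∈ P \ F, Ψ (insert q F) ≤ ∑ q ∈ P \ F, (Ψ F +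
            ∑ c ∈ C, (if q ∣ c then B * ((c / Nat.gcd c (∏ p ∈ F, p) : ℕ) : ℝ) ^ (-θ) else 0)) := by
          apply Finset.sum_le_sum
          intro q hq
          rw [Finset.mem_sdiff] at hq
          simp only [hΨ]
          rw [← Finset.sum_add_distrib]
          apply Finset.sum_le_sum
          intro c hc
          exact H2_one (fun p hp => (hP p (hF hp)).1) (hP q hq.1).1 hq.2 (hC c hc).1 (hP q hq.1).2
        have s2 : ∑ q ∈ P \ F, ∑ c ∈ C,
            (if q ∣ c then B * ((c / Nat.gcd c (∏ p ∈ F, p) : ℕ) : ℝ) ^ (-θ) else 0) ≤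
            w * B * Ψ F := by
          rw [Finset.sum_comm]
          simp only [hΨ]
          rw [Finset.mul_sum]
          apply Finset.sum_le_sum
          intro c hc
          rw [← Finset.sum_filter, Finset.sum_const, nsmul_eq_mul]
          have ht : (0 : ℝ) ≤ ((c / Nat.gcd c (∏ p ∈ F, p) : ℕ) : ℝ) ^ (-θ) :=
            Real.rpow_nonneg (Nat.cast_nonneg _) _
          have hw : (((P \ F).filter (fun q => q ∣ c)).card : ℝ) ≤ w := by
            have h1 : ((P \ F).filter (fun q => q ∣ c)).card ≤ (P.filter (fun q => q ∣ c)).card :=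
              Finset.card_le_card (Finset.filter_subset_filter _ Finset.sdiff_subset)
            exact_mod_cast h1.trans (hC c hc).2
          have h2 := mul_le_mul_of_nonneg_right hw (mul_nonneg hB0 ht)
          linarith
        rw [Finset.sum_add_distrib, Finset.sum_const, nsmul_eq_mul] at s1
        rw [Finset.sum_const, nsmul_eq_mul]
        have s3 : (w : ℝ) * B * Ψ F ≤ ((P \ F).card : ℝ) * (x * Ψ F) := by
          have h3 : (w : ℝ) * B = P.card / 2 * x := by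
            rw [hx]; field_simp
          rw [h3, mul_assoc]
          exact mul_le_mul_of_nonneg_right hnR (mul_nonneg hx0 (hnn F))
        nlinarith [s1, s2, s3]
      obtain ⟨q, hq, hqle⟩ := Finset.exists_le_of_sum_le hne hsum
      rw [Finset.mem_sdiff] at hq
      refine ⟨insert q F, Finset.insert_subset hq.1 hF, by
        rw [Finset.card_insert_of_notMem hq.2, hFc], ?_⟩
      refine hqle.trans ?_
      have h4 : (1 + x) * Ψ F ≤ (1 + x) * ((1 + 2 * i * x) * Ψ ∅) :=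
        mul_le_mul_of_nonneg_left hFΨ (by linarith)
      refine h4.trans ?_
      rw [← mul_assoc]
      apply mul_le_mul_of_nonneg_right _ (hnn ∅)
      have h5 : 2 * (i : ℝ) * x ≤ 1 := by
        refine le_trans ?_ hmx
        have : (i : ℝ) ≤ m := by exact_mod_cast (by omega : i ≤ m)
        nlinarith
      push_cast
      nlinarith [mul_le_mul_of_nonneg_left h5 hx0]
  obtain ⟨F, hF, hFc, hFΨ⟩ := key m le_rfl
  refine ⟨F, hF, hFc, ?_⟩
  rw [← h0]
  change Ψ F ≤ 2 * Ψ ∅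
  refine hFΨ.trans ?_
  apply mul_le_mul_of_nonneg_right _ (hnn ∅)
  linarith

end Pool.Agent.H335R2.EM
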