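import Mathlib
import Pool.Agent.H335R2.EM.Defs

/-! Task H3 (helper85): Chinese remainder theorem with an extra modulus (adapted from G4). -/

namespace Pool.Agent.H335R2.EM

open Finset

theorem H3 (K k L : ℕ) (F : Finset ℕ) (hF : F.card = k * (K * (k + 1)))
    (hp : ∀ q ∈ F, q.Prime ∧ 2 ^ k < q) (hL : 0 < L) (hc : ∀ q ∈ F, Nat.Coprime q L) :
    ∃ r : ℕ, r < L * (∏ q ∈ F, q) ^ 2 ∧ L ∣ r ∧ ∀ t : ℕ,
      (∀ j, 1 ≤ j → j ≤ k → ∃ s : Finset ℕ, s ⊆ F ∧ s.card = K * (k + 1) ∧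
        ∀ q ∈ s, q ∣ r + L * (∏ q ∈ F, q) ^ 2 * t + j ∧ ¬ q ^ 2 ∣ r + L * (∏ q ∈ F, q) ^ 2 * t + j) ∧
      (∀ j, 1 ≤ j → j ≤ k → ∀ q ∈ F, ¬ q ^ 2 ∣ r + L * (∏ q ∈ F, q) ^ 2 * t + j) ∧
      (∀ j, k < j → j ≤ 2 ^ k → Nat.Coprime (r + L * (∏ q ∈ F, q) ^ 2 * t + j) (∏ q ∈ F, q)) := by
  classical
  have hcard : Fintype.card F = Fintype.card (Fin k × Fin (K * (k + 1))) := by
    rw [Fintype.card_coe, hF, Fintype.card_prod, Fintype.card_fin, Fintype.card_fin]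
  have hm : (∏ q ∈ F, q) ^ 2 = ∏ q ∈ F, q ^ 2 := by
    rw [Finset.prod_pow]
  obtain ⟨m, hmdef⟩ : ∃ m : ℕ, m = (∏ q ∈ F, q) ^ 2 := ⟨_, rfl⟩
  rw [← hmdef]
  rw [← hmdef] at hm
  have hcop : Nat.Coprime m L := by
    rw [hmdef]
    exact Nat.Coprime.pow_left 2 (Nat.Coprime.prod_left fun q hq => hc q hq)
  have hm0 : m ≠ 0 := by
    rw [hm]
    exact Finset.prod_ne_zero_iff.2 fun q hq => pow_ne_zero _ (hp q hq).1.ne_zero
  have e : F ≃ Fin k × Fin (K * (k + 1)) := Fintype.equivOfCardEq hcard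
  let a : ℕ → ℕ := fun q => if h' : q ∈ F then
    q + q ^ 2 * k - (((e ⟨q, h'⟩).1 : ℕ) + 1) else 0
  have hne : ∀ q ∈ F, q ^ 2 ≠ 0 := fun q hq => pow_ne_zero _ (hp q hq).1.ne_zero
  have hpp : Set.Pairwise (F : Set ℕ) (Function.onFun Nat.Coprime (fun q => q ^ 2)) := by
    intro q hq q' hq' hqq
    exact Nat.Coprime.pow _ _ ((Nat.coprime_primes (hp q hq).1 (hp q' hq').1).mpr hqq)
  let R0 := Nat.chineseRemainderOfFinset a (fun q => q ^ 2) F hne hpp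
  have hR0 : ∀ q ∈ F, (R0 : ℕ) ≡ a q [MOD q ^ 2] := R0.2
  obtain ⟨R, ⟨hRm, hRL⟩, hRlt⟩ : ∃ R : ℕ, (R ≡ (R0 : ℕ) [MOD m] ∧ R ≡ 0 [MOD L]) ∧ R < m * L :=
    ⟨Nat.chineseRemainder hcop (R0 : ℕ) 0, (Nat.chineseRemainder hcop (R0 : ℕ) 0).2,
      Nat.chineseRemainder_lt_mul hcop _ _ hm0 hL.ne'⟩
  have hR : ∀ q ∈ F, R ≡ a q [MOD q ^ 2] := by
    intro q hq
    have hd : q ^ 2 ∣ m := by
      rw [hm]
      exact Finset.dvd_prod_of_mem (fun q => q ^ 2) hq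
    exact (hRm.of_dvd hd).trans (hR0 q hq)
  -- the key congruence
  have key : ∀ (t : ℕ) (q : ℕ) (h' : q ∈ F),
      R + L * m * t + (((e ⟨q, h'⟩).1 : ℕ) + 1) ≡ q [MOD q ^ 2] := by
    intro t q h'
    have hqp := (hp q h').1
    set i := ((e ⟨q, h'⟩).1 : ℕ) + 1 with hi
    have hik : i ≤ k := (e ⟨q, h'⟩).1.2
    have hbig : i ≤ q + q ^ 2 * k := by
      have h1 : 1 ≤ q ^ 2 := Nat.one_le_pow _ _ hqp.pos
      have h1' : 1 * k ≤ q ^ 2 * k := Nat.mul_le_mul_right k h1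
      rw [one_mul] at h1'
      exact (hik.trans h1').trans (Nat.le_add_left _ _)
    have haq : a q = q + q ^ 2 * k - i := by
      show (if h' : q ∈ F then q + q ^ 2 * k - (((e ⟨q, h'⟩).1 : ℕ) + 1) else 0) = _
      rw [dif_pos h']
    have hdvd : q ^ 2 ∣ L * m * t := by
      rw [hm]
      exact Dvd.dvd.mul_right (Dvd.dvd.mul_left (Finset.dvd_prod_of_mem (fun q => q ^ 2) h') L) t
    have h2 : L * m * t ≡ 0 [MOD q ^ 2] := (Nat.modEq_zero_iff_dvd).mpr hdvd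
    calc R + L * m * t + i ≡ a q + 0 + i [MOD q ^ 2] :=
          ((hR q h').add h2).add_right i
      _ = q + q ^ 2 * k := by rw [haq]; omega
      _ ≡ q + 0 [MOD q ^ 2] :=
          Nat.ModEq.add_left _ ((Nat.modEq_zero_iff_dvd).mpr (Dvd.intro _ rfl))
      _ = q := by rw [add_zero]
  have hnot : ∀ q ∈ F, ¬ q ^ 2 ∣ q := by
    intro q hq hdv
    have hqp := (hp q hq).1
    have h4 := Nat.le_of_dvd hqp.pos hdv
    have h5 := hqp.two_le
    nlinarith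
  have hdvq : ∀ (t : ℕ) (q : ℕ) (h' : q ∈ F),
      q ∣ R + L * m * t + (((e ⟨q, h'⟩).1 : ℕ) + 1) := by
    intro t q h'
    have h3 : R + L * m * t + (((e ⟨q, h'⟩).1 : ℕ) + 1) ≡ q [MOD q] :=
      (key t q h').of_dvd (dvd_pow_self q (by norm_num))
    have h4 : q ≡ 0 [MOD q] := (Nat.modEq_zero_iff_dvd).mpr dvd_rfl
    exact (Nat.modEq_zero_iff_dvd).mp (h3.trans h4)
  have hsq : ∀ (t : ℕ) (q : ℕ) (h' : q ∈ F),
      ¬ q ^ 2 ∣ R + L * m * t + (((e ⟨q, h'⟩).1 : ℕ) + 1) := by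
    intro t q h' hdv
    exact hnot q h' (((key t q h').dvd_iff dvd_rfl).mp hdv)
  -- two indices
  have huniq : ∀ (t : ℕ) (q : ℕ) (h' : q ∈ F) (j : ℕ), j ≤ 2 ^ k →
      q ∣ R + L * m * t + j → j = ((e ⟨q, h'⟩).1 : ℕ) + 1 := by
    intro t q h' j hj hdv
    have hd2 := hdvq t q h'
    have hik : ((e ⟨q, h'⟩).1 : ℕ) + 1 ≤ k := (e ⟨q, h'⟩).1.2
    have hk2 : k < 2 ^ k := Nat.lt_two_pow_self
    have h9 := (hp q h').2
    generalize ((e ⟨q, h'⟩).1 : ℕ) + 1 = i at hd2 hik ⊢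
    by_contra hne
    rcases lt_or_gt_of_ne hne with h | h
    · have h6 : q ∣ (R + L * m * t + i) - (R + L * m * t + j) := Nat.dvd_sub hd2 hdv
      have h7 : (R + L * m * t + i) - (R + L * m * t + j) = i - j := by omega
      rw [h7] at h6
      have h8 := Nat.le_of_dvd (by omega) h6
      omega
    · have h6 : q ∣ (R + L * m * t + j) - (R + L * m * t + i) := Nat.dvd_sub hdv hd2
      have h7 : (R + L * m * t + j) - (R + L * m * t + i) = j - i := by omega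
      rw [h7] at h6
      have h8 := Nat.le_of_dvd (by omega) h6
      omega
  have hk2 : k < 2 ^ k := Nat.lt_two_pow_self
  refine ⟨R, by rw [mul_comm]; exact hRlt, (Nat.modEq_zero_iff_dvd).mp hRL,
    fun t => ⟨?_, ?_, ?_⟩⟩
  · intro j hj1 hjk
    have hjlt : j - 1 < k := by omega
    let g : Fin (K * (k + 1)) → ℕ := fun x => ((e.symm (⟨j - 1, hjlt⟩, x) : F) : ℕ)
    have hg : Function.Injective g := by
      intro x y hxy
      have h1 : e.symm (⟨j - 1, hjlt⟩, x) = e.symm (⟨j - 1, hjlt⟩, y) := Subtype.ext hxy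
      have h2 := e.symm.injective h1
      exact (Prod.mk.inj h2).2
    refine ⟨Finset.univ.image g, ?_, ?_, ?_⟩
    · intro q hq
      obtain ⟨x, -, rfl⟩ := Finset.mem_image.mp hq
      exact (e.symm (⟨j - 1, hjlt⟩, x)).2
    · rw [Finset.card_image_of_injective _ hg, Finset.card_univ, Fintype.card_fin]
    · intro q hq
      obtain ⟨x, -, rfl⟩ := Finset.mem_image.mp hq
      have hmem : g x ∈ F := (e.symm (⟨j - 1, hjlt⟩, x)).2
      have hidx : (((e ⟨g x, hmem⟩).1 : ℕ) + 1) = j := by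
        have h1 : (⟨g x, hmem⟩ : F) = e.symm (⟨j - 1, hjlt⟩, x) := rfl
        rw [h1, Equiv.apply_symm_apply]
        show j - 1 + 1 = j
        omega
      have h1 := hdvq t (g x) hmem
      have h2 := hsq t (g x) hmem
      rw [hidx] at h1 h2
      exact ⟨h1, h2⟩
  · intro j hj1 hjk q hq hdv
    have h1 : q ∣ R + L * m * t + j := (dvd_pow_self q (by norm_num)).trans hdv
    have h2 := huniq t q hq j (by omega) h1
    have h3 := hsq t q hq
    rw [← h2] at h3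
    exact h3 hdv
  · intro j hkj hj2
    refine Nat.Coprime.prod_right fun q hq => ?_
    have hqp := (hp q hq).1
    rw [Nat.coprime_comm, Nat.Prime.coprime_iff_not_dvd hqp]
    intro hdv
    have h2 := huniq t q hq j hj2 hdv
    have hik : ((e ⟨q, hq⟩).1 : ℕ) + 1 ≤ k := (e ⟨q, hq⟩).1.2
    omega

end Pool.Agent.H335R2.EM
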