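import Mathlib
import Pool.Agent.H335R2.EM.Defs

/-! H5 (helper997, after T5): average of the divisor function along a progression, with gcds. -/

namespace Pool.Agent.H335R2.EM

open Finset

theorem H5_card (n T : ℕ) (hn : n ≤ T ^ 2) :
    n.divisors.card ≤ 2 * ((Icc 1 T).filter (fun a => a ∣ n)).card := by
  classical
  have hsplit : n.divisors = n.divisors.filter (fun a => a ≤ T) ∪
      n.divisors.filter (fun a => ¬ a ≤ T) := (filter_union_filter_not_eq _ _).symm
  have h1 : (n.divisors.filter (fun a => a ≤ T)).card ≤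
      ((Icc 1 T).filter (fun a => a ∣ n)).card := by
    apply card_le_card
    intro a ha
    simp only [mem_filter, Nat.mem_divisors, mem_Icc] at ha ⊢
    exact ⟨⟨Nat.pos_of_dvd_of_pos ha.1.1 (Nat.pos_of_ne_zero ha.1.2), ha.2⟩, ha.1.1⟩
  have h2 : (n.divisors.filter (fun a => ¬ a ≤ T)).card ≤
      ((Icc 1 T).filter (fun a => a ∣ n)).card := by
    apply card_le_card_of_injOn (fun a => n / a)
    · intro a ha
      simp only [coe_filter, Nat.mem_divisors, Set.mem_setOf_eq, not_le] at ha
      simp only [coe_filter, mem_Icc, Set.mem_setOf_eq]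
      obtain ⟨⟨hd, h0⟩, hT⟩ := ha
      have hpos : 0 < a := by omega
      refine ⟨⟨?_, ?_⟩, Nat.div_dvd_of_dvd hd⟩
      · exact Nat.div_pos (Nat.le_of_dvd (Nat.pos_of_ne_zero h0) hd) hpos
      · by_contra hcon
        push Not at hcon
        have h3 : a * (n / a) = n := Nat.mul_div_cancel' hd
        have h4 : (T + 1) * (T + 1) ≤ a * (n / a) := Nat.mul_le_mul (by omega) (by omega)
        nlinarith
    · intro a ha b hb hab
      simp only [coe_filter, Nat.mem_divisors, Set.mem_setOf_eq, not_le] at ha hb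
      simp only at hab
      have h3 : a * (n / a) = n := Nat.mul_div_cancel' ha.1.1
      have h4 : b * (n / b) = n := Nat.mul_div_cancel' hb.1.1
      rw [hab] at h3
      have h5 : n / b ≠ 0 := by
        intro h
        rw [h, mul_zero] at h4
        exact hb.1.2 h4.symm
      exact Nat.eq_of_mul_eq_mul_right (Nat.pos_of_ne_zero h5) (h3.trans h4.symm)
  calc n.divisors.card ≤ (n.divisors.filter (fun a => a ≤ T)).card +
      (n.divisors.filter (fun a => ¬ a ≤ T)).card := by
        conv_lhs => rw [hsplit]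
        exact card_union_le _ _
    _ ≤ _ := by omega

theorem H5_count (W r j T G a : ℕ) (ha : 1 ≤ a) (hW : 0 < W)
    (hg : ∀ t, Nat.gcd (r + W * t + j) W ≤ G) :
    (((range T).filter (fun t => a ∣ r + W * t + j)).card : ℝ) ≤ (G : ℝ) * T * (a : ℝ)⁻¹ + 1 := by
  classical
  rcases ((range T).filter (fun t => a ∣ r + W * t + j)).eq_empty_or_nonempty with h | h
  · rw [h]
    simp only [card_empty, Nat.cast_zero]
    positivity
  · obtain ⟨t0, ht0⟩ := h
    simp only [mem_filter, mem_range] at ht0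
    have hgG : Nat.gcd a W ≤ G :=
      (Nat.le_of_dvd (Nat.gcd_pos_of_pos_right _ hW)
        (Nat.gcd_dvd_gcd_of_dvd_left W ht0.2)).trans (hg t0)
    have hgpos : 0 < Nat.gcd a W := Nat.gcd_pos_of_pos_right _ hW
    set q : ℕ := a / Nat.gcd a W with hq
    have hqg : q * Nat.gcd a W = a := Nat.div_mul_cancel (Nat.gcd_dvd_left a W)
    have hqpos : 0 < q := Nat.pos_of_ne_zero (by
      intro h0
      rw [h0, zero_mul] at hqg
      omega)
    have hmod : ∀ t ∈ (range T).filter (fun t => a ∣ r + W * t + j), t ≡ t0 [MOD q] := by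
      intro t ht
      simp only [mem_filter, mem_range] at ht
      have h1 : r + W * t + j ≡ r + W * t0 + j [MOD a] :=
        ((Nat.modEq_zero_iff_dvd).2 ht.2).trans ((Nat.modEq_zero_iff_dvd).2 ht0.2).symm
      have h2 : r + W * t ≡ r + W * t0 [MOD a] := Nat.ModEq.add_right_cancel' j h1
      have h3 : W * t ≡ W * t0 [MOD a] := Nat.ModEq.add_left_cancel' r h2
      exact Nat.ModEq.cancel_left_div_gcd (by omega) h3
    have hcard : ((range T).filter (fun t => a ∣ r + W * t + j)).card ≤ T / q + 1 := by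
      have : ((range T).filter (fun t => a ∣ r + W * t + j)).card ≤ (range (T / q + 1)).card := by
        apply card_le_card_of_injOn (fun t => t / q)
        · intro t ht
          simp only [coe_filter, mem_range, Set.mem_setOf_eq] at ht
          simp only [coe_range, Set.mem_Iio]
          exact Nat.lt_succ_of_le (Nat.div_le_div_right ht.1.le)
        · intro s hs t ht hst
          have h1 := hmod s (by exact_mod_cast hs)
          have h2 := hmod t (by exact_mod_cast ht)
          have h3 : s % q = t % q := h1.trans h2.symm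
          simp only at hst
          rw [← Nat.div_add_mod s q, ← Nat.div_add_mod t q, hst, h3]
      rwa [card_range] at this
    have hqR : (0 : ℝ) < q := by exact_mod_cast hqpos
    have haR : (0 : ℝ) < a := by exact_mod_cast ha
    have hqgR : (q : ℝ) * (Nat.gcd a W : ℝ) = a := by exact_mod_cast hqg
    have hgGR : (Nat.gcd a W : ℝ) ≤ G := by exact_mod_cast hgG
    have hTR : (0 : ℝ) ≤ T := Nat.cast_nonneg _
    calc (((range T).filter (fun t => a ∣ r + W * t + j)).card : ℝ)
        ≤ ((T / q + 1 : ℕ) : ℝ) := by exact_mod_cast hcard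
      _ = ((T / q : ℕ) : ℝ) + 1 := by push_cast; ring
      _ ≤ (T : ℝ) / q + 1 := by
        have : ((T / q : ℕ) : ℝ) ≤ (T : ℝ) / q := Nat.cast_div_le
        linarith
      _ ≤ _ := by
        have h5 : (T : ℝ) / q ≤ (G : ℝ) * T * (a : ℝ)⁻¹ := by
          rw [← div_eq_mul_inv, div_le_div_iff₀ hqR haR, ← hqgR]
          have h6 : (T : ℝ) * (q * (Nat.gcd a W : ℝ)) = (Nat.gcd a W : ℝ) * (T * q) := by ring
          have h7 : (G : ℝ) * T * q = G * (T * q) := by ring
          rw [h6, h7]
          exact mul_le_mul_of_nonneg_right hgGR (mul_nonneg hTR hqR.le)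
        linarith

theorem H5 (W r j T G : ℕ) (hW : 0 < W) (hT : 1 ≤ T) (hG : 1 ≤ G)
    (hg : ∀ t, Nat.gcd (r + W * t + j) W ≤ G) (hb : r + W * T + j ≤ T ^ 2) :
    ∑ t ∈ range T, ((r + W * t + j).divisors.card : ℝ) ≤ 2 * G * T * (2 + Real.log T) := by
  classical
  have h1 : ∀ t ∈ range T, ((r + W * t + j).divisors.card : ℝ) ≤
      2 * ∑ a ∈ Icc 1 T, (if a ∣ r + W * t + j then (1 : ℝ) else 0) := by
    intro t ht
    have h2 : r + W * t + j ≤ T ^ 2 := by
      have h3 : W * t ≤ W * T := Nat.mul_le_mul_left _ (mem_range.1 ht).le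
      omega
    have h3 := H5_card _ T h2
    have h4 : (((Icc 1 T).filter (fun a => a ∣ r + W * t + j)).card : ℝ) =
        ∑ a ∈ Icc 1 T, (if a ∣ r + W * t + j then (1 : ℝ) else 0) := by
      rw [card_filter]
      push_cast
      rfl
    rw [← h4]
    exact_mod_cast h3
  have h2 : ∑ t ∈ range T, ((r + W * t + j).divisors.card : ℝ) ≤
      2 * ∑ a ∈ Icc 1 T, ∑ t ∈ range T, (if a ∣ r + W * t + j then (1 : ℝ) else 0) := by
    calc ∑ t ∈ range T, ((r + W * t + j).divisors.card : ℝ)
        ≤ ∑ t ∈ range T, 2 * ∑ a ∈ Icc 1 T, (if a ∣ r + W * t + j then (1 : ℝ) else 0) :=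
          sum_le_sum h1
      _ = 2 * ∑ t ∈ range T, ∑ a ∈ Icc 1 T, (if a ∣ r + W * t + j then (1 : ℝ) else 0) := by
          rw [mul_sum]
      _ = _ := by rw [sum_comm]
  have h3 : ∀ a ∈ Icc 1 T, ∑ t ∈ range T, (if a ∣ r + W * t + j then (1 : ℝ) else 0) ≤
      (G : ℝ) * T * (a : ℝ)⁻¹ + 1 := by
    intro a ha
    have h4 := H5_count W r j T G a (mem_Icc.1 ha).1 hW hg
    rw [card_filter] at h4
    push_cast at h4
    exact h4
  have hGR : (1 : ℝ) ≤ G := by exact_mod_cast hG
  have hTR : (0 : ℝ) ≤ T := Nat.cast_nonneg _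
  have h4 : ∑ a ∈ Icc 1 T, ∑ t ∈ range T, (if a ∣ r + W * t + j then (1 : ℝ) else 0) ≤
      (G : ℝ) * T * (2 + Real.log T) := by
    calc ∑ a ∈ Icc 1 T, ∑ t ∈ range T, (if a ∣ r + W * t + j then (1 : ℝ) else 0)
        ≤ ∑ a ∈ Icc 1 T, ((G : ℝ) * T * (a : ℝ)⁻¹ + 1) := sum_le_sum h3
      _ = (G : ℝ) * T * ∑ a ∈ Icc 1 T, (a : ℝ)⁻¹ + T := by
        rw [sum_add_distrib, mul_sum]
        simp
      _ ≤ (G : ℝ) * T * (1 + Real.log T) + G * T := by
        have h5 : ∑ a ∈ Icc 1 T, (a : ℝ)⁻¹ ≤ 1 + Real.log T := by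
          have h6 := harmonic_le_one_add_log T
          rw [harmonic_eq_sum_Icc] at h6
          push_cast at h6
          exact h6
        have h7 : (0 : ℝ) ≤ G * T := mul_nonneg (by linarith) hTR
        have h8 : (G : ℝ) * T * ∑ a ∈ Icc 1 T, (a : ℝ)⁻¹ ≤ G * T * (1 + Real.log T) :=
          mul_le_mul_of_nonneg_left h5 h7
        have h9 : (T : ℝ) ≤ G * T := by nlinarith
        linarith
      _ = _ := by ring
  calc _ ≤ _ := h2
    _ ≤ 2 * ((G : ℝ) * T * (2 + Real.log T)) := by linarith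
    _ = _ := by ring

end Pool.Agent.H335R2.EM
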