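import Mathlib
import Pool.Agent.H335R2.EM.Defs
import Pool.Agent.H335R2.EM.H5

namespace Pool.Agent.H335R2.EM

open Finset

theorem H6_geom (k n : ℕ) (h : k ≤ n) :
    ∑ j ∈ Ioc k n, (j : ℝ) / 2 ^ j = ((k : ℝ) + 2) / 2 ^ k - ((n : ℝ) + 2) / 2 ^ n := by
  induction n, h using Nat.le_induction with
  | base => simp
  | succ n hn ih =>
    rw [Finset.sum_Ioc_succ_top hn, ih, pow_succ]
    push_cast
    field_simp
    ring

/-- H6. choice of `t` outside of the bad set (uses H5). -/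
theorem H6 (W r k T : ℕ) (hW : 0 < W) (hT : 1 ≤ T)
    (hg : ∀ j, k < j → j ≤ 2 ^ k → ∀ t, Nat.gcd (r + W * t + j) W ≤ j)
    (hb : r + W * T + 2 ^ k ≤ T ^ 2) (bad : Finset ℕ) (hbad : 2 * bad.card ≤ T) :
    ∃ t < T, t ∉ bad ∧ ∑ j ∈ Ioc k (2 ^ k), ((r + W * t + j).divisors.card : ℝ) / 2 ^ j ≤
      4 * (2 + Real.log T) * (k + 2) / 2 ^ k := by
  classical
  have hk : k ≤ 2 ^ k := le_of_lt Nat.lt_two_pow_self
  have hT' : (1 : ℝ) ≤ T := by exact_mod_cast hT
  have hlog : 0 ≤ Real.log T := Real.log_nonneg hT'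
  have h1 : ∑ t ∈ range T, ∑ j ∈ Ioc k (2 ^ k), ((r + W * t + j).divisors.card : ℝ) / 2 ^ j ≤
      2 * T * (2 + Real.log T) * (((k : ℝ) + 2) / 2 ^ k) := by
    rw [Finset.sum_comm]
    have h2 : ∀ j ∈ Ioc k (2 ^ k),
        ∑ t ∈ range T, ((r + W * t + j).divisors.card : ℝ) / 2 ^ j ≤
          2 * T * (2 + Real.log T) * ((j : ℝ) / 2 ^ j) := by
      intro j hj
      rw [Finset.mem_Ioc] at hj
      have h3 := H5 W r j T j hW hT (by omega) (hg j hj.1 hj.2) (by omega)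
      rw [← Finset.sum_div]
      have h4 : (2 : ℝ) * T * (2 + Real.log T) * ((j : ℝ) / 2 ^ j) =
          (2 * (j : ℝ) * T * (2 + Real.log T)) / 2 ^ j := by ring
      rw [h4]
      exact div_le_div_of_nonneg_right h3 (by positivity)
    refine (Finset.sum_le_sum h2).trans ?_
    rw [← Finset.mul_sum, H6_geom k (2 ^ k) hk]
    have h4 : ((k : ℝ) + 2) / 2 ^ k - (((2 ^ k : ℕ) : ℝ) + 2) / 2 ^ (2 ^ k) ≤
        ((k : ℝ) + 2) / 2 ^ k := by
      have : (0 : ℝ) ≤ (((2 ^ k : ℕ) : ℝ) + 2) / 2 ^ (2 ^ k) := by positivity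
      linarith
    exact mul_le_mul_of_nonneg_left h4 (by positivity)
  by_contra hcon
  push Not at hcon
  obtain ⟨f, hf⟩ : ∃ f : ℕ → ℝ, f = fun t =>
    ∑ j ∈ Ioc k (2 ^ k), ((r + W * t + j).divisors.card : ℝ) / 2 ^ j := ⟨_, rfl⟩
  have hf0 : ∀ t, 0 ≤ f t := fun t => by
    rw [hf]
    exact Finset.sum_nonneg fun j _ => by positivity
  have h1' : ∑ t ∈ range T, f t ≤ 2 * T * (2 + Real.log T) * (((k : ℝ) + 2) / 2 ^ k) := by
    rw [hf]; exact h1
  have hgood : (T : ℝ) / 2 ≤ ((range T \ bad).card : ℝ) := by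
    have h5 : T ≤ (range T \ bad).card + bad.card := by
      have := Finset.le_card_sdiff bad (range T)
      rw [Finset.card_range] at this
      omega
    have h6 : T ≤ 2 * (range T \ bad).card := by omega
    have h7 : (T : ℝ) ≤ 2 * ((range T \ bad).card : ℝ) := by exact_mod_cast h6
    linarith
  obtain ⟨B, hB⟩ : ∃ B : ℝ, B = 4 * (2 + Real.log T) * (k + 2) / 2 ^ k := ⟨_, rfl⟩
  have hB0 : 0 < B := by rw [hB]; positivity
  have hne : (range T \ bad).Nonempty := by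
    rw [← Finset.card_pos]
    have : (0 : ℝ) < ((range T \ bad).card : ℝ) := by linarith
    exact_mod_cast this
  have h8 : ∑ t ∈ range T \ bad, B < ∑ t ∈ range T \ bad, f t := by
    apply Finset.sum_lt_sum_of_nonempty hne
    intro t ht
    rw [Finset.mem_sdiff, Finset.mem_range] at ht
    rw [hB, hf]
    exact hcon t ht.1 ht.2
  rw [Finset.sum_const, nsmul_eq_mul] at h8
  have h9 : ∑ t ∈ range T \ bad, f t ≤ ∑ t ∈ range T, f t :=
    Finset.sum_le_sum_of_subset_of_nonneg Finset.sdiff_subset (fun t _ _ => hf0 t)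
  have h10 : (T : ℝ) / 2 * B ≤ ((range T \ bad).card : ℝ) * B :=
    mul_le_mul_of_nonneg_right hgood hB0.le
  have h11 : (T : ℝ) / 2 * B = 2 * T * (2 + Real.log T) * (((k : ℝ) + 2) / 2 ^ k) := by
    rw [hB]; ring
  linarith

end Pool.Agent.H335R2.EM
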