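import Mathlib

set_option autoImplicit false
set_option maxHeartbeats 4000000

namespace Pool.Agent.H335R2.EM

open Finset

theorem H7_P (c : ℝ) (n : ℕ) (r : ℝ) (hr : 1 < r) (δ : ℝ) (hδ : 0 < δ) :
    ∀ᶠ k : ℕ in Filter.atTop, c * (k : ℝ) ^ n ≤ δ * r ^ k := by
  have h1 := tendsto_pow_const_div_const_pow_of_one_lt n hr
  have h2 : (0 : ℝ) < δ / (|c| + 1) := by positivity
  have h3 := h1.eventually (gt_mem_nhds h2)
  filter_upwards [h3] with k hk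
  have hrk : 0 < r ^ k := by positivity
  rw [div_lt_div_iff₀ hrk (by positivity)] at hk
  have h4 : 0 ≤ (k : ℝ) ^ n := by positivity
  have h5 : c * (k : ℝ) ^ n ≤ |c| * (k : ℝ) ^ n := mul_le_mul_of_nonneg_right (le_abs_self c) h4
  nlinarith

theorem H7_fact (Y : ℕ) : Y.factorial ≤ 2 ^ (Y * Y) := by
  have h1 : Y.factorial ≤ Y ^ Y := Nat.factorial_le_pow Y
  have h2 : Y ^ Y ≤ (2 ^ Y) ^ Y := Nat.pow_le_pow_left (Nat.lt_two_pow_self).le Y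
  rw [← pow_mul] at h2
  exact h1.trans h2

theorem H7 (K : ℕ) (θ η σ ε : ℝ) (hθ : 0 < θ) (hη : 0 < η) (hθη : θ + η < 1) (hσ : 0 < σ)
    (hε : 0 < ε) :
    ∃ k0 : ℕ, ∀ k : ℕ, k0 ≤ k → ∃ Y T : ℕ, k ≤ Y ∧ 1 ≤ T ∧ Y ≤ 2 ^ k ∧
      ((Y : ℝ) + 2) / 2 ^ Y < 1 / 2 ^ (2 * k) ∧
      4 * ((k * (K * (k + 1)) : ℕ) : ℝ) * ((Nat.log 2 (T ^ 2) : ℕ) : ℝ) * 2 ^ ((θ + η) * (k + 1)) ≤
        2 ^ ((θ + 3 * η) * k) ∧
      2 * ((k * (K * (k + 1)) : ℕ) : ℝ) ≤ 2 ^ ((θ + 3 * η) * k) ∧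
      4 * (2 + Real.log T) * (k + 2) / 2 ^ k ≤ ε ∧
      ((T : ℝ) ^ 2 + 2 ^ k + 2) / 2 ^ (2 ^ k) ≤ ε ∧
      16 * (k : ℝ) ^ 2 * (σ * (Y : ℝ) ^ (-η)) ≤ 1 ∧
      ∀ M : ℕ, M ≤ 2 ^ (K * (k + 1) ^ 3) →
        Y.factorial * M ^ 2 * (T + 1) + 2 ^ k ≤ T ^ 2 ∧
        8 * (k : ℝ) * (σ * ((Y.factorial * M ^ 2 * (T + 1) : ℕ) : ℝ) ^ θ) ≤ T := by
  obtain ⟨a0, ha0⟩ := exists_nat_ge (3 / η)
  obtain ⟨a, ha⟩ : ∃ a : ℕ, a = a0 + 2 := ⟨_, rfl⟩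
  have haη : 3 ≤ (a : ℝ) * η := by
    rw [div_le_iff₀ hη] at ha0
    have : (a0 : ℝ) ≤ a := by rw [ha]; push_cast; linarith
    nlinarith
  obtain ⟨b, hb⟩ : ∃ b : ℕ, b = 2 * a + 4 := ⟨_, rfl⟩
  have r5 : (1 : ℝ) < 2 ^ (2 * η) := Real.one_lt_rpow (by norm_num) (by linarith)
  have r6 : (1 : ℝ) < 2 ^ (θ + 3 * η) := Real.one_lt_rpow (by norm_num) (by linarith)
  have e5 := H7_P (16 * K * 2 ^ (θ + η)) (b + 2) _ r5 1 one_pos
  have e6 := H7_P (4 * K) 2 _ r6 1 one_pos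
  have e7 := H7_P 36 (b + 1) 2 (by norm_num) ε hε
  have e8 := H7_P 5 b 2 (by norm_num) 1 one_pos
  have e8' := H7_P 1 0 2 (by norm_num) ε hε
  have e3 := H7_P 8 a 2 (by norm_num) 1 one_pos
  have e10 := H7_P (8 * σ) 1 2 (by norm_num) 1 one_pos
  obtain ⟨n9, hn9⟩ := exists_nat_ge (16 * σ)
  obtain ⟨n10, hn10⟩ := exists_nat_ge ((3 + 16 * K) / (1 - θ))
  have e9 := Filter.eventually_ge_atTop (n9 + n10 + 3)
  have hall := (e5.and (e6.and (e7.and (e8.and (e8'.and (e3.and (e10.and e9)))))))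
  obtain ⟨k0, hk0⟩ := Filter.eventually_atTop.1 hall
  refine ⟨k0, fun k hk => ?_⟩
  obtain ⟨f5, f6, f7, f8, f8', f3, f10, f9⟩ := hk0 k hk
  have hk3 : 3 ≤ k := by omega
  have hkr : (3 : ℝ) ≤ k := by exact_mod_cast hk3
  have hk1 : (1 : ℝ) ≤ k := by linarith
  have hkpos : (0 : ℝ) < k := by linarith
  have hk9 : 16 * σ ≤ k := by
    have : (n9 : ℝ) ≤ k := by exact_mod_cast (by omega : n9 ≤ k)
    linarith
  have hθ1 : 0 < 1 - θ := by linarith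
  have hk10 : (3 + 16 * K) ≤ (1 - θ) * k := by
    have h1 : (n10 : ℝ) ≤ k := by exact_mod_cast (by omega : n10 ≤ k)
    have h2 := hn10.trans h1
    rw [div_le_iff₀ hθ1] at h2
    linarith
  -- powers of k
  have hmono : ∀ m n : ℕ, m ≤ n → (k : ℝ) ^ m ≤ (k : ℝ) ^ n := fun m n h => pow_le_pow_right₀ hk1 h
  have hka : (k : ℝ) ^ 2 ≤ (k : ℝ) ^ a := hmono 2 a (by omega)
  have hb1 : (1 : ℝ) ≤ (k : ℝ) ^ b := one_le_pow₀ hk1
  have hYk3 : 3 * k ≤ k ^ a := by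
    have h1 : k ^ 2 ≤ k ^ a := Nat.pow_le_pow_right (by omega) (by omega)
    nlinarith
  have f3' : (8 : ℝ) * (k : ℝ) ^ a ≤ 2 ^ k := by linarith
  have hY2 : k ^ a ≤ 2 ^ k := by
    have : ((k ^ a : ℕ) : ℝ) ≤ ((2 ^ k : ℕ) : ℝ) := by
      push_cast
      have : 0 ≤ (k : ℝ) ^ a := by positivity
      linarith
    exact_mod_cast this
  have hT1 : 1 ≤ 2 ^ (k ^ b) := Nat.one_le_two_pow
  refine ⟨k ^ a, 2 ^ (k ^ b), by omega, hT1, hY2, ?_, ?_, ?_, ?_, ?_, ?_, ?_⟩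
  · -- (4)
    rw [div_lt_div_iff₀ (by positivity) (by positivity), one_mul]
    push_cast
    have h1 : (k : ℝ) ^ a + 2 < 2 ^ k := by nlinarith
    have h2 : (2 : ℝ) ^ (3 * k) ≤ 2 ^ (k ^ a) := pow_le_pow_right₀ (by norm_num) hYk3
    calc ((k : ℝ) ^ a + 2) * 2 ^ (2 * k) < 2 ^ k * 2 ^ (2 * k) :=
          mul_lt_mul_of_pos_right h1 (by positivity)
      _ = 2 ^ (3 * k) := by rw [← pow_add]; congr 1; ring
      _ ≤ 2 ^ (k ^ a) := h2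
  · -- (5)
    rw [← pow_mul, Nat.log_pow (by norm_num)]
    have h1 : (2 : ℝ) ^ ((θ + η) * (k + 1)) = 2 ^ (θ + η) * 2 ^ ((θ + η) * k) := by
      rw [← Real.rpow_add (by norm_num)]; congr 1; ring
    have h2 : (2 : ℝ) ^ ((θ + 3 * η) * k) = (2 ^ (2 * η)) ^ k * 2 ^ ((θ + η) * k) := by
      rw [← Real.rpow_natCast, ← Real.rpow_mul (by norm_num), ← Real.rpow_add (by norm_num)]
      congr 1; ring
    rw [h1, h2, ← mul_assoc]
    refine mul_le_mul_of_nonneg_right ?_ (by positivity)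
    push_cast
    have h3 : (k : ℝ) + 1 ≤ 2 * k := by linarith
    have h4 : (0 : ℝ) ≤ K := Nat.cast_nonneg K
    have h5 : (0 : ℝ) < 2 ^ (θ + η) := by positivity
    calc 4 * ((k : ℝ) * (K * (k + 1))) * ((k : ℝ) ^ b * 2) * 2 ^ (θ + η)
        ≤ 4 * ((k : ℝ) * (K * (2 * k))) * ((k : ℝ) ^ b * 2) * 2 ^ (θ + η) := by
          gcongr
      _ = 16 * K * 2 ^ (θ + η) * (k : ℝ) ^ (b + 2) := by ring
      _ ≤ (2 ^ (2 * η)) ^ k := by linarith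
  · -- (6)
    have h2 : (2 : ℝ) ^ ((θ + 3 * η) * k) = (2 ^ (θ + 3 * η)) ^ k := by
      rw [← Real.rpow_natCast, ← Real.rpow_mul (by norm_num)]
    rw [h2]
    push_cast
    have h3 : (k : ℝ) + 1 ≤ 2 * k := by linarith
    calc 2 * ((k : ℝ) * (K * (k + 1))) ≤ 2 * ((k : ℝ) * (K * (2 * k))) := by gcongr
      _ = 4 * K * (k : ℝ) ^ 2 := by ring
      _ ≤ (2 ^ (θ + 3 * η)) ^ k := by linarith
  · -- (7)
    rw [div_le_iff₀ (by positivity)]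
    push_cast
    rw [Real.log_pow]
    push_cast
    have h1 : Real.log 2 ≤ 1 := by
      have := Real.log_two_lt_d9
      linarith
    have h2 : 0 ≤ Real.log 2 := Real.log_nonneg (by norm_num)
    have h3 : (k : ℝ) ^ b * Real.log 2 ≤ (k : ℝ) ^ b := by nlinarith
    calc 4 * (2 + (k : ℝ) ^ b * Real.log 2) * (k + 2)
        ≤ 4 * (3 * (k : ℝ) ^ b) * (3 * k) := by
          have g1 : 2 + (k : ℝ) ^ b * Real.log 2 ≤ 3 * (k : ℝ) ^ b := by linarith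
          have g2 : (k : ℝ) + 2 ≤ 3 * k := by linarith
          have g3 : 0 ≤ 2 + (k : ℝ) ^ b * Real.log 2 := by positivity
          gcongr
      _ = 36 * (k : ℝ) ^ (b + 1) := by ring
      _ ≤ ε * 2 ^ k := f7
  · -- (8)
    rw [div_le_iff₀ (by positivity)]
    push_cast
    have h1 : (5 : ℝ) * (k : ℝ) ^ b ≤ 2 ^ k := by linarith
    have h1' : 5 * k ^ b ≤ 2 ^ k := by exact_mod_cast h1
    have hkb : k ≤ k ^ b := Nat.le_self_pow (by omega) k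
    have h2 : 2 * k ^ b + 2 + k ≤ 2 ^ k := by
      have : 1 ≤ k ^ b := by omega
      omega
    have h3 : ((2 : ℝ) ^ (k ^ b)) ^ 2 + 2 ^ k + 2 ≤ 2 ^ (2 * k ^ b + 2) := by
      have g1 : ((2 : ℝ) ^ (k ^ b)) ^ 2 = 2 ^ (2 * k ^ b) := by rw [← pow_mul]; congr 1; ring
      have g2 : (2 : ℝ) ^ k ≤ 2 ^ (2 * k ^ b) := pow_le_pow_right₀ (by norm_num) (by omega)
      have g3 : (2 : ℝ) ≤ 2 ^ (2 * k ^ b) := by
        calc (2 : ℝ) = 2 ^ 1 := by norm_num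
          _ ≤ 2 ^ (2 * k ^ b) := pow_le_pow_right₀ (by norm_num) (by omega)
      rw [g1, pow_add]
      linarith
    have h4 : (2 : ℝ) ^ (2 * k ^ b + 2) * 2 ^ k ≤ 2 ^ (2 ^ k) := by
      rw [← pow_add]
      exact pow_le_pow_right₀ (by norm_num) h2
    have h5 : 1 ≤ ε * 2 ^ k := by simpa using f8'
    have h6 : (0 : ℝ) < ((2 : ℝ) ^ (k ^ b)) ^ 2 + 2 ^ k + 2 := by positivity
    calc ((2 : ℝ) ^ (k ^ b)) ^ 2 + 2 ^ k + 2
        ≤ (((2 : ℝ) ^ (k ^ b)) ^ 2 + 2 ^ k + 2) * (ε * 2 ^ k) := by nlinarith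
      _ ≤ 2 ^ (2 * k ^ b + 2) * (ε * 2 ^ k) := mul_le_mul_of_nonneg_right h3 (by positivity)
      _ = ε * (2 ^ (2 * k ^ b + 2) * 2 ^ k) := by ring
      _ ≤ ε * 2 ^ (2 ^ k) := mul_le_mul_of_nonneg_left h4 hε.le
  · -- (9)
    push_cast
    have h1 : ((k : ℝ) ^ a) ^ (-η) ≤ ((k : ℝ) ^ 3)⁻¹ := by
      rw [← Real.rpow_natCast, ← Real.rpow_mul hkpos.le, ← Real.rpow_natCast (k : ℝ) 3,
        ← Real.rpow_neg hkpos.le]
      refine Real.rpow_le_rpow_of_exponent_le hk1 ?_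
      push_cast
      linarith
    calc 16 * (k : ℝ) ^ 2 * (σ * ((k : ℝ) ^ a) ^ (-η))
        ≤ 16 * (k : ℝ) ^ 2 * (σ * ((k : ℝ) ^ 3)⁻¹) := by gcongr
      _ = 16 * σ / k := by field_simp
      _ ≤ 1 := by rw [div_le_one hkpos]; exact hk9
  · -- (10)
    intro M hM
    have hY := H7_fact (k ^ a)
    have hYY : k ^ a * k ^ a = k ^ (2 * a) := by rw [← pow_add]; congr 1; ring
    rw [hYY] at hY
    obtain ⟨E, hE⟩ : ∃ E : ℕ, E = k ^ (2 * a) + 2 * (K * (k + 1) ^ 3) + (k ^ b + 1) := ⟨_, rfl⟩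
    have hZ : (k ^ a).factorial * M ^ 2 * (2 ^ (k ^ b) + 1) ≤ 2 ^ E := by
      rw [hE, pow_add, pow_add]
      have g1 : M ^ 2 ≤ 2 ^ (2 * (K * (k + 1) ^ 3)) := by
        rw [mul_comm 2, pow_mul]
        exact Nat.pow_le_pow_left hM 2
      have g2 : 2 ^ (k ^ b) + 1 ≤ 2 ^ (k ^ b + 1) := by
        rw [pow_succ]; omega
      exact Nat.mul_le_mul (Nat.mul_le_mul hY g1) g2
    -- real bound for E
    have hc1 : (k : ℝ) ^ (2 * a) ≤ (k : ℝ) ^ (b - 1) := hmono _ _ (by omega)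
    have hc2 : ((k : ℝ) + 1) ^ 3 ≤ 8 * (k : ℝ) ^ (b - 1) := by
      have g1 : (k : ℝ) + 1 ≤ 2 * k := by linarith
      calc ((k : ℝ) + 1) ^ 3 ≤ (2 * k) ^ 3 := by gcongr
        _ = 8 * (k : ℝ) ^ 3 := by ring
        _ ≤ 8 * (k : ℝ) ^ (b - 1) := by
            have := hmono 3 (b - 1) (by omega)
            linarith
    have hc3 : (1 : ℝ) ≤ (k : ℝ) ^ (b - 1) := one_le_pow₀ hk1
    have hc4 : (k : ℝ) ≤ (k : ℝ) ^ (b - 1) := by
      have := hmono 1 (b - 1) (by omega)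
      simpa using this
    have hc5 : (k : ℝ) ^ b = k * (k : ℝ) ^ (b - 1) := by
      rw [← pow_succ']; congr 1; omega
    have hKr : (0 : ℝ) ≤ K := Nat.cast_nonneg K
    have hEr : (E : ℝ) ≤ (k : ℝ) ^ b + (2 + 16 * K) * (k : ℝ) ^ (b - 1) := by
      rw [hE]; push_cast
      have h1 := mul_le_mul_of_nonneg_left hc2 hKr
      have h2 : (2 + 16 * (K : ℝ)) * (k : ℝ) ^ (b - 1) =
          2 * (k : ℝ) ^ (b - 1) + 2 * (K * (8 * (k : ℝ) ^ (b - 1))) := by ring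
      rw [h2]
      linarith
    have hp0 : 0 ≤ (k : ℝ) ^ (b - 1) := by positivity
    have hmain : (k : ℝ) ^ (b - 1) * (3 + 16 * K) ≤ (1 - θ) * (k : ℝ) ^ b := by
      rw [hc5]
      calc (k : ℝ) ^ (b - 1) * (3 + 16 * K) ≤ (k : ℝ) ^ (b - 1) * ((1 - θ) * k) :=
            mul_le_mul_of_nonneg_left hk10 hp0
        _ = (1 - θ) * (k * (k : ℝ) ^ (b - 1)) := by ring
    constructor
    · have h1 : (E : ℝ) + 1 ≤ 2 * (k : ℝ) ^ b := by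
        have hkb : 0 ≤ (k : ℝ) ^ b := by positivity
        nlinarith
      have h1' : E + 1 ≤ 2 * k ^ b := by exact_mod_cast h1
      have hkb : k ≤ k ^ b := Nat.le_self_pow (by omega) k
      have h2 : k + 1 ≤ 2 * k ^ b := by omega
      have h3 : 2 ^ (E + 1) ≤ 2 ^ (2 * k ^ b) := Nat.pow_le_pow_right (by norm_num) h1'
      have h4 : 2 ^ (k + 1) ≤ 2 ^ (2 * k ^ b) := Nat.pow_le_pow_right (by norm_num) h2
      have h5 : (2 ^ (k ^ b)) ^ 2 = 2 ^ (2 * k ^ b) := by rw [← pow_mul]; congr 1; ring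
      rw [h5]
      rw [pow_succ] at h3 h4
      omega
    · have h1 : (((k ^ a).factorial * M ^ 2 * (2 ^ (k ^ b) + 1) : ℕ) : ℝ) ^ θ ≤ 2 ^ (θ * E) := by
        have g1 : (((k ^ a).factorial * M ^ 2 * (2 ^ (k ^ b) + 1) : ℕ) : ℝ) ≤ (2 : ℝ) ^ E := by
          exact_mod_cast hZ
        calc (((k ^ a).factorial * M ^ 2 * (2 ^ (k ^ b) + 1) : ℕ) : ℝ) ^ θ
            ≤ ((2 : ℝ) ^ E) ^ θ := Real.rpow_le_rpow (by positivity) g1 hθ.le
          _ = 2 ^ (θ * E) := by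
              rw [← Real.rpow_natCast, ← Real.rpow_mul (by norm_num)]; congr 1; ring
      have h2 : θ * (E : ℝ) + k ≤ (k : ℝ) ^ b := by
        have g1 : θ * (E : ℝ) ≤ θ * ((k : ℝ) ^ b + (2 + 16 * K) * (k : ℝ) ^ (b - 1)) :=
          mul_le_mul_of_nonneg_left hEr hθ.le
        have g2 : θ * ((2 + 16 * K) * (k : ℝ) ^ (b - 1)) ≤ (2 + 16 * K) * (k : ℝ) ^ (b - 1) := by
          have : 0 ≤ (2 + 16 * K) * (k : ℝ) ^ (b - 1) := by positivity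
          nlinarith
        nlinarith
      have h3 : 8 * (k : ℝ) * σ ≤ 2 ^ k := by
        have : 8 * σ * (k : ℝ) ^ 1 ≤ 1 * 2 ^ k := f10
        rw [pow_one, one_mul] at this
        linarith
      calc 8 * (k : ℝ) * (σ * (((k ^ a).factorial * M ^ 2 * (2 ^ (k ^ b) + 1) : ℕ) : ℝ) ^ θ)
          ≤ 8 * (k : ℝ) * (σ * 2 ^ (θ * E)) := by gcongr
        _ = (8 * (k : ℝ) * σ) * 2 ^ (θ * E) := by ring
        _ ≤ 2 ^ k * 2 ^ (θ * E) := mul_le_mul_of_nonneg_right h3 (by positivity)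
        _ = 2 ^ (θ * E + k) := by
            rw [Real.rpow_add (by norm_num), Real.rpow_natCast]; ring
        _ ≤ 2 ^ ((k : ℝ) ^ b) := Real.rpow_le_rpow_of_exponent_le (by norm_num) h2
        _ = ((2 ^ (k ^ b) : ℕ) : ℝ) := by
            push_cast
            have : ((k : ℝ) ^ b) = ((k ^ b : ℕ) : ℝ) := by push_cast; ring
            rw [this, Real.rpow_natCast]

end Pool.Agent.H335R2.EM
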