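import Mathlib
import Pool.Agent.H335R2.EM.Defs

namespace Pool.Agent.H335R2.EM

open Finset

theorem H8 (W r j T c G : ℕ) (hW : 0 < W) (hc : 0 < c)
    (hg : ∀ t, c ∣ r + W * t + j → Nat.gcd c W ≤ G) :
    (((range T).filter (fun t => c ∣ r + W * t + j)).card : ℝ) ≤ G * T / c + 1 := by
  classical
  rcases ((range T).filter (fun t => c ∣ r + W * t + j)).eq_empty_or_nonempty with h | h
  · rw [h]
    simp only [card_empty, Nat.cast_zero]
    positivity
  · obtain ⟨t0, ht0⟩ := h
    simp only [mem_filter, mem_range] at ht0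
    have hG : Nat.gcd c W ≤ G := hg t0 ht0.2
    have hgpos : 0 < Nat.gcd c W := Nat.gcd_pos_of_pos_left W hc
    obtain ⟨a, ha⟩ : Nat.gcd c W ∣ c := Nat.gcd_dvd_left c W
    have hapos : 0 < a := by
      rcases Nat.eq_zero_or_pos a with h0 | h0
      · rw [h0, Nat.mul_zero] at ha; omega
      · exact h0
    have hdiv : c / Nat.gcd c W = a := Nat.div_eq_of_eq_mul_right hgpos ha
    have hmod : ∀ t ∈ (range T).filter (fun t => c ∣ r + W * t + j), t ≡ t0 [MOD a] := by
      intro t ht
      simp only [mem_filter, mem_range] at ht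
      have h1 : r + W * t + j ≡ r + W * t0 + j [MOD c] :=
        ((Nat.modEq_zero_iff_dvd).2 ht.2).trans ((Nat.modEq_zero_iff_dvd).2 ht0.2).symm
      have h2 : r + W * t ≡ r + W * t0 [MOD c] := Nat.ModEq.add_right_cancel' j h1
      have h3 : W * t ≡ W * t0 [MOD c] := Nat.ModEq.add_left_cancel' r h2
      have h4 := Nat.ModEq.cancel_left_div_gcd hc h3
      rwa [hdiv] at h4
    have hcard : ((range T).filter (fun t => c ∣ r + W * t + j)).card ≤ T / a + 1 := by
      have : ((range T).filter (fun t => c ∣ r + W * t + j)).card ≤ (range (T / a + 1)).card := by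
        apply card_le_card_of_injOn (fun t => t / a)
        · intro t ht
          have ht' := (mem_filter.1 (mem_coe.1 ht)).1
          rw [mem_coe, mem_range]
          exact Nat.lt_succ_of_le (Nat.div_le_div_right (mem_range.1 ht').le)
        · intro s hs t ht hst
          have h1 := hmod s (by exact_mod_cast hs)
          have h2 := hmod t (by exact_mod_cast ht)
          have h3 : s % a = t % a := h1.trans h2.symm
          simp only at hst
          rw [← Nat.div_add_mod s a, ← Nat.div_add_mod t a, hst, h3]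
      rwa [card_range] at this
    have hcr : (c : ℝ) = (Nat.gcd c W : ℝ) * a := by exact_mod_cast ha
    have hgr : (0 : ℝ) < (Nat.gcd c W : ℝ) := by exact_mod_cast hgpos
    have har : (0 : ℝ) < (a : ℝ) := by exact_mod_cast hapos
    have hGr : (Nat.gcd c W : ℝ) ≤ G := by exact_mod_cast hG
    calc (((range T).filter (fun t => c ∣ r + W * t + j)).card : ℝ)
        ≤ ((T / a + 1 : ℕ) : ℝ) := by exact_mod_cast hcard
      _ = ((T / a : ℕ) : ℝ) + 1 := by push_cast; ring
      _ ≤ (T : ℝ) / a + 1 := by
        have : ((T / a : ℕ) : ℝ) ≤ (T : ℝ) / a := Nat.cast_div_le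
        linarith
      _ = (Nat.gcd c W : ℝ) * T / c + 1 := by
        rw [hcr]
        field_simp
      _ ≤ G * T / c + 1 := by
        have h5 : (0 : ℝ) ≤ T := Nat.cast_nonneg _
        have h6 : (0 : ℝ) < (c : ℝ) := by exact_mod_cast hc
        gcongr

end Pool.Agent.H335R2.EM
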