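import Mathlib
import Pool.Agent.H335R2.EM.H13a
import Pool.Agent.H335R2.EM.H1
import Pool.Agent.H335R2.EM.H2
import Pool.Agent.H335R2.EM.H3
import Pool.Agent.H335R2.EM.H6
import Pool.Agent.H335R2.EM.H7
import Pool.Agent.H335R2.EM.H8
import Pool.Agent.H335R2.EM.H10

/-! Perturbation of invariant sets by sparse sets. -/

namespace Pool.Agent.H335R2.EM

open Finset

/-- counting the bad `t`. -/
theorem H13_bad (C : Set ℕ) (K k Y T r : ℕ) (θ η σ : ℝ) (hθ : 0 < θ) (hη : 0 < η) (hθη : θ + η < 1)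
    (F : Finset ℕ) (hk : k ≤ Y) (hY1 : 1 ≤ Y) (hT : 1 ≤ T)
    (hF : ∀ q ∈ F, q.Prime ∧ Y < q)
    (hr : r < Y.factorial * (∏ q ∈ F, q) ^ 2) (hLr : Y.factorial ∣ r)
    (hsq : ∀ t j, 1 ≤ j → j ≤ k → ∀ q ∈ F,
      ¬ q ^ 2 ∣ r + Y.factorial * (∏ q ∈ F, q) ^ 2 * t + j)
    (hX : Y.factorial * (∏ q ∈ F, q) ^ 2 * (T + 1) ≤ T ^ 2)
    (Cf : Finset ℕ) (hCf : ∀ c, c ∈ Cf ↔ c ∈ C ∧ Y < c ∧ c ≤ T ^ 2)
    (hgr : ∑ c ∈ Cf, ((c / Nat.gcd c (∏ q ∈ F, q) : ℕ) : ℝ) ^ (-(θ + η)) ≤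
      2 * (σ * (Y : ℝ) ^ (-η)))
    (hcard : ∀ (X : ℕ) (s : Finset ℕ), 1 ≤ X → (∀ c ∈ s, c ∈ C ∧ Y < c ∧ c ≤ X) →
      (s.card : ℝ) ≤ σ * (X : ℝ) ^ θ)
    (h16 : 16 * (k : ℝ) ^ 2 * (σ * (Y : ℝ) ^ (-η)) ≤ 1)
    (h8 : 8 * (k : ℝ) *
      (σ * ((Y.factorial * (∏ q ∈ F, q) ^ 2 * (T + 1) : ℕ) : ℝ) ^ θ) ≤ T) :
    ∃ bad : Finset ℕ, 2 * bad.card ≤ T ∧ ∀ t < T, t ∉ bad → ∀ j, 1 ≤ j → j ≤ k → ∀ c ∈ C,
      Y < c → ¬ c ∣ r + Y.factorial * (∏ q ∈ F, q) ^ 2 * t + j := by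
  classical
  obtain ⟨M, hM⟩ : ∃ M, M = ∏ q ∈ F, q := ⟨_, rfl⟩
  have hMsq : Squarefree M → True := fun _ => trivial
  have hMpos : 0 < M := by rw [hM]; exact Finset.prod_pos (fun q hq => (hF q hq).1.pos)
  have hMprime : ∀ p, p.Prime → p ∣ M → p ∈ F := by
    intro p hp hd
    rw [hM] at hd
    obtain ⟨q, hq, hpq⟩ := (Prime.dvd_finsetProd_iff hp.prime _).1 hd
    rwa [(Nat.prime_dvd_prime_iff_eq hp (hF q hq).1).1 hpq]
  rw [← hM] at hr hsq hX hgr h8 ⊢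
  have hfac : 0 < Y.factorial := Nat.factorial_pos Y
  obtain ⟨W, hW⟩ : ∃ W, W = Y.factorial * M ^ 2 := ⟨_, rfl⟩
  have hWpos : 0 < W := by rw [hW]; positivity
  have hkW : k ≤ W := by
    calc k ≤ Y := hk
      _ ≤ Y.factorial := Nat.self_le_factorial Y
      _ ≤ Y.factorial * M ^ 2 := Nat.le_mul_of_pos_right _ (by positivity)
      _ = W := hW.symm
  rw [← hW] at hr hsq hX h8 ⊢
  have hLW : Y.factorial ∣ W := by rw [hW]; exact dvd_mul_right _ _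
  -- the relevant `c`
  set S' : Finset ℕ := Cf.filter (fun c => c ≤ W * (T + 1)) with hS'
  have hS'1 : ∀ c ∈ S', c ∈ C ∧ Y < c ∧ c ≤ W * (T + 1) := by
    intro c hc
    rw [hS', mem_filter, hCf] at hc
    exact ⟨hc.1.1, hc.1.2.1, hc.2⟩
  have hS'c : (S'.card : ℝ) ≤ σ * ((W * (T + 1) : ℕ) : ℝ) ^ θ :=
    hcard (W * (T + 1)) S' (Nat.mul_pos hWpos (by omega)) hS'1
  -- one pair
  have hone : ∀ j, 1 ≤ j → j ≤ k → ∀ c, 0 < c →
      (((range T).filter (fun t => c ∣ r + W * t + j)).card : ℝ) ≤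
        k * T * ((c / Nat.gcd c M : ℕ) : ℝ) ^ (-(θ + η)) + 1 := by
    intro j hj1 hjk c hc
    have hg : ∀ t, c ∣ r + W * t + j → Nat.gcd c W ≤ k * Nat.gcd c M := by
      intro t ht
      have h1 : Nat.gcd c W ∣ Nat.gcd c Y.factorial * Nat.gcd c (M ^ 2) := by
        rw [hW]; exact Nat.gcd_mul_right_dvd_mul_gcd _ _ _
      have h2 : Nat.gcd c Y.factorial ≤ k := by
        have h3 : Nat.gcd c Y.factorial ∣ r + W * t + j := (Nat.gcd_dvd_left _ _).trans ht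
        have h4 : Nat.gcd c Y.factorial ∣ r + W * t :=
          dvd_add ((Nat.gcd_dvd_right _ _).trans hLr)
            (((Nat.gcd_dvd_right _ _).trans hLW).mul_right t)
        have h5 : Nat.gcd c Y.factorial ∣ j := (Nat.dvd_add_right h4).1 h3
        exact (Nat.le_of_dvd (by omega) h5).trans hjk
      have h6 : Nat.gcd c (M ^ 2) ∣ Nat.gcd c M := by
        refine Nat.dvd_gcd (Nat.gcd_dvd_left _ _) ?_
        have hsf : Squarefree (Nat.gcd c (M ^ 2)) := by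
          rw [Nat.squarefree_iff_prime_squarefree]
          intro p hp hpp
          have hpM : p ∣ M := by
            have : p ∣ M ^ 2 := ((dvd_mul_right p p).trans hpp).trans (Nat.gcd_dvd_right _ _)
            exact hp.dvd_of_dvd_pow this
          refine hsq t j hj1 hjk p (hMprime p hp hpM) ?_
          rw [sq]
          exact (hpp.trans (Nat.gcd_dvd_left _ _)).trans ht
        exact (hsf.dvd_pow_iff_dvd (two_ne_zero)).1 (Nat.gcd_dvd_right _ _)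
      have h7 : 0 < Nat.gcd c M := Nat.gcd_pos_of_pos_left _ hc
      calc Nat.gcd c W ≤ Nat.gcd c Y.factorial * Nat.gcd c (M ^ 2) :=
            Nat.le_of_dvd (Nat.mul_pos (Nat.gcd_pos_of_pos_left _ hc)
              (Nat.gcd_pos_of_pos_left _ hc)) h1
        _ ≤ k * Nat.gcd c M := Nat.mul_le_mul h2 (Nat.le_of_dvd h7 h6)
    have h8' := H8 W r j T c (k * Nat.gcd c M) hWpos hc hg
    refine h8'.trans ?_
    have hgpos : 0 < Nat.gcd c M := Nat.gcd_pos_of_pos_left _ hc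
    have hdv : Nat.gcd c M ∣ c := Nat.gcd_dvd_left _ _
    obtain ⟨x, hx⟩ := hdv
    have hx0 : 0 < x := by
      rcases Nat.eq_zero_or_pos x with h | h
      · rw [h, mul_zero] at hx; omega
      · exact h
    have hxe : c / Nat.gcd c M = x := Nat.div_eq_of_eq_mul_right hgpos hx
    rw [hxe]
    have e1 : ((k * Nat.gcd c M : ℕ) : ℝ) * T / c = k * T * (1 / x) := by
      have hcr : (c : ℝ) = (Nat.gcd c M : ℝ) * x := by exact_mod_cast hx
      have hgr' : (0 : ℝ) < (Nat.gcd c M : ℝ) := by exact_mod_cast hgpos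
      have hxr : (0 : ℝ) < (x : ℝ) := by exact_mod_cast hx0
      rw [div_eq_iff (by rw [hcr]; positivity)]
      push_cast
      generalize (Nat.gcd c M : ℝ) = g at hcr hgr'
      rw [hcr]; field_simp
    rw [e1]
    have hx1 : (1 : ℝ) ≤ x := by exact_mod_cast hx0
    have e2 : (1 : ℝ) / x ≤ (x : ℝ) ^ (-(θ + η)) := by
      rw [one_div, ← Real.rpow_neg_one]
      exact Real.rpow_le_rpow_of_exponent_le hx1 (by linarith)
    gcongr
  set bad : Finset ℕ := (Icc 1 k).biUnion (fun j => S'.biUnion (fun c =>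
    (range T).filter (fun t => c ∣ r + W * t + j))) with hbad
  refine ⟨bad, ?_, ?_⟩
  · have h1 : (bad.card : ℝ) ≤ ∑ j ∈ Icc 1 k, ∑ c ∈ S',
        (k * T * ((c / Nat.gcd c M : ℕ) : ℝ) ^ (-(θ + η)) + 1) := by
      have h2 : bad.card ≤ ∑ j ∈ Icc 1 k, ∑ c ∈ S',
          ((range T).filter (fun t => c ∣ r + W * t + j)).card := by
        refine Finset.card_biUnion_le.trans (Finset.sum_le_sum (fun j _ => ?_))
        exact Finset.card_biUnion_le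
      have h3 : (bad.card : ℝ) ≤ ∑ j ∈ Icc 1 k, ∑ c ∈ S',
          (((range T).filter (fun t => c ∣ r + W * t + j)).card : ℝ) := by exact_mod_cast h2
      refine h3.trans (Finset.sum_le_sum (fun j hj => Finset.sum_le_sum (fun c hc => ?_)))
      rw [mem_Icc] at hj
      exact hone j hj.1 hj.2 c (by have := (hS'1 c hc).2.1; omega)
    have h2 : ∑ c ∈ S', ((c / Nat.gcd c M : ℕ) : ℝ) ^ (-(θ + η)) ≤ 2 * (σ * (Y : ℝ) ^ (-η)) := by
      refine le_trans ?_ hgr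
      exact Finset.sum_le_sum_of_subset_of_nonneg (Finset.filter_subset _ _)
        (fun _ _ _ => by positivity)
    have h3 : ∑ j ∈ Icc 1 k, ∑ c ∈ S',
        ((k : ℝ) * T * ((c / Nat.gcd c M : ℕ) : ℝ) ^ (-(θ + η)) + 1) =
        k * (k * T * ∑ c ∈ S', ((c / Nat.gcd c M : ℕ) : ℝ) ^ (-(θ + η)) + S'.card) := by
      rw [Finset.sum_const, Nat.card_Icc, Finset.sum_add_distrib, ← Finset.mul_sum, nsmul_eq_mul]
      simp
    have hT' : (1 : ℝ) ≤ T := by exact_mod_cast hT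
    have h4 : (bad.card : ℝ) ≤ T / 4 := by
      rw [h3] at h1
      have hk0 : (0 : ℝ) ≤ k := Nat.cast_nonneg k
      calc (bad.card : ℝ) ≤ k * (k * T * ∑ c ∈ S', ((c / Nat.gcd c M : ℕ) : ℝ) ^ (-(θ + η)) +
            S'.card) := h1
        _ ≤ k * (k * T * (2 * (σ * (Y : ℝ) ^ (-η))) + σ * ((W * (T + 1) : ℕ) : ℝ) ^ θ) := by
            gcongr
        _ = T * (16 * (k : ℝ) ^ 2 * (σ * (Y : ℝ) ^ (-η))) / 8 +
            (8 * (k : ℝ) * (σ * ((W * (T + 1) : ℕ) : ℝ) ^ θ)) / 8 := by ring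
        _ ≤ T * 1 / 8 + T / 8 := by gcongr
        _ = T / 4 := by ring
    have h5 : (2 * bad.card : ℝ) ≤ T := by linarith
    exact_mod_cast h5
  · intro t ht htb j hj1 hjk c hcC hYc hd
    apply htb
    rw [hbad, mem_biUnion]
    refine ⟨j, mem_Icc.2 ⟨hj1, hjk⟩, mem_biUnion.2 ⟨c, ?_, mem_filter.2 ⟨mem_range.2 ht, hd⟩⟩⟩
    have hcle : c ≤ W * (T + 1) := by
      refine (Nat.le_of_dvd (by omega) hd).trans ?_
      calc r + W * t + j ≤ W + W * t + W := by omega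
        _ = W * (t + 1 + 1) := by ring
        _ ≤ W * (T + 1) := Nat.mul_le_mul_left _ (by omega)
    rw [hS', mem_filter, hCf]
    exact ⟨⟨hcC, hYc, hcle.trans hX⟩, hcle⟩

end Pool.Agent.H335R2.EM
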