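import Mathlib
import Pool.Agent.H335R2.EM.H13b

/-! Perturbation of invariant sets by sparse sets: the theorem. -/

namespace Pool.Agent.H335R2.EM

open Finset

theorem H13_key (Q A B : Set ℕ) (δ θ : ℝ) (hQ : ∀ q ∈ Q, q.Prime) (hθ : 0 < θ) (hθδ : θ < δ)
    (hδ1 : δ ≤ 1) (hsum : ¬ Summable (fun q : Q => ((q.1 : ℝ)) ^ (-δ))) (K : ℕ)
    (hdivs : ∀ (w n : ℕ) (s : Finset ℕ), 0 < n → s.card = K * (w + 1) →
      (∀ q ∈ s, q ∈ Q ∧ q ∣ n ∧ ¬ q ^ 2 ∣ n) → 2 ^ w ∣ dA B n)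
    (hA : 0 ∉ A) (hB : 0 ∉ B)
    (hC : Summable (fun c : (symmDiff A B : Set ℕ) => ((c.1 : ℝ)) ^ (-θ)))
    (ε : ℝ) (k0 : ℕ) (hε : 0 < ε) :
    ∃ k, k0 ≤ k ∧ ∃ N Y : ℕ, k ≤ Y ∧
      ((Y : ℝ) + 2) / 2 ^ Y < 1 / 2 ^ (2 * k) ∧
      (∀ j, 1 ≤ j → j ≤ k → ∃ z : ℤ, (dA A (N + j) : ℤ) = 2 ^ k * z + dA A j - dA B j) ∧
      tl A N k ≤ ε ∧ (∀ j, 0 < j → j ≤ Y → dA A j ≤ dA A (N + j)) := by
  classical
  obtain ⟨C, hCdef⟩ : ∃ C : Set ℕ, C = symmDiff A B := ⟨_, rfl⟩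
  have hC0 : 0 ∉ C := by
    rw [hCdef, Set.mem_symmDiff]
    rintro (⟨h, _⟩ | ⟨h, _⟩)
    · exact hA h
    · exact hB h
  rw [← hCdef] at hC
  obtain ⟨η, hηdef⟩ : ∃ η : ℝ, η = (δ - θ) / 4 := ⟨_, rfl⟩
  have hη : 0 < η := by rw [hηdef]; linarith
  have hηδ : η < δ := by rw [hηdef]; linarith
  have hδη : δ - η = θ + 3 * η := by rw [hηdef]; ring
  have hθη : θ + η < 1 := by rw [hηdef]; linarith
  obtain ⟨σ, hσ, hσC⟩ := H10 C hC0 θ η hθ hη hC
  obtain ⟨k1, hk1⟩ := H7 K θ η σ (ε / 2) hθ hη hθη hσ (by positivity)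
  obtain ⟨k, hk, P, hPc, hP⟩ := H1 Q δ η hη hηδ hsum (max (max k0 k1) 1)
  have hkk0 : k0 ≤ k := le_trans (le_trans (le_max_left _ _) (le_max_left _ _)) hk
  have hkk1 : k1 ≤ k := le_trans (le_trans (le_max_right _ _) (le_max_left _ _)) hk
  have hk1' : 1 ≤ k := le_trans (le_max_right _ _) hk
  obtain ⟨Y, T, hkY, hT, hY2k, hY2, h4, h2m, hE1, hE2, h16, hM8⟩ := hk1 k hkk1
  rw [hδη] at hPc
  have hY1 : 1 ≤ Y := by omega
  -- the finite set of relevant elements of `C`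
  obtain ⟨Cf, hCf⟩ : ∃ Cf : Finset ℕ, ∀ c, c ∈ Cf ↔ c ∈ C ∧ Y < c ∧ c ≤ T ^ 2 := by
    refine ⟨(range (T ^ 2 + 1)).filter (fun c => c ∈ C ∧ Y < c), fun c => ?_⟩
    rw [mem_filter, mem_range]
    constructor
    · rintro ⟨h1, h2, h3⟩; exact ⟨h2, h3, by omega⟩
    · rintro ⟨h1, h2, h3⟩; exact ⟨by omega, h1, h2⟩
  have hT2 : 1 ≤ T ^ 2 := Nat.one_le_pow _ _ hT
  -- greedy choice
  obtain ⟨F, hFP, hFc, hgr⟩ := H2 P Cf (k * (K * (k + 1))) (Nat.log 2 (T ^ 2))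
    (2 ^ ((θ + η) * (k + 1))) (θ + η) (by linarith)
    (fun q hq => by
      refine ⟨hQ q (hP q hq).1, ?_⟩
      have h1 : (q : ℝ) ≤ 2 ^ (k + 1) := by exact_mod_cast (hP q hq).2.2
      calc (q : ℝ) ^ (θ + η) ≤ ((2 : ℝ) ^ (k + 1)) ^ (θ + η) :=
            Real.rpow_le_rpow (by positivity) h1 (by linarith)
        _ = (2 : ℝ) ^ ((θ + η) * (k + 1)) := by
            rw [← Real.rpow_natCast, ← Real.rpow_mul (by norm_num)]
            congr 1; push_cast; ring)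
    (fun c hc => by
      rw [hCf] at hc
      have hc0 : 0 < c := by omega
      refine ⟨hc0, ?_⟩
      have h1 : 2 ^ (P.filter (fun q => q ∣ c)).card ≤ c := by
        calc 2 ^ (P.filter (fun q => q ∣ c)).card ≤ ∏ q ∈ P.filter (fun q => q ∣ c), q :=
              Finset.pow_card_le_prod _ _ _ (fun q hq =>
                (hQ q (hP q (mem_filter.1 hq).1).1).two_le)
          _ ≤ c := Nat.le_of_dvd hc0 (Finset.prod_primes_dvd c
                (fun q hq => (hQ q (hP q (mem_filter.1 hq).1).1).prime)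
                (fun q hq => (mem_filter.1 hq).2))
      exact Nat.le_log_of_pow_le (by norm_num) (h1.trans hc.2.2))
    (by
      have : (2 * (k * (K * (k + 1)) : ℕ) : ℝ) ≤ P.card := h2m.trans hPc
      exact_mod_cast this)
    (h4.trans hPc)
  have hFq : ∀ q ∈ F, q ∈ Q ∧ 2 ^ k < q ∧ q ≤ 2 ^ (k + 1) := fun q hq => hP q (hFP hq)
  have hFprime : ∀ q ∈ F, q.Prime ∧ 2 ^ k < q := fun q hq => ⟨hQ q (hFq q hq).1, (hFq q hq).2.1⟩
  have hMle : (∏ q ∈ F, q) ≤ 2 ^ (K * (k + 1) ^ 3) := by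
    calc (∏ q ∈ F, q) ≤ (2 ^ (k + 1)) ^ F.card :=
          Finset.prod_le_pow_card _ _ _ (fun q hq => (hFq q hq).2.2)
      _ = 2 ^ ((k + 1) * (k * (K * (k + 1)))) := by rw [hFc, ← pow_mul]
      _ ≤ 2 ^ (K * (k + 1) ^ 3) := by
          apply Nat.pow_le_pow_right (by norm_num)
          calc (k + 1) * (k * (K * (k + 1))) = K * ((k + 1) * k * (k + 1)) := by ring
            _ ≤ K * ((k + 1) * (k + 1) * (k + 1)) := by gcongr; omega
            _ = K * (k + 1) ^ 3 := by ring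
  obtain ⟨hM1, hM2⟩ := hM8 _ hMle
  obtain ⟨r, hr, hLr, h3⟩ := H3 K k Y.factorial F hFc hFprime (Nat.factorial_pos Y)
    (fun q hq => by
      rw [Nat.Prime.coprime_iff_not_dvd (hFprime q hq).1, (hFprime q hq).1.dvd_factorial]
      have := (hFprime q hq).2
      omega)
  have hsumC : ∑ c ∈ Cf, (c : ℝ) ^ (-(θ + η)) ≤ σ * (Y : ℝ) ^ (-η) :=
    (hσC (T ^ 2) Y Cf hT2 hY1 (fun c hc => (hCf c).1 hc)).2
  obtain ⟨bad, hbad, hgood⟩ := H13_bad C K k Y T r θ η σ hθ hη hθη F hkY hY1 hT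
    (fun q hq => ⟨(hFprime q hq).1, lt_of_le_of_lt hY2k (hFprime q hq).2⟩) hr hLr
    (fun t j hj1 hjk q hq => (h3 t).2.1 j hj1 hjk q hq)
    (le_trans (Nat.le_add_right _ _) hM1) Cf hCf (hgr.trans (by linarith))
    (fun X s hX hs => (hσC X Y s hX hY1 hs).1) h16 hM2
  have hMpos : 0 < ∏ q ∈ F, q := Finset.prod_pos (fun q hq => (hFprime q hq).1.pos)
  generalize hM : (∏ q ∈ F, q) = M at hr h3 hgood hMpos hM1
  have hfac : 0 < Y.factorial := Nat.factorial_pos Y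
  have hWpos : 0 < Y.factorial * M ^ 2 := by positivity
  have hb : r + Y.factorial * M ^ 2 * T + 2 ^ k ≤ T ^ 2 := by
    calc r + Y.factorial * M ^ 2 * T + 2 ^ k ≤
          Y.factorial * M ^ 2 + Y.factorial * M ^ 2 * T + 2 ^ k := by omega
      _ = Y.factorial * M ^ 2 * (T + 1) + 2 ^ k := by ring
      _ ≤ T ^ 2 := hM1
  obtain ⟨t, htT, htb, hts⟩ := H6 (Y.factorial * M ^ 2) r k T hWpos hT
    (fun j hj1 hj2 t => by
      have hco := (h3 t).2.2 j hj1 hj2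
      have h1 : Nat.gcd (r + Y.factorial * M ^ 2 * t + j) (Y.factorial * M ^ 2) =
          Nat.gcd (r + Y.factorial * M ^ 2 * t + j) Y.factorial :=
        Nat.Coprime.gcd_mul_right_cancel_right _ (Nat.Coprime.pow_left 2 hco.symm)
      rw [h1]
      refine Nat.le_of_dvd (by omega) ?_
      have h2 : Y.factorial ∣ r + Y.factorial * M ^ 2 * t :=
        dvd_add hLr ((dvd_mul_right _ _).mul_right t)
      exact (Nat.dvd_add_right ((Nat.gcd_dvd_right _ _).trans h2)).1 (Nat.gcd_dvd_left _ _))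
    hb bad hbad
  obtain ⟨h3a, -, -⟩ := h3 t
  have hgt := hgood t htT htb
  have hLN : Y.factorial ∣ r + Y.factorial * M ^ 2 * t :=
    dvd_add hLr ((dvd_mul_right _ _).mul_right t)
  have hNT : r + Y.factorial * M ^ 2 * t ≤ T ^ 2 := by
    have h1 : Y.factorial * M ^ 2 * t ≤ Y.factorial * M ^ 2 * T := Nat.mul_le_mul_left _ htT.le
    omega
  generalize hN : r + Y.factorial * M ^ 2 * t = N at hts h3a hgt hLN hNT
  refine ⟨k, hkk0, N, Y, hkY, hY2, ?_, ?_, fun j hj hjY => dA_mono_shift A N j Y hj hjY hLN⟩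
  · intro j hj1 hjk
    obtain ⟨s, hsF, hsc, hs⟩ := h3a j hj1 hjk
    obtain ⟨z, hz⟩ := hdivs k (N + j) s (by omega) hsc
      (fun q hq => ⟨(hFq q (hsF hq)).1, (hs q hq).1, (hs q hq).2⟩)
    refine ⟨z, ?_⟩
    have hd := dA_diff A B (N + j) j (by omega) hj1 (fun d hd => by
      have hdC : d ∈ C := by rw [hCdef]; exact hd
      have hd0 : 0 < d := Nat.pos_of_ne_zero (fun h => hC0 (h ▸ hdC))
      constructor
      · intro h1
        have hdY : d ≤ Y := by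
          by_contra h2
          exact hgt j hj1 hjk d hdC (not_le.1 h2) h1
        exact (Nat.dvd_add_right ((Nat.dvd_factorial hd0 hdY).trans hLN)).1 h1
      · intro h1
        have hdj : d ≤ j := Nat.le_of_dvd hj1 h1
        exact dvd_add ((Nat.dvd_factorial hd0 (by omega)).trans hLN) h1)
    have hz' : (dA B (N + j) : ℤ) = 2 ^ k * z := by exact_mod_cast hz
    rw [← hz']; linarith
  · have hk2k : k < 2 ^ k := Nat.lt_two_pow_self
    rw [tl_split A N k (2 ^ k) hk2k.le]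
    have h1 : ∑ j ∈ Ioc k (2 ^ k), (dA A (N + j) : ℝ) / 2 ^ j ≤ ε / 2 := by
      refine le_trans (Finset.sum_le_sum (fun j _ => ?_)) (hts.trans hE1)
      gcongr
      exact dA_le_card A _
    have h2 : tl A N (2 ^ k) ≤ ε / 2 := by
      refine (tl_le A N (2 ^ k)).trans (le_trans ?_ hE2)
      gcongr
      · exact_mod_cast hNT
      · push_cast; exact le_rfl
    linarith

theorem le_one_of_not_summable (Q : Set ℕ) (δ : ℝ)
    (hsum : ¬ Summable (fun q : Q => ((q.1 : ℝ)) ^ (-δ))) : δ ≤ 1 := by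
  by_contra h
  rw [not_le] at h
  exact hsum ((Real.summable_nat_rpow.2 (by linarith : -δ < -1)).comp_injective
    Subtype.val_injective)

theorem H13 (Q A B : Set ℕ) (δ θ : ℝ) (hQ : ∀ q ∈ Q, q.Prime) (hθ : 0 < θ) (hθδ : θ < δ)
    (hsum : ¬ Summable (fun q : Q => ((q.1 : ℝ)) ^ (-δ))) (K : ℕ)
    (hdivs : ∀ (w n : ℕ) (s : Finset ℕ), 0 < n → s.card = K * (w + 1) →
      (∀ q ∈ s, q ∈ Q ∧ q ∣ n ∧ ¬ q ^ 2 ∣ n) → 2 ^ w ∣ dA B n)
    (hne : ∃ b ∈ B, 0 < b) (hA : 0 ∉ A) (hB : 0 ∉ B)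
    (hC : Summable (fun c : (symmDiff A B : Set ℕ) => ((c.1 : ℝ)) ^ (-θ))) :
    Irrational (S A) :=
  H13_final A B hne (fun ε k0 hε => H13_key Q A B δ θ hQ hθ hθδ
    (le_one_of_not_summable Q δ hsum) hsum K hdivs hA hB hC ε k0 hε)

end Pool.Agent.H335R2.EM
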