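import Mathlib
import Pool.Agent.H335R2.EM.Fin
import Pool.Agent.H335R2.EM.H13c

namespace Pool.Agent.H335R2.EM

open Finset

theorem primes_not_summable :
    ¬ Summable (fun q : ({q : ℕ | q.Prime} : Set ℕ) => ((q.1 : ℝ)) ^ (-(1 : ℝ))) := by
  intro h
  have h2 : Summable (fun p : Nat.Primes => ((p : ℕ) : ℝ) ^ (-(1 : ℝ))) := h
  have := Nat.Primes.summable_rpow.1 h2
  norm_num at this

/-- sparse perturbations of invariant sets. -/
theorem pert (b : ℕ) (Q A B : Set ℕ) (δ θ : ℝ) (hQ : ∀ q ∈ Q, q.Prime) (hθ : 0 < θ) (hθδ : θ < δ)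
    (hsum : ¬ Summable (fun q : Q => ((q.1 : ℝ)) ^ (-δ))) (hB : InvD b Q B)
    (hne : B.Nonempty) (hA0 : 0 ∉ A) (hB0 : 0 ∉ B)
    (hC : Summable (fun c : (symmDiff A B : Set ℕ) => ((c.1 : ℝ)) ^ (-θ))) :
    Irrational (S A) := by
  have hR : Rich Q := ⟨hQ, δ, hθ.trans hθδ, hsum⟩
  obtain ⟨n, hn⟩ := hne
  refine H13 Q A B δ θ hQ hθ hθδ hsum (2 ^ b) ?_
    ⟨n, hn, Nat.pos_of_ne_zero (fun h => hB0 (h ▸ hn))⟩ hA0 hB0 hC
  intro w n s hn hc hs
  have h1 := G2c Q B b hQ hR.infinite hB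
  refine G2b Q B b hQ h1 hB w n hn s ?_ hs
  rw [hc]; exact Nat.mul_le_mul_left _ (Nat.le_succ w)

/-- complements of sparse sets. -/
theorem cosparse (C : Set ℕ) (θ : ℝ) (hθ : 0 < θ) (hθ1 : θ < 1)
    (hC : Summable (fun c : C => ((c.1 : ℝ)) ^ (-θ))) :
    Irrational (S {n | 0 < n ∧ n ∉ C}) := by
  refine pert 0 {q : ℕ | q.Prime} _ {n : ℕ | 0 < n} 1 θ (fun _ h => h) hθ hθ1 primes_not_summable
    ?_ ⟨1, (one_pos : 0 < 1)⟩ (fun h => lt_irrefl 0 h.1) (fun h => lt_irrefl 0 h) ?_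
  · intro s hs hc m hm hd
    have hp : 0 < ∏ q ∈ s, q := Finset.prod_pos (fun q hq => Nat.Prime.pos (hs q hq))
    exact ⟨fun _ => hm, fun _ => Nat.mul_pos hp hm⟩
  · have hsub : (symmDiff {n | 0 < n ∧ n ∉ C} {n : ℕ | 0 < n} : Set ℕ) ⊆ C := by
      rintro n (⟨h1, h2⟩ | ⟨h1, h2⟩)
      · exact absurd h1.1 h2
      · by_contra h
        exact h2 ⟨h1, h⟩
    have hinj : Function.Injective (fun c : (symmDiff {n | 0 < n ∧ n ∉ C} {n : ℕ | 0 < n} :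
        Set ℕ) => (⟨c.1, hsub c.2⟩ : C)) := by
      intro a b h
      have h3 : a.1 = b.1 := congrArg (fun x : C => x.1) h
      exact Subtype.ext h3
    have h2 := hC.comp_injective hinj
    simpa only [Function.comp_def] using h2

end Pool.Agent.H335R2.EM
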